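import Mathlib

/-!
# Subsets as bit masks, lists of small subsets, the subset recursion, binomial bounds
-/

namespace Pool.Agent.P.MP_8f87b2_lc.S2

open Finset

/-! ### Bit masks -/

/-- the bit mask of a finite set -/
def bm (S : Finset ℕ) : ℕ := ∑ i ∈ S, 2 ^ i

@[simp] theorem bm_empty : bm ∅ = 0 := rfl

theorem bm_insert {S : Finset ℕ} {a : ℕ} (h : a ∉ S) : bm (insert a S) = bm S + 2 ^ a := by
  rw [bm, sum_insert h, add_comm]; rfl

theorem bm_erase {S : Finset ℕ} {a : ℕ} (h : a ∈ S) : bm (S.erase a) + 2 ^ a = bm S :=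
  sum_erase_add _ _ h

theorem bm_union {S T : Finset ℕ} (h : Disjoint S T) : bm (S ∪ T) = bm S + bm T :=
  sum_union h

theorem bm_sdiff {S T : Finset ℕ} (h : T ⊆ S) : bm (S \ T) + bm T = bm S := sum_sdiff h

theorem bm_range (q : ℕ) : bm (range q) + 1 = 2 ^ q := by
  induction q with
  | zero => rfl
  | succ q ih => rw [range_add_one, bm_insert (by simp), pow_succ]; omega

theorem bm_mono {S T : Finset ℕ} (h : T ⊆ S) : bm T ≤ bm S := sum_le_sum_of_subset h

theorem bm_lt {S : Finset ℕ} {q : ℕ} (h : S ⊆ range q) : bm S < 2 ^ q := by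
  have := bm_mono h
  have := bm_range q
  omega

theorem bm_lt_iff {S : Finset ℕ} {q : ℕ} : bm S < 2 ^ q ↔ S ⊆ range q := by
  refine ⟨fun h a ha => ?_, bm_lt⟩
  have h1 : 2 ^ a ≤ bm S := single_le_sum (f := fun i => 2 ^ i) (fun _ _ => Nat.zero_le _) ha
  exact mem_range.mpr ((Nat.pow_lt_pow_iff_right (by norm_num)).mp (h1.trans_lt h))

theorem bm_Ico {p q : ℕ} (h : p ≤ q) : bm (Ico p q) + 2 ^ p = 2 ^ q := by
  have h1 := bm_sdiff (range_subset_range.mpr h)
  have h2 : range q \ range p = Ico p q := by ext; simp; omega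
  have := bm_range p
  have := bm_range q
  rw [h2] at h1
  omega

theorem testBit_bm (S : Finset ℕ) (a : ℕ) : (bm S).testBit a = decide (a ∈ S) := by
  have h := toFinset_bitIndices_sum_two_pow S
  have h2 : a ∈ (bm S).bitIndices ↔ a ∈ S := by
    rw [← List.mem_toFinset, bm, h]
  rw [Nat.mem_bitIndices] at h2
  by_cases ha : a ∈ S <;> simp_all

theorem bm_shift (S : Finset ℕ) (a : ℕ) : (bm S >>> a) % 2 = if a ∈ S then 1 else 0 := by
  have h := testBit_bm S a
  rw [Nat.testBit_eq_decide_div_mod_eq, ← Nat.shiftRight_eq_div_pow] at h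
  split_ifs with ha
  · simp only [ha, decide_true, decide_eq_true_eq] at h; exact h
  · simp only [ha, decide_false, decide_eq_false_iff_not] at h; omega

theorem bm_inj {S T : Finset ℕ} (h : bm S = bm T) : S = T :=
  geomSum_injective (n := 2) le_rfl h

/-- distinct table cells have distinct addresses -/
theorem addr_inj {q a a' : ℕ} {S T : Finset ℕ} (hS : S ⊆ range q) (hT : T ⊆ range q)
    (h : a * 2 ^ q + bm S = a' * 2 ^ q + bm T) : a = a' ∧ S = T := by
  have h1 := bm_lt hS
  have h2 := bm_lt hT
  have h3 := congrArg (· / 2 ^ q) h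
  have h0 : 0 < 2 ^ q := by positivity
  simp only [add_comm _ (bm _), Nat.add_mul_div_right _ _ h0, Nat.div_eq_of_lt h1,
    Nat.div_eq_of_lt h2, zero_add] at h3
  subst h3
  exact ⟨rfl, bm_inj (by omega)⟩

/-! ### The list of small subsets -/

/-- the subsets of `e` below `a` with at most `m` elements, in the order of their masks -/
def subs (m : ℕ) (e : Finset ℕ) : ℕ → List (Finset ℕ)
  | 0 => [∅]
  | a + 1 => if a ∈ e then
      subs m e a ++ ((subs m e a).filter fun T => T.card < m).map (insert a) else subs m e a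

theorem mem_subs {m : ℕ} {e : Finset ℕ} {a : ℕ} {T : Finset ℕ} :
    T ∈ subs m e a ↔ T ⊆ e ∧ T ⊆ range a ∧ T.card ≤ m := by
  induction a generalizing T with
  | zero =>
    simp only [subs, List.mem_singleton, range_zero, subset_empty]
    exact ⟨by rintro rfl; simp, fun h => h.2.1⟩
  | succ a ih =>
    have key : ∀ T : Finset ℕ, a ∉ T → (T ⊆ range (a + 1) ↔ T ⊆ range a) := fun T hT =>
      ⟨fun h x hx => by
        have := mem_range.mp (h hx)
        exact mem_range.mpr (lt_of_le_of_ne (by omega) (by rintro rfl; exact hT hx)),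
        fun h => h.trans (range_subset_range.mpr (by omega))⟩
    rw [subs]
    split_ifs with ha
    · simp only [List.mem_append, List.mem_map, List.mem_filter, ih, decide_eq_true_eq]
      constructor
      · rintro (⟨h1, h2, h3⟩ | ⟨S, ⟨⟨h1, h2, -⟩, h3⟩, rfl⟩)
        · exact ⟨h1, h2.trans (range_subset_range.mpr (by omega)), h3⟩
        · refine ⟨insert_subset ha h1, ?_, (card_insert_le _ _).trans h3⟩
          rw [range_add_one]; exact insert_subset_insert _ h2
      · rintro ⟨h1, h2, h3⟩
        by_cases haT : a ∈ T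
        · refine Or.inr ⟨T.erase a, ⟨⟨(erase_subset _ _).trans h1, ?_, ?_⟩, ?_⟩,
            insert_erase haT⟩
          · exact (key _ (notMem_erase _ _)).mp ((erase_subset _ _).trans h2)
          · exact card_erase_le.trans h3
          · have := card_erase_add_one haT; omega
        · exact Or.inl ⟨h1, (key _ haT).mp h2, h3⟩
    · rw [ih]
      constructor
      · rintro ⟨h1, h2, h3⟩; exact ⟨h1, h2.trans (range_subset_range.mpr (by omega)), h3⟩
      · rintro ⟨h1, h2, h3⟩; exact ⟨h1, (key _ fun h => ha (h1 h)).mp h2, h3⟩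

theorem notMem_of_mem_subs {m : ℕ} {e : Finset ℕ} {a : ℕ} {T : Finset ℕ} (h : T ∈ subs m e a) :
    a ∉ T := fun ha => by simpa using (mem_subs.mp h).2.1 ha

theorem subs_pairwise (m : ℕ) (e : Finset ℕ) (a : ℕ) :
    (subs m e a).Pairwise fun T T' => ¬ T' ⊆ T := by
  induction a with
  | zero => simp [subs]
  | succ a ih =>
    rw [subs]
    split_ifs with ha
    · rw [List.pairwise_append]
      refine ⟨ih, ?_, ?_⟩
      · rw [List.pairwise_map]
        refine (ih.filter _).imp_of_mem fun {S T} hS hT h h' => h fun x hx => ?_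
        rcases mem_insert.mp (h' (mem_insert_of_mem hx)) with h1 | h1
        · exact absurd (h1 ▸ hx) (notMem_of_mem_subs (List.mem_filter.mp hT).1)
        · exact h1
      · intro S hS T hT h
        obtain ⟨T', -, rfl⟩ := List.mem_map.mp hT
        exact notMem_of_mem_subs hS (h (mem_insert_self _ _))
    · exact ih

theorem subs_nodup (m : ℕ) (e : Finset ℕ) (a : ℕ) : (subs m e a).Nodup :=
  (subs_pairwise m e a).imp fun {S T} h (h' : S = T) => h h'.ge

theorem getD_mem' {α : Type*} {L : List α} {i : ℕ} (d : α) (hi : i < L.length) : L.getD i d ∈ L := by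
  rw [List.getD_eq_getElem _ _ hi]; exact List.getElem_mem _

theorem exists_getD {α : Type*} {L : List α} {x : α} (d : α) (hx : x ∈ L) :
    ∃ i < L.length, L.getD i d = x := by
  obtain ⟨i, hi, rfl⟩ := List.getElem_of_mem hx
  exact ⟨i, hi, List.getD_eq_getElem _ _ hi⟩

/-- a listed subset of a listed set comes no later -/
theorem subs_index_le {m : ℕ} {e : Finset ℕ} {a i j : ℕ} (hi : i < (subs m e a).length)
    (hj : j < (subs m e a).length) (h : (subs m e a).getD i ∅ ⊆ (subs m e a).getD j ∅) :
    i ≤ j := by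
  by_contra hc
  rw [List.getD_eq_getElem _ _ hi, List.getD_eq_getElem _ _ hj] at h
  exact List.pairwise_iff_getElem.mp (subs_pairwise m e a) j i hj hi (by omega) h

theorem subs_getD_inj {m : ℕ} {e : Finset ℕ} {a i j : ℕ} (hi : i < (subs m e a).length)
    (hj : j < (subs m e a).length) (h : (subs m e a).getD i ∅ = (subs m e a).getD j ∅) :
    i = j :=
  le_antisymm (subs_index_le hi hj h.le) (subs_index_le hj hi h.ge)

theorem subs_length_pos (m : ℕ) (e : Finset ℕ) (a : ℕ) : 0 < (subs m e a).length :=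
  List.length_pos_of_mem (a := ∅) (mem_subs.mpr (by simp))

theorem subs_getD_zero (m : ℕ) (e : Finset ℕ) (a : ℕ) : (subs m e a).getD 0 ∅ = ∅ := by
  obtain ⟨i, hi, h⟩ := exists_getD (L := subs m e a) (x := ∅) ∅ (mem_subs.mpr (by simp))
  have := subs_index_le hi (subs_length_pos m e a) (by rw [h]; exact empty_subset _)
  obtain rfl : i = 0 := by omega
  exact h

theorem subs_length_mono (m : ℕ) (e : Finset ℕ) {a b : ℕ} (h : a ≤ b) :
    (subs m e a).length ≤ (subs m e b).length := by
  induction h with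
  | refl => exact le_rfl
  | step _ ih =>
    refine ih.trans ?_
    rw [subs]
    split_ifs <;> simp

/-- the number of subsets with at most `m` elements -/
def bs (n m : ℕ) : ℕ := ∑ j ∈ range (m + 1), n.choose j

theorem length_subs (m : ℕ) {e : Finset ℕ} {q : ℕ} (he : e ⊆ range q) :
    (subs m e q).length = bs e.card m := by
  rw [← List.toFinset_card_of_nodup (subs_nodup m e q)]
  have : (subs m e q).toFinset = (range (m + 1)).biUnion fun j => powersetCard j e := by
    ext T
    simp only [List.mem_toFinset, mem_subs, mem_biUnion, mem_range, mem_powersetCard]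
    exact ⟨fun h => ⟨_, by omega, h.1, rfl⟩,
      fun ⟨j, h1, h2, h3⟩ => ⟨h2, h2.trans he, by omega⟩⟩
  rw [this, card_biUnion, bs]
  · simp
  · intro i _ j _ hij
    exact pairwise_disjoint_powersetCard e hij

theorem bs_le_two_pow (n m : ℕ) : bs n m ≤ 2 ^ n := by
  have h := length_subs m (e := range n) (q := n) Subset.rfl
  have h2 := card_powerset (range n)
  rw [card_range] at h h2
  rw [← h, ← h2, ← List.toFinset_card_of_nodup (subs_nodup _ _ _)]
  exact card_le_card fun T hT => mem_powerset.mpr (mem_subs.mp (List.mem_toFinset.mp hT)).1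

/-! ### The subset recursion -/

/-- the signed sum over the removals of elements below `a` -/
def zet (ε : ℤ) (X : Finset ℕ → ℤ) : ℕ → Finset ℕ → ℤ
  | 0, w => X w
  | a + 1, w => zet ε X a w + if a ∈ w then ε * zet ε X a (w.erase a) else 0

theorem zet_eq (ε : ℤ) (X : Finset ℕ → ℤ) (a : ℕ) (w : Finset ℕ) :
    zet ε X a w = ∑ T ∈ (w.filter (· < a)).powerset, ε ^ T.card * X (w \ T) := by
  induction a generalizing w with
  | zero => simp [zet]
  | succ a ih =>
    rw [zet, ih]
    split_ifs with ha
    · have h1 : w.filter (· < a + 1) = insert a (w.filter (· < a)) := by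
        ext x; simp only [mem_filter, mem_insert]
        constructor
        · rintro ⟨h1, h2⟩
          by_cases hx : x = a
          exacts [Or.inl hx, Or.inr ⟨h1, by omega⟩]
        · rintro (rfl | ⟨h1, h2⟩)
          exacts [⟨ha, by omega⟩, ⟨h1, by omega⟩]
      have h2 : (w.erase a).filter (· < a) = w.filter (· < a) := by
        ext x; simp only [mem_filter, mem_erase]
        exact ⟨fun h => ⟨h.1.2, h.2⟩, fun h => ⟨⟨by omega, h.1⟩, h.2⟩⟩
      rw [h1, sum_powerset_insert (by simp), ih, h2, mul_sum]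
      congr 1
      refine sum_congr rfl fun T hT => ?_
      have h3 : a ∉ T := fun h => by simpa using (mem_filter.mp (mem_powerset.mp hT h)).2
      rw [card_insert_of_notMem h3, pow_succ, show w \ insert a T = w.erase a \ T by
        ext x; simp only [mem_sdiff, mem_insert, mem_erase]; tauto]
      ring
    · have h1 : w.filter (· < a + 1) = w.filter (· < a) := by
        ext x; simp only [mem_filter]
        exact ⟨fun h => ⟨h.1, lt_of_le_of_ne (by omega) (by rintro rfl; exact ha h.1)⟩,
          fun h => ⟨h.1, by omega⟩⟩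
      rw [h1, add_zero]

theorem zet_top (ε : ℤ) (X : Finset ℕ → ℤ) {q : ℕ} {w : Finset ℕ} (hw : w ⊆ range q) :
    zet ε X q w = ∑ T ∈ w.powerset, ε ^ T.card * X (w \ T) := by
  rw [zet_eq, filter_true_of_mem fun x hx => mem_range.mp (hw hx)]

theorem zet_one_top (X : Finset ℕ → ℤ) {q : ℕ} {w : Finset ℕ} (hw : w ⊆ range q) :
    zet 1 X q w = ∑ u ∈ w.powerset, X u := by
  rw [zet_top _ _ hw]
  simp only [one_pow, one_mul]
  exact sum_powerset_sdiff_eq w X
  where
  sum_powerset_sdiff_eq (w : Finset ℕ) (X : Finset ℕ → ℤ) :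
      ∑ T ∈ w.powerset, X (w \ T) = ∑ u ∈ w.powerset, X u :=
    sum_bij' (fun T _ => w \ T) (fun T _ => w \ T) (fun _ _ => mem_powerset.mpr sdiff_subset)
      (fun _ _ => mem_powerset.mpr sdiff_subset)
      (fun _ h => Finset.sdiff_sdiff_eq_self (mem_powerset.mp h))
      (fun _ h => Finset.sdiff_sdiff_eq_self (mem_powerset.mp h)) fun _ _ => rfl

/-- the recursion computes the disjoint product at the top -/
theorem zet_root (X Y : Finset ℕ → ℤ) {q h : ℕ} {e : Finset ℕ} (he : e ⊆ range q)
    (hc : e.card = 2 * h) (hX : ∀ w, w.card ≠ h → X w = 0) (hY : ∀ w, w.card ≠ h → Y w = 0) :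
    zet (-1) (fun w => zet 1 X q w * zet 1 Y q w) q e =
      ∑ u ∈ powersetCard h e, X u * Y (e \ u) := by
  rw [zet_top _ _ he]
  have h1 : ∀ T ∈ e.powerset, (-1 : ℤ) ^ T.card * (zet 1 X q (e \ T) * zet 1 Y q (e \ T)) =
      ∑ u ∈ e.powerset, ∑ v ∈ e.powerset,
        X u * Y v * (if T ⊆ e \ (u ∪ v) then (-1) ^ T.card else 0) := by
    intro T hT
    have hs : e \ T ⊆ range q := sdiff_subset.trans he
    have hp : (e \ T).powerset = e.powerset.filter fun u => Disjoint u T := by
      ext u; simp [subset_sdiff]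
    rw [zet_one_top _ hs, zet_one_top _ hs, hp, sum_filter, sum_filter, sum_mul_sum, mul_sum]
    refine sum_congr rfl fun u _ => ?_
    rw [mul_sum]
    refine sum_congr rfl fun v _ => ?_
    have : T ⊆ e \ (u ∪ v) ↔ Disjoint u T ∧ Disjoint v T := by
      rw [subset_sdiff, disjoint_union_right, disjoint_comm (a := u), disjoint_comm (a := v)]
      exact ⟨fun h => h.2, fun h => ⟨mem_powerset.mp hT, h⟩⟩
    by_cases a : Disjoint u T <;> by_cases b : Disjoint v T <;> simp [this, a, b, mul_comm]
  rw [sum_congr rfl h1, sum_comm]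
  have h2 : ∀ u ∈ e.powerset, ∑ T ∈ e.powerset, ∑ v ∈ e.powerset,
      X u * Y v * (if T ⊆ e \ (u ∪ v) then (-1 : ℤ) ^ T.card else 0) =
      if u.card = h then X u * Y (e \ u) else 0 := by
    intro u hu
    have hu' := mem_powerset.mp hu
    rw [sum_comm]
    have h3 : ∀ v ∈ e.powerset, ∑ T ∈ e.powerset,
        X u * Y v * (if T ⊆ e \ (u ∪ v) then (-1 : ℤ) ^ T.card else 0) =
        X u * Y v * if e \ (u ∪ v) = ∅ then 1 else 0 := by
      intro v _
      rw [← mul_sum, ← sum_filter, ← sum_powerset_neg_one_pow_card]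
      congr 2
      ext T
      simp only [mem_filter, mem_powerset]
      exact ⟨fun h => h.2, fun h => ⟨h.trans sdiff_subset, h⟩⟩
    rw [sum_congr rfl h3]
    split_ifs with hh
    · rw [sum_eq_single (e \ u)]
      · rw [if_pos (by rw [union_sdiff_of_subset hu', sdiff_self]; rfl), mul_one]
      · intro v hv hne
        by_cases hv2 : v.card = h
        · rw [if_neg, mul_zero]
          intro h0
          apply hne
          have hsub : e \ u ⊆ v := fun x hx => by
            have h4 := sdiff_eq_empty_iff_subset.mp h0 (mem_sdiff.mp hx).1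
            exact (mem_union.mp h4).resolve_left (mem_sdiff.mp hx).2
          refine (eq_of_subset_of_card_le hsub ?_).symm
          rw [card_sdiff_of_subset hu']; omega
        · rw [hY v hv2]; simp
      · intro h0; exact absurd (mem_powerset.mpr sdiff_subset) h0
    · simp [hX u hh]
  rw [sum_congr rfl h2, ← sum_filter, powersetCard_eq_filter]

/-! ### Binomial bounds -/

theorem bs_mul_le {n m b c : ℕ} (hm : m ≤ n) (hbc : b ≤ c) :
    bs n m * (b ^ m * c ^ (n - m)) ≤ (b + c) ^ n := by
  rw [add_pow, bs, sum_mul]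
  refine le_trans (sum_le_sum fun j hj => ?_)
    (sum_le_sum_of_subset (range_subset_range.mpr (by omega : m + 1 ≤ n + 1)))
  have hj' : j ≤ m := by have := mem_range.mp hj; omega
  obtain ⟨d, rfl⟩ := Nat.exists_eq_add_of_le hj'
  rw [show n - j = d + (n - (j + d)) by omega, pow_add, pow_add, mul_comm, Nat.cast_id]
  have := Nat.pow_le_pow_left hbc d
  gcongr ?_ * _
  rw [mul_assoc]
  gcongr

theorem choose_mul_le {n m : ℕ} (b c : ℕ) (hm : m ≤ n) :
    n.choose m * (b ^ m * c ^ (n - m)) ≤ (b + c) ^ n := by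
  rw [add_pow, mul_comm]
  exact single_le_sum (f := fun j => b ^ j * c ^ (n - j) * (n.choose j : ℕ))
    (fun _ _ => Nat.zero_le _) (mem_range.mpr (by omega))

theorem le_choose_mul (b c m : ℕ) :
    (b + c) ^ ((b + c) * m) ≤
      ((b + c) * m + 1) * (((b + c) * m).choose (b * m) * (b ^ (b * m) * c ^ (c * m))) := by
  set n := (b + c) * m with hn
  let f : ℕ → ℕ := fun j => b ^ j * c ^ (n - j) * n.choose j
  have hnb : n = b * m + c * m := by rw [hn]; ring
  have up : ∀ j, j < b * m → f j ≤ f (j + 1) := by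
    intro j hj
    have h1 := Nat.choose_succ_right_eq n j
    refine Nat.le_of_mul_le_mul_right ?_ (Nat.succ_pos j)
    simp only [f]
    obtain ⟨d, hd⟩ : ∃ d, n - j = d + 1 := ⟨n - j - 1, by omega⟩
    rw [show n - (j + 1) = d by omega, hd, mul_assoc _ (n.choose (j + 1)), h1, hd, pow_succ,
      pow_succ]
    have h2 : c * (j + 1) ≤ b * (d + 1) := by
      have h3 : c * (j + 1) ≤ c * (b * m) := Nat.mul_le_mul_left _ hj
      have h4 : b * (c * m) ≤ b * (d + 1) := Nat.mul_le_mul_left _ (by omega)
      nlinarith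
    calc b ^ j * (c ^ d * c) * n.choose j * j.succ
        = b ^ j * c ^ d * n.choose j * (c * (j + 1)) := by rw [Nat.succ_eq_add_one]; ring
      _ ≤ b ^ j * c ^ d * n.choose j * (b * (d + 1)) := Nat.mul_le_mul_left _ h2
      _ = _ := by ring
  have down : ∀ j, b * m ≤ j → f (j + 1) ≤ f j := by
    intro j hj
    by_cases hjn : n ≤ j
    · simp [f, Nat.choose_eq_zero_of_lt (by omega : n < j + 1)]
    have h1 := Nat.choose_succ_right_eq n j
    refine Nat.le_of_mul_le_mul_right ?_ (Nat.succ_pos j)
    simp only [f]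
    obtain ⟨d, hd⟩ : ∃ d, n - j = d + 1 := ⟨n - j - 1, by omega⟩
    rw [show n - (j + 1) = d by omega, hd, mul_assoc _ (n.choose (j + 1)), h1, hd, pow_succ,
      pow_succ]
    have h2 : b * (d + 1) ≤ c * (j + 1) := by
      have h3 : c * (b * m) ≤ c * (j + 1) := Nat.mul_le_mul_left _ (by omega)
      have h4 : b * (d + 1) ≤ b * (c * m) := Nat.mul_le_mul_left _ (by omega)
      nlinarith
    calc b ^ j * b * c ^ d * (n.choose j * (d + 1))
        = b ^ j * c ^ d * n.choose j * (b * (d + 1)) := by ring
      _ ≤ b ^ j * c ^ d * n.choose j * (c * (j + 1)) := Nat.mul_le_mul_left _ h2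
      _ = _ := by rw [Nat.succ_eq_add_one]; ring
  have top : ∀ j, f j ≤ f (b * m) := by
    intro j
    rcases le_total j (b * m) with h | h
    · induction h using Nat.decreasingInduction with
      | self => exact le_rfl
      | of_succ k hk ih => exact (up k hk).trans ih
    · induction h with
      | refl => exact le_rfl
      | step hk ih => exact (down _ hk).trans ih
  rw [add_pow]
  refine (sum_le_card_nsmul _ _ (f (b * m)) fun j _ => top j).trans (le_of_eq ?_)
  simp only [f, card_range, smul_eq_mul]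
  rw [show n - b * m = c * m by omega]
  ring

end Pool.Agent.P.MP_8f87b2_lc.S2
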