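import Pool.Agent.P.MP_8f87b2_lc.S2.Ctx

/-!
# The size facts
-/

namespace Pool.Agent.P.MP_8f87b2_lc.S2

open Finset

variable {E : Env} {c : Cx}

theorem exists_Sz (n : ℕ) (x : ℕ → ℤ) : ∃ c : Cx, c.n = n ∧ c.x = x ∧ Sz c := by
  classical
  have ex : ∃ τ, 100 ≤ τ ∧ n < 2 ^ (65702 * τ) :=
    ⟨n + 100, by omega, lt_of_lt_of_le (by omega) Nat.lt_two_pow_self.le⟩
  refine ⟨⟨Nat.find ex, n, x⟩, rfl, rfl, (Nat.find_spec ex).1, (Nat.find_spec ex).2,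
    fun i h1 h2 => ?_⟩
  have := Nat.find_min ex h2
  simp only [not_and, not_lt] at this
  exact this h1

theorem G_le (c : Cx) : c.G ≤ 2 ^ (27375 * c.τ) := by
  rw [Cx.G, Cx.LU, length_subs _ (fun x hx => mem_range.mpr (mem_Ico.mp hx).2), Nat.card_Ico,
    show c.q - c.q1 = 27375 * c.τ by unfold Cx.q Cx.q1; omega]
  exact bs_le_two_pow _ _

theorem p2_le {a b : ℕ} (h : a ≤ b) : 2 ^ a ≤ 2 ^ b := Nat.pow_le_pow_right (by norm_num) h

theorem p2_mul {x y a b : ℕ} (hx : x ≤ 2 ^ a) (hy : y ≤ 2 ^ b) : x * y ≤ 2 ^ (a + b) := by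
  rw [pow_add]; exact Nat.mul_le_mul hx hy

theorem p2_add {x y a : ℕ} (hx : x ≤ 2 ^ a) (hy : y ≤ 2 ^ a) : x + y ≤ 2 ^ (a + 1) := by
  rw [pow_succ]; omega

theorem p2_self (a : ℕ) : a ≤ 2 ^ a := Nat.lt_two_pow_self.le

theorem bnd (hS : Sz c) {W : ℕ} (hW : E.W = 2 ^ W) (hw : 3000000 * c.τ ≤ W)
    (hL : E.Lim = 2 ^ (1000000 * c.τ)) (hn : E.n1 = c.n + 1)
    (hin : ∀ i < c.n, E.inp (i + 1) = (c.x i % E.W).toNat)
    (hx : ∀ i < c.n, |c.x i| ≤ (c.n : ℤ) ^ 4) : Bnd c E := by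
  have hτ := hS.τ1
  have hn' := hS.nN
  refine ⟨hτ, hn, hin, fun i hi => ?_, ?_, ?_, ?_, ?_, ?_, ?_, ?_, ?_, ?_, ?_⟩
  · have h1 : c.n ^ 4 ≤ 2 ^ (262808 * c.τ) := by
      refine (Nat.pow_le_pow_left hn'.le 4).trans ?_
      rw [← pow_mul]; exact p2_le (by omega)
    have h2 : c.V = 4 * 2 ^ (262808 * c.τ) := by unfold Cx.V Cx.v; rw [pow_add]; ring
    have h3 := hx i hi
    have h4 : ((c.n : ℤ)) ^ 4 ≤ 2 ^ (262808 * c.τ) := by exact_mod_cast h1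
    rw [h2]; push_cast; linarith
  · rw [hL, hW]
    exact lt_of_le_of_lt (p2_mul (a := 11) (by norm_num) le_rfl)
      (Nat.pow_lt_pow_right (by norm_num) (by omega))
  · rw [hL]
    exact (p2_mul (p2_self _) le_rfl).trans (p2_le (by unfold Cx.q; omega))
  · rw [hL]
    exact (p2_mul (a := 2) (by norm_num) le_rfl).trans (p2_le (by unfold Cx.k; omega))
  · rw [hL]
    exact (p2_add (p2_mul (p2_mul (a := 2) (by norm_num) (G_le c)) hn'.le)
      Nat.one_le_two_pow).trans (p2_le (by omega))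
  · rw [hL]
    exact le_trans hn' (p2_le (by omega))
  · rw [hL]; exact p2_self _
  · rw [hL]
    exact (p2_mul (a := 6) (by norm_num) le_rfl).trans (p2_le (by omega))
  · rw [hW, c.MV]
    exact lt_of_le_of_lt (p2_mul (a := 1) (by norm_num) le_rfl)
      (Nat.pow_lt_pow_right (by norm_num) (by unfold Cx.k Cx.v; omega))
  · rw [hW, c.MV]
    exact pow_dvd_pow _ (by unfold Cx.k Cx.v; omega)
  · rw [hW, Cx.T, ← pow_mul]
    exact pow_dvd_pow _ (by omega)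

end Pool.Agent.P.MP_8f87b2_lc.S2
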