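import Pool.Agent.P.MP_8f87b2_lc.S2.Hv

/-!
# The buckets
-/

namespace Pool.Agent.P.MP_8f87b2_lc.S2

open Finset

variable {E : Env} {c : Cx}

theorem bk_G_le_Q (c : Cx) : c.G ≤ c.Q := by
  have hs : Ico c.q1 c.q ⊆ range c.q := fun x hx => mem_range.mpr (mem_Ico.mp hx).2
  have h1 := length_subs c.l2 hs
  have h2 := bs_le_two_pow (Ico c.q1 c.q).card c.l2
  have h3 : 2 ^ (Ico c.q1 c.q).card ≤ 2 ^ c.q :=
    Nat.pow_le_pow_right (by norm_num) (by simp)
  exact (h1.le.trans h2).trans h3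

theorem pListIn_spec (hB : Bnd c E) {σ : St} {t : ℕ} (hP : Par c σ) {R : ℕ → ℕ} {r g i κ : ℕ}
    (hR : ∀ i < c.nR, R i < c.M) (hγ : ∀ i < c.n, σ.bank 6 i = c.γ r i)
    (hg : g < c.G) (hi : i < c.n) (hκ : κ < 3) (h50 : σ.var 50 = bm (c.LU.getD g ∅))
    (h36 : σ.var 36 = R (c.q + 1) + c.Hn R (c.LU.getD g ∅))
    (h57 : σ.var 57 = if (c.LU.getD g ∅).card = c.l2 then 0 else c.M) (h53 : σ.var 53 = i)
    (h54 : σ.var 54 = κ) (h55 : σ.var 55 = (g * c.n + i) * 3 + κ)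
    (hI : LInv c R r ((g * c.n + i) * 3 + κ) σ) :
    WP E pListIn (fun σ' t' => σ'.var 55 = (g * c.n + i) * 3 + κ + 1 ∧
      LInv c R r ((g * c.n + i) * 3 + κ + 1) σ' ∧ t' ≤ t + 6) σ t := by
  have hbig := hB.big
  have hlE := hB.lE
  have hlM := hB.lM
  have hln := hB.ln
  have hM := c.M_pos
  have hnR : c.nR = c.q + 2 := rfl
  have h1 := mul_add_lt hg hi
  have h2 : 3 * c.G * c.n = c.G * c.n * 3 := by ring
  have e1 : ((g * c.n + i) * 3 + κ) / 3 = g * c.n + i := by omega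
  have eg : c.eg ((g * c.n + i) * 3 + κ) = g := by
    rw [Cx.eg, e1, add_comm, Nat.add_mul_div_right _ _ (by omega), Nat.div_eq_of_lt hi, zero_add]
  have ei : c.ei ((g * c.n + i) * 3 + κ) = i := by
    rw [Cx.ei, e1, add_comm, Nat.add_mul_mod_self_right, Nat.mod_eq_of_lt hi]
  have eT : c.Tg ((g * c.n + i) * 3 + κ) = c.LU.getD g ∅ := by rw [Cx.Tg, eg]
  have ev : (σ.var 36 + c.γ r i + κ) % c.M + σ.var 57 = c.vn R r ((g * c.n + i) * 3 + κ) := by
    rw [Cx.vn, eT, ei, show ((g * c.n + i) * 3 + κ) % 3 = κ by omega, h36, h57]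
  have h3 := hR (c.q + 1) (by omega)
  have h4 := c.γ_lt r i
  have h6 := c.Hn_lt R (c.LU.getD g ∅)
  have h7 : σ.var 36 < 2 * c.M := by omega
  have h8 : σ.var 57 ≤ c.M := by rw [h57]; split_ifs <;> omega
  have h9 : (σ.var 36 + c.γ r i + κ) % c.M < c.M := Nat.mod_lt _ hM
  have h5 : c.vn R r ((g * c.n + i) * 3 + κ) < 2 * c.M := by omega
  rw [← eT] at h50
  clear h36 h57 h6 eT
  generalize (g * c.n + i) * 3 + κ = m at *
  unfold pListIn
  simp only [wp_blk_cons, wp_set, wp_st, wp_blk_nil]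
  simp [h50, h53, h54, h55, hP.M, hγ i hi, c.and_M, ev, LInv]
  and_intros
  any_goals omega
  · intro v hv
    rw [Lst]
    have hne : ∀ v, ∀ a ∈ Lst (c.vn R r) m v, a ≠ m + 1 := fun v a ha => by
      obtain ⟨m', h1, h2, -⟩ := mem_Lst.mp ha; omega
    split_ifs with h
    · subst h
      refine ⟨by simp, by omega, ?_⟩
      rw [Function.update_self]
      exact (hI.1 _ hv).update _ (hne _)
    · rw [Function.update_of_ne (Ne.symm h)]
      exact (hI.1 _ hv).update _ (hne _)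
  · intro m' hm'
    simp only [Function.update_apply, Nat.add_right_cancel_iff]
    split_ifs with h
    · simp [h, ei]
    · exact hI.2 m' (by omega)

/-- the two inner loops, for one set of the list -/
theorem pListRow_spec (hB : Bnd c E) {σ : St} {t : ℕ} (hP : Par c σ) {R : ℕ → ℕ} {r g : ℕ}
    (hR : ∀ i < c.nR, R i < c.M) (hγ : ∀ i < c.n, σ.bank 6 i = c.γ r i)
    (hg : g < c.G) (h50 : σ.var 50 = bm (c.LU.getD g ∅))
    (h36 : σ.var 36 = R (c.q + 1) + c.Hn R (c.LU.getD g ∅))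
    (h57 : σ.var 57 = if (c.LU.getD g ∅).card = c.l2 then 0 else c.M)
    (h55 : σ.var 55 = g * c.n * 3) (hI : LInv c R r (g * c.n * 3) σ) :
    WP E (forL 53 1 (forL 54 25 pListIn)) (fun σ' t' => σ'.var 55 = (g + 1) * c.n * 3 ∧
      LInv c R r ((g + 1) * c.n * 3) σ' ∧ t' ≤ t + c.n * 28 + 2) σ t := by
  have hbig := hB.big
  have hln := hB.ln
  refine wp_for c.n 26
    (fun i σ' => σ'.var 55 = (g * c.n + i) * 3 ∧ LInv c R r ((g * c.n + i) * 3) σ') [54, 55, 56]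
    [8, 9, 10, 11] false (by decide) (by decide) (by decide) (by decide) hP.n
    (by omega) (by omega) (by simpa [LInv, h55] using hI) ?_
    fun σ' t' _ hI ht => ⟨by rw [Nat.succ_mul]; exact hI.1, by rw [Nat.succ_mul]; exact hI.2,
      by omega⟩
  intro i σ₂ t₂ hi hF₂ h53 hI₂
  have hP₂ := hP.frame hF₂ (by decide)
  refine wp_for 3 6
    (fun κ σ' => σ'.var 55 = (g * c.n + i) * 3 + κ ∧ LInv c R r ((g * c.n + i) * 3 + κ) σ')
    [55, 56] [8, 9, 10, 11] false (by decide) (by decide) (by decide) (by decide) hP₂.three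
    (by omega) (by omega) (by simpa [LInv] using hI₂) ?_
    fun σ' t' _ hI ht => ⟨by
      rw [show (g * c.n + (i + 1)) * 3 = (g * c.n + i) * 3 + 3 by ring]
      simpa [LInv] using hI, by omega⟩
  intro κ σ₃ t₃ hκ hF₃ h54 hI₃
  refine (pListIn_spec hB (hP₂.frame hF₃ (by decide)) (R := R) (r := r) hR ?_ hg hi hκ ?_ ?_ ?_ ?_
    h54 hI₃.1 hI₃.2).mono fun σ' t' h => ⟨by simpa [LInv] using ⟨h.1, h.2.1⟩, h.2.2⟩
  · rw [hF₃.bank 6 (by decide), hF₂.bank 6 (by decide)]; exact hγ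
  · rw [hF₃.var 50 (by decide), hF₂.var 50 (by decide), h50]
  · rw [hF₃.var 36 (by decide), hF₂.var 36 (by decide), h36]
  · rw [hF₃.var 57 (by decide), hF₂.var 57 (by decide), h57]
  · rw [hF₃.var 53 (by decide), h53]

theorem bk_setv (σ : St) (x v : ℕ) : Frame [x] [] false σ (σ.setv x v) :=
  (Frame.refl _ _ _ _).of_setv (by simp)

theorem pList_spec (hB : Bnd c E) {σ : St} {t : ℕ} (hP : Par c σ) {R : ℕ → ℕ} {r : ℕ}
    (hR0 : σ.bank 0 = R) (hR : ∀ i < c.nR, R i < c.M) (hγ : ∀ i < c.n, σ.bank 6 i = c.γ r i)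
    (h7 : σ.var 7 = c.G) (h2 : LstAt 2 c.LU σ) (h8 : ∀ v, σ.bank 8 v = 0) :
    WP E pList (fun σ' t' => LInv c R r (c.G * c.n * 3) σ' ∧ t' ≤ t + c.tList) σ t := by
  have hbig := hB.big
  have hln := hB.ln
  have hlM := hB.lM
  have hls := hB.ls
  have hM := c.M_pos
  have hQ := c.Q_pos
  have hG := bk_G_le_Q c
  have hnR : c.nR = c.q + 2 := rfl
  have hl2 : c.l2 = 4000 * c.τ := rfl
  have hq : c.q = 219000 * c.τ := rfl
  have hτ := hB.τ1
  have hlQ : 3 * c.Q ≤ E.Lim := le_trans (Nat.mul_le_mul_right _ (by omega)) hB.lQ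
  unfold pList
  simp only [wp_blk_cons, wp_set, wp_blk_nil, Expr.safe, Expr.eval]
  refine ⟨by omega, ?_⟩
  refine wp_for c.G (c.tHv + c.n * 28 + 6)
    (fun g σ' => σ'.var 55 = g * c.n * 3 ∧ LInv c R r (g * c.n * 3) σ')
    [50, 34, 35, 37, 36, 57, 53, 54, 55, 56]
    [8, 9, 10, 11] false (by decide) (by decide) (by decide) (by decide) (by simp [h7])
    (by omega) (by omega) (by simp [LInv, Lst, Chain, h8]) ?_
    fun σ' t' _ hI ht => ⟨hI.2, by
      simp only [Cx.tList, Nat.add_assoc, Nat.reduceAdd] at ht ⊢; omega⟩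
  intro g σ₁ t₁ hg hF₁ h33 hI₁
  have hF₁' : Frame [33, 50, 34, 35, 37, 36, 57, 53, 54, 55, 56] [8, 9, 10, 11] false σ σ₁ :=
    hF₁.of_setv (by decide)
  have hP₁ := hP.frame hF₁' (by decide)
  have hmem := mem_subs.mp (getD_mem' (L := c.LU) ∅ hg)
  have hb2 : σ₁.bank 2 (g + g) = bm (c.LU.getD g ∅) := by
    rw [hF₁'.bank 2 (by decide), ← two_mul]; exact (h2 g hg).1
  have hb0 : σ₁.bank 0 = R := (hF₁'.bank 0 (by decide)).trans hR0
  have hb6 : ∀ i < c.n, σ₁.bank 6 i = c.γ r i := by rw [hF₁'.bank 6 (by decide)]; exact hγ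
  rw [wp_blk_cons, wp_set]
  refine ⟨by simp [h33]; omega, ?_⟩
  rw [wp_blk_cons]
  refine (pHv_spec hB (x := 50) (by decide) (hP₁.frame (bk_setv _ _ _) (by decide))
    (R := R) hb0 hR hmem.2.1 (by simp [h33, hb2])).call [34, 35, 37] [] false (by decide) ?_
  rintro σ₂ t₂ hF₂ ⟨h34, h35, ht₂⟩
  have hF₂' : Frame [50, 34, 35, 37] [] false σ₁ σ₂ :=
    (hF₂.weaken (by decide) (by decide) id).of_setv (by decide)
  have hP₂ := hP₁.frame hF₂' (by decide)
  have h50 : σ₂.var 50 = bm (c.LU.getD g ∅) := by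
    rw [hF₂.var 50 (by decide)]; simp [h33, hb2]
  have hc0 : σ₂.bank 0 = R := (hF₂'.bank 0 (by decide)).trans hb0
  have hc6 : ∀ i < c.n, σ₂.bank 6 i = c.γ r i := by rw [hF₂'.bank 6 (by decide)]; exact hb6
  have h55 : σ₂.var 55 = g * c.n * 3 := (hF₂'.var 55 (by decide)).trans hI₁.1
  have hI₂ : LInv c R r (g * c.n * 3) σ₂ := by
    unfold LInv
    rw [hF₂'.bank 8 (by decide), hF₂'.bank 9 (by decide), hF₂'.bank 10 (by decide),
      hF₂'.bank 11 (by decide)]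
    exact hI₁.2
  have h3 := hR (c.q + 1) (by omega)
  have h6 := c.Hn_lt R (c.LU.getD g ∅)
  have hcard := hmem.2.2
  have key : ∀ v, v = (if (c.LU.getD g ∅).card = c.l2 then 0 else c.M) →
      WP E (blk [forL 53 1 (forL 54 25 pListIn)])
        (fun σ' t' => (((σ'.setv 33 (g + 1)).var 55 = (g + 1) * c.n * 3 ∧
          LInv c R r ((g + 1) * c.n * 3) (σ'.setv 33 (g + 1))) ∧
          t' ≤ t₁ + (c.tHv + c.n * 28 + 6)))
        ((σ₂.setv 36 (R (c.q + 1) + c.Hn R (c.LU.getD g ∅))).setv 57 v) (t₂ + 1 + 1 + 1) := by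
    intro v hv
    rw [wp_blk_cons]
    refine (pListRow_spec hB ((hP₂.frame (bk_setv _ _ _) (by decide)).frame
      (bk_setv _ _ _) (by decide)) (R := R) (r := r) hR hc6 hg (by simp [h50]) (by simp)
      (by simp [hv]) (by simp [h55]) hI₂).mono fun σ' t' h => ?_
    rw [wp_blk_nil]
    exact ⟨⟨by simp [h.1], h.2.1⟩, by omega⟩
  rw [wp_blk_cons, wp_set]
  refine ⟨by simp [hP₂.q, hc0, h34, -List.getD_eq_getElem?_getD]; omega, ?_⟩
  have e36 : (eadd (.ld 0 (einc 3)) (.v 34)).eval E σ₂ =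
      R (c.q + 1) + c.Hn R (c.LU.getD g ∅) := by simp [hP₂.q, hc0, h34]
  rw [e36, wp_blk_cons, wp_ite]
  refine ⟨by simp [h35, hP₂.l2, -List.getD_eq_getElem?_getD]; omega, fun hc => ?_, fun hc => ?_⟩
  · have h : (c.LU.getD g ∅).card = c.l2 := by
      by_contra h
      have h' : ¬ c.l2 < (c.LU.getD g ∅).card + 1 := by omega
      apply hc
      simp only [Expr.eval, BOp.eval, St.setv_var, h35, hP₂.l2, h', Nat.reduceEqDiff, if_false,
        Nat.and_zero]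
    rw [wp_set]
    exact ⟨by simp; omega, key _ (by rw [if_pos h]; rfl)⟩
  · have h : (c.LU.getD g ∅).card ≠ c.l2 := by
      intro h
      simp only [Expr.eval, BOp.eval, St.setv_var, h35, hP₂.l2, h, Nat.reduceEqDiff, if_false,
        Nat.lt_add_one, if_true] at hc
      exact absurd hc (by decide)
    rw [wp_set]
    exact ⟨by simp, key _ (by rw [if_neg h]; simp [hP₂.M])⟩

end Pool.Agent.P.MP_8f87b2_lc.S2
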