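import Pool.Agent.P.MP_8f87b2_lc.S2.Sound

/-!
# Completeness of the test
-/

namespace Pool.Agent.P.MP_8f87b2_lc.S2

open Finset

variable {E : Env} {c : Cx}

namespace CompleteP

variable {R : ℕ → ℕ} {Rz : ℕ → ZMod c.M}

theorem q1_le : c.q1 ≤ c.q := by unfold Cx.q1 Cx.q; omega

theorem low {w : Finset ℕ} (h : w ⊆ range c.q1) : w ⊆ range c.q :=
  h.trans (range_subset_range.mpr q1_le)

theorem upp {w : Finset ℕ} (h : w ⊆ Ico c.q1 c.q) : w ⊆ range c.q :=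
  fun _ ha => mem_range.mpr (mem_Ico.mp (h ha)).2

theorem qn_lt (R : ℕ → ℕ) (w : Finset ℕ) : c.qn R w < c.M := Nat.mod_lt _ c.M_pos

theorem cast_sub_Hn (hR : ∀ i < c.nR, (R i : ZMod c.M) = Rz i) {w : Finset ℕ} (hw : w ⊆ range c.q) :
    (c.Hn R w : ZMod c.M) = Hs Rz w := by
  rw [Cx.Hn, ZMod.natCast_mod, Hs, Hs, Nat.cast_sum]
  refine sum_congr rfl fun t ht => hR _ ?_
  have := mem_range.mp (hw ht)
  unfold Cx.nR
  omega

theorem key_sub (hR : ∀ i < c.nR, (R i : ZMod c.M) = Rz i) {o : ℕ} (ho : o < c.nR)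
    {w : Finset ℕ} (hw : w ⊆ range c.q) (r a : ℕ) :
    c.γ r a = (R o + c.Hn R w) % c.M ↔ ks o w Rz = gz c.M c.V r c.x a := by
  rw [ks, ← hR _ ho, ← cast_sub_Hn hR hw, ← Nat.cast_add, gz,
    ZMod.natCast_eq_natCast_iff', Nat.mod_eq_of_lt (gam_lt c.M_pos c.V_pos _ _), eq_comm]
  rfl

theorem need_sub (hR : ∀ i < c.nR, (R i : ZMod c.M) = Rz i) (hlt : ∀ i < c.nR, R i < c.M)
    {w : Finset ℕ} (hw : w ⊆ range c.q1) {m : ℕ} (h1 : c.Tg m ⊆ Ico c.q1 c.q)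
    (h2 : (c.Tg m).card = c.l2) (r : ℕ) : c.vn R r m = c.qn R w ↔
      need c.q (gz c.M c.V r c.x) (w ∪ c.Tg m, c.ei m, m % 3) Rz := by
  have a1 := hlt c.q (by unfold Cx.nR; omega)
  have a2 := c.Hn_lt R w
  rw [Cx.vn, if_pos h2, add_zero, Cx.qn, ← ZMod.natCast_eq_natCast_iff', Nat.cast_sub (by omega)]
  push_cast
  rw [ZMod.natCast_self, cast_sub_Hn hR (upp h1), cast_sub_Hn hR (low hw), hR _ (by unfold Cx.nR; omega),
    hR _ (by unfold Cx.nR; omega)]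
  simp only [need, ks, gz, Cx.γ, mul_zero, zero_sub, Hs_union _ (disj_parts hw h1)]
  exact ⟨fun h => by linear_combination h, fun h => by linear_combination h⟩

end CompleteP

open CompleteP

theorem cum_le {R : ℕ → ℕ} {Rz : ℕ → ZMod c.M} (hR : ∀ i < c.nR, (R i : ZMod c.M) = Rz i)
    (hlt : ∀ i < c.nR, R i < c.M) (r : ℕ) :
    c.cum R r c.LG.length ≤ nneed c.q c.O c.n (gz c.M c.V r c.x) Rz := by
  classical
  have h1 : c.cum R r c.LG.length = ((range c.LG.length ×ˢ range (c.G * c.n * 3)).filter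
      fun p => c.isQ (c.LG.getD p.1 ∅) ∧ c.vn R r p.2 = c.qn R (c.LG.getD p.1 ∅)).card := by
    rw [card_filter, sum_product, Cx.cum]
    refine sum_congr rfl fun a _ => ?_
    rw [Cx.qw, Cx.qlen, length_Lst, card_filter]
    split_ifs with h <;> simp only [h, true_and, false_and, if_false, sum_const_zero]
  rw [h1, nneed]
  refine card_le_card_of_injOn
    (fun p => (c.LG.getD p.1 ∅ ∪ c.Tg p.2, c.ei p.2, p.2 % 3)) ?_ ?_
  · rintro ⟨a, m⟩ hq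
    simp only [coe_filter, mem_product, mem_range, Set.mem_ofPred_eq] at hq
    obtain ⟨⟨-, hm⟩, hw, hq⟩ := hq
    obtain ⟨b1, -, b3, b4⟩ := Tg_of_vn hm (hq ▸ qn_lt R _)
    simp only [coe_filter, Nd, mem_product, mem_range, Set.mem_ofPred_eq]
    exact ⟨⟨mem_O.mpr ⟨_, _, hw, b3, b4, rfl⟩, b1, Nat.mod_lt _ (by norm_num)⟩,
      (need_sub hR hlt hw.2 b3 b4 r).mp hq⟩
  · rintro ⟨a, m⟩ hq ⟨a', m'⟩ hq' h
    simp only [coe_filter, mem_product, mem_range, Set.mem_ofPred_eq] at hq hq'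
    obtain ⟨⟨ha, hm⟩, hw, hq⟩ := hq
    obtain ⟨⟨ha', hm'⟩, hw', hq'⟩ := hq'
    obtain ⟨-, b2, b3, -⟩ := Tg_of_vn hm (hq ▸ qn_lt R _)
    obtain ⟨-, b2', b3', -⟩ := Tg_of_vn hm' (hq' ▸ qn_lt R _)
    simp only [Prod.mk.injEq] at h ⊢
    obtain ⟨h1, h4, h5⟩ := h
    obtain ⟨e1, e2⟩ := parts_inj hw.2 b3 hw'.2 b3' h1
    refine ⟨subs_getD_inj ha ha' e1, ?_⟩
    have h3 : c.eg m = c.eg m' := subs_getD_inj b2 b2' e2
    unfold Cx.eg at h3
    unfold Cx.ei at h4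
    have a := Nat.div_add_mod (m / 3) c.n
    have b := Nat.div_add_mod (m' / 3) c.n
    rw [h3, h4] at a
    omega

theorem complete {R : ℕ → ℕ} {Rz : ℕ → ZMod c.M} (hR : ∀ i < c.nR, (R i : ZMod c.M) = Rz i)
    (hS : Sz c) (hx : ∀ i < c.n, 4 * |c.x i| ≤ c.V)
    (hlt : ∀ i < c.nR, R i < c.M) {r u ia ib ic : ℕ} (ha : ia < c.n) (hb : ib < c.n)
    (hc : ic < c.n) (h0 : c.x ia + c.x ib + c.x ic = 0) (ca : ¬ c.isC u ia) (cb : ¬ c.isC u ib)
    (cc : c.isC u ic) (sa : side u ia = 0) (sb : side u ib = 1)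
    (hG : Good c.q c.h c.O c.n c.Cn (gz c.M c.V r c.x) c.x ia ib Rz) :
    c.cum R r c.LG.length ≤ c.Cn ∧ ∃ w, c.isQ w ∧ c.Hit R r u w := by
  obtain ⟨⟨⟨e, S⟩, he, hcov, hcl⟩, hB⟩ := hG
  refine ⟨(cum_le hR hlt r).trans hB, ?_⟩
  simp only [mem_Ev] at he
  obtain ⟨he, hS1, hS2⟩ := he
  have hq := (O_ok c).sub e he
  have n0 : c.q < c.nR := by unfold Cx.nR; omega
  have n1 : c.q + 1 < c.nR := by unfold Cx.nR; omega
  obtain ⟨w, T, hw, hT, hT2, hE⟩ := mem_O.mp he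
  obtain ⟨g, hg, hgT⟩ := exists_getD (L := c.LU) (x := T) ∅
    (mem_subs.mpr ⟨hT, upp hT, hT2.le⟩)
  obtain ⟨κ, hκ, hsum⟩ := gam_sum c.M_pos c.V_pos r h0
  have e1 : ((g * c.n + ic) * 3 + κ) / 3 = g * c.n + ic := by omega
  have eg : c.Tg ((g * c.n + ic) * 3 + κ) = T := by
    rw [Cx.Tg, Cx.eg, e1, add_comm, Nat.add_mul_div_right _ _ (by omega), Nat.div_eq_of_lt hc,
      zero_add, hgT]
  have ei : c.ei ((g * c.n + ic) * 3 + κ) = ic := by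
    rw [Cx.ei, e1, add_comm, Nat.add_mul_mod_self_right, Nat.mod_eq_of_lt hc]
  have h1 : g * c.n + ic < c.G * c.n := mul_add_lt hg hc
  refine ⟨w, hw, (g * c.n + ic) * 3 + κ, by omega, ?_, by rwa [ei], ?_⟩
  · rw [need_sub hR hlt hw.2 (by rwa [eg]) (by rwa [eg]), eg, ei,
      show ((g * c.n + ic) * 3 + κ) % 3 = κ by omega, ← hE]
    have := cov_total hS1 hcov
    simp only [need, gz] at this ⊢
    linear_combination hsum - this
  · rw [eg, ei, ← hE, test_iff hS hx R r u he hc]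
    refine ⟨⟨(S, ia, ib), ?_⟩, fun p hp => ?_⟩
    · simp only [Cx.coll, mem_filter, mem_product, mem_range, mem_powersetCard, sa, sb]
      refine ⟨⟨⟨hS1, hS2⟩, ha, hb⟩, ⟨ca, ?_⟩, cb, ?_⟩
      · rw [zero_mul, add_zero, key_sub hR n0 (hS1.trans hq)]; exact hcov.1
      · rw [one_mul, Nat.add_right_cancel_iff, key_sub hR n1 (sdiff_subset.trans hq)]
        exact hcov.2
    · simp only [Cx.coll, mem_filter, mem_product, mem_range] at hp
      obtain ⟨⟨q1, q2, q3⟩, ⟨-, a2⟩, -, b2⟩ := hp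
      have m1 := Nat.mod_lt (R c.q + c.Hn R p.1) c.M_pos
      have m2 := c.γ_lt r p.2.2
      have m3 := Nat.mod_lt (R (c.q + 1) + c.Hn R (e \ p.1)) c.M_pos
      have k1 : c.γ r p.2.1 = (R c.q + c.Hn R p.1) % c.M := by
        rcases side_le u p.2.1 with h | h <;> rw [h] at a2 <;> omega
      have k2 : c.γ r p.2.2 = (R (c.q + 1) + c.Hn R (e \ p.1)) % c.M := by
        rcases side_le u p.2.2 with h | h <;> rw [h] at b2 <;> omega
      rw [hcl _ q2 _ q3 _ q1 ⟨(key_sub hR n0 ((mem_powersetCard.mp q1).1.trans hq) _ _).mp k1,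
        (key_sub hR n1 (sdiff_subset.trans hq) _ _).mp k2⟩, h0]

end Pool.Agent.P.MP_8f87b2_lc.S2
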