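import Pool.Agent.P.MP_8f87b2_lc.Prob
import Pool.Agent.P.MP_8f87b2_lc.S2.Sets

/-!
# The probability that a fixed solution is covered by a clean output
-/

namespace Pool.Agent.P.MP_8f87b2_lc.S2

open Finset

/-- the random value of a set -/
def Hs {α : Type*} [AddCommMonoid α] (R : ℕ → α) (w : Finset ℕ) : α := ∑ i ∈ w, R i

theorem Hs_split {α : Type*} [AddCommMonoid α] (R : ℕ → α) {e u : Finset ℕ} (h : u ⊆ e) :
    Hs R u + Hs R (e \ u) = Hs R e := by
  rw [add_comm]; exact sum_sdiff h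

theorem Hs_union {α : Type*} [AddCommMonoid α] (R : ℕ → α) {S T : Finset ℕ} (h : Disjoint S T) :
    Hs R (S ∪ T) = Hs R S + Hs R T := sum_union h

variable {M : ℕ} [NeZero M]

omit [NeZero M] in
theorem Hs_update (R : ℕ → ZMod M) (w : Finset ℕ) (i : ℕ) (v : ZMod M) :
    Hs (Function.update R i v) w = Hs R w + if i ∈ w then v - R i else 0 := by
  unfold Hs
  split_ifs with h
  · rw [sum_update_of_mem h, ← add_sum_erase _ _ h, sdiff_singleton_eq_erase]; ring
  · rw [sum_update_of_notMem h, add_zero]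

/-- the value of a key: an offset and a set -/
def ks (o : ℕ) (w : Finset ℕ) (R : ℕ → ZMod M) : ZMod M := R o + Hs R w

/-- the difference of the values of two sets -/
def kd (u u' : Finset ℕ) (R : ℕ → ZMod M) : ZMod M := Hs R u - Hs R u'

section forms

omit [NeZero M]

theorem ks_lin_off {o : ℕ} {w : Finset ℕ} (h : o ∉ w) : Lin (M := M) o (ks o w) := fun R v => by
  unfold ks
  rw [Function.update_self, Hs_update, if_neg h]; ring

theorem ks_con {o i : ℕ} {w : Finset ℕ} (hi : i ≠ o) (h : i ∉ w) : Con (M := M) i (ks o w) :=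
  fun R v => by
    unfold ks
    rw [Function.update_of_ne hi.symm, Hs_update, if_neg h, add_zero]

theorem kd_lin {i : ℕ} {u u' : Finset ℕ} (h : i ∈ u) (h' : i ∉ u') : Lin (M := M) i (kd u u') :=
  fun R v => by
    unfold kd
    rw [Hs_update, Hs_update, if_pos h, if_neg h']; ring

theorem kd_con {i : ℕ} {u u' : Finset ℕ} (h : i ∈ u ↔ i ∈ u') : Con (M := M) i (kd u u') :=
  fun R v => by
    unfold kd
    rw [Hs_update, Hs_update]
    by_cases hi : i ∈ u
    · rw [if_pos hi, if_pos (h.mp hi)]; ring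
    · rw [if_neg hi, if_neg fun h' => hi (h.mpr h')]; ring

end forms

section counts

variable {q : ℕ}

theorem notMem_off {w : Finset ℕ} (hw : w ⊆ range q) {o : ℕ} (ho : q ≤ o) : o ∉ w :=
  fun h => by have := mem_range.mp (hw h); omega

/-- adding the two offset equations to a system that does not see the offsets -/
theorem num_offs {P : (ℕ → ZMod M) → Prop} (h1 : Indep q P) (h2 : Indep (q + 1) P)
    {u v : Finset ℕ} (hu : u ⊆ range q) (hv : v ⊆ range q) (α β : ZMod M) :
    num (q + 2) (fun R => (P R ∧ ks q u R = α) ∧ ks (q + 1) v R = β) * M ^ 2 = num (q + 2) P := by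
  rw [← num_step (i := q) (by omega) h1 (ks_lin_off (notMem_off hu le_rfl)) α, pow_two,
    ← mul_assoc]
  congr 1
  exact num_step (i := q + 1) (by omega)
    (h2.and ((ks_con (by omega) (notMem_off hu (by omega))).indep α))
    (ks_lin_off (notMem_off hv (by omega))) β

omit [NeZero M] in
theorem kd_indep {u u' : Finset ℕ} (hu : u ⊆ range q) (hu' : u' ⊆ range q) {o : ℕ} (ho : q ≤ o)
    (δ : ZMod M) : Indep o fun R => kd u u' R = δ :=
  (kd_con (iff_of_false (notMem_off hu ho) (notMem_off hu' ho))).indep δ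

/-- one more equation in a difference whose sets differ at a place the rest does not see -/
theorem num_kd {P : (ℕ → ZMod M) → Prop} {u u' : Finset ℕ} {i : ℕ} (hi : i < q)
    (h : ¬ (i ∈ u ↔ i ∈ u')) (hP : Indep i P) (δ : ZMod M) :
    num (q + 2) (fun R => P R ∧ kd u u' R = δ) * M = num (q + 2) P := by
  by_cases h1 : i ∈ u
  · exact num_step (by omega) hP (kd_lin h1 fun h2 => h (iff_of_true h1 h2)) δ
  · have h2 : i ∈ u' := by tauto
    rw [← num_step (nR := q + 2) (by omega) hP (kd_lin h2 h1) (-δ)]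
    congr 1
    refine num_congr fun R => and_congr_right fun _ => ?_
    unfold kd
    constructor <;> intro h <;> linear_combination -h

theorem exists_diff {u u' : Finset ℕ} (hu : u ⊆ range q) (hu' : u' ⊆ range q) (h : u ≠ u') :
    ∃ i < q, ¬ (i ∈ u ↔ i ∈ u') := by
  by_contra hc
  push Not at hc
  refine h (Finset.ext fun i => ?_)
  by_cases hi : i < q
  · exact hc i hi
  · exact iff_of_false (notMem_off hu (by omega)) (notMem_off hu' (by omega))

theorem num_kd_one {u u' : Finset ℕ} (hu : u ⊆ range q) (hu' : u' ⊆ range q) (h : u ≠ u')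
    (δ : ZMod M) : num (q + 2) (fun R => kd u u' R = δ) * M = M ^ (q + 2) := by
  obtain ⟨i, hi, hd⟩ := exists_diff hu hu' h
  rw [← num_true (M := M), ← num_kd hi hd (P := fun _ => True) (fun _ _ => Iff.rfl) δ]
  simp

theorem num_two {u v : Finset ℕ} (hu : u ⊆ range q) (hv : v ⊆ range q) (α β : ZMod M) :
    num (q + 2) (fun R => ks q u R = α ∧ ks (q + 1) v R = β) * M ^ 2 = M ^ (q + 2) := by
  rw [← num_true (M := M) (nR := q + 2), ← num_offs (P := fun _ => True) (fun _ _ => Iff.rfl)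
    (fun _ _ => Iff.rfl) hu hv α β]
  simp

theorem num_three {u v a a' : Finset ℕ} (hu : u ⊆ range q) (hv : v ⊆ range q)
    (ha : a ⊆ range q) (ha' : a' ⊆ range q) (h : a ≠ a') (α β δ : ZMod M) :
    num (q + 2) (fun R => (kd a a' R = δ ∧ ks q u R = α) ∧ ks (q + 1) v R = β) * M ^ 3 =
      M ^ (q + 2) := by
  rw [← num_kd_one ha ha' h δ, ← num_offs (kd_indep ha ha' le_rfl δ)
    (kd_indep ha ha' (by omega) δ) hu hv α β]
  ring

theorem num_four {u v a a' b b' : Finset ℕ} (hu : u ⊆ range q) (hv : v ⊆ range q)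
    (ha : a ⊆ range q) (ha' : a' ⊆ range q) (hb : b ⊆ range q) (hb' : b' ⊆ range q) (h : a ≠ a')
    {i : ℕ} (hi : i < q) (h1 : i ∈ a ↔ i ∈ a') (h2 : ¬ (i ∈ b ↔ i ∈ b')) (α β : ZMod M) :
    num (q + 2) (fun R => ((kd a a' R = 0 ∧ kd b b' R = 0) ∧ ks q u R = α) ∧
      ks (q + 1) v R = β) * M ^ 4 = M ^ (q + 2) := by
  rw [← num_kd_one ha ha' h 0, ← num_kd hi h2 ((kd_con h1).indep 0) 0,
    ← num_offs ((kd_indep ha ha' le_rfl 0).and (kd_indep hb hb' le_rfl 0))
      ((kd_indep ha ha' (by omega) 0).and (kd_indep hb hb' (by omega) 0)) hu hv α β]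
  ring

end counts

/-- a family of outputs: subsets of the ground set with `2 h` elements -/
structure OOK (q h : ℕ) (O : Finset (Finset ℕ)) : Prop where
  sub : ∀ e ∈ O, e ⊆ range q
  card : ∀ e ∈ O, e.card = 2 * h

abbrev Evt := (_ : Finset ℕ) × Finset ℕ

def Ev (h : ℕ) (O : Finset (Finset ℕ)) : Finset Evt := O.sigma fun e => powersetCard h e

theorem mem_Ev {h : ℕ} {O : Finset (Finset ℕ)} {p : Evt} :
    p ∈ Ev h O ↔ p.1 ∈ O ∧ p.2 ⊆ p.1 ∧ p.2.card = h := by
  simp [Ev, mem_powersetCard]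

theorem card_Ev {q h : ℕ} {O : Finset (Finset ℕ)} (hO : OOK q h O) :
    (Ev h O).card = O.card * (2 * h).choose h := by
  rw [Ev, card_sigma, sum_congr rfl fun e he => by rw [card_powersetCard, hO.card e he]]
  simp

def cov (q : ℕ) (α β : ZMod M) (p : Evt) (R : ℕ → ZMod M) : Prop :=
  ks q p.2 R = α ∧ ks (q + 1) (p.1 \ p.2) R = β

section cover

variable {q h : ℕ} {O : Finset (Finset ℕ)} (hO : OOK q h O) (α β : ZMod M)

include hO

theorem num_cov {p : Evt} (hp : p ∈ Ev h O) :
    (num (q + 2) (cov q α β p) : ℝ) = (M : ℝ) ^ (q + 2) / M ^ 2 := by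
  rw [mem_Ev] at hp
  have := hO.sub _ hp.1
  exact num_le_div (num_two (hp.2.1.trans this) (sdiff_subset.trans this) α β)

/-- pairs of events that are not in general position -/
def Near (p p' : Evt) : Prop := p'.2 = p.2 ∨ p'.1 \ p'.2 = p.1 \ p.2 ∨ p'.1 = p.1

theorem num_cov_three {p p' : Evt} (hp : p ∈ Ev h O) (hp' : p' ∈ Ev h O) (hne : p' ≠ p) :
    (num (q + 2) fun R => cov q α β p R ∧ cov q α β p' R : ℝ) ≤ (M : ℝ) ^ (q + 2) / M ^ 3 := by
  obtain ⟨e, u⟩ := p
  obtain ⟨e', u'⟩ := p'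
  simp only [mem_Ev] at hp hp'
  have he := hO.sub _ hp.1
  have he' := hO.sub _ hp'.1
  by_cases h1 : u = u'
  · subst h1
    have h2 : e \ u ≠ e' \ u := fun h => hne (by
      rw [← union_sdiff_of_subset hp.2.1, ← union_sdiff_of_subset hp'.2.1, h])
    rw [← num_le_div (num_three (hp.2.1.trans he) (sdiff_subset.trans he) (sdiff_subset.trans he)
      (sdiff_subset.trans he') h2 α β 0)]
    refine Nat.cast_le.mpr <| num_mono fun R hR => ⟨⟨?_, hR.1.1⟩, hR.1.2⟩
    have a := hR.1.2
    have b := hR.2.2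
    unfold ks at a b
    unfold kd
    linear_combination a - b
  · rw [← num_le_div (num_three (hp.2.1.trans he) (sdiff_subset.trans he) (hp.2.1.trans he)
      (hp'.2.1.trans he') h1 α β 0)]
    refine Nat.cast_le.mpr <| num_mono fun R hR => ⟨⟨?_, hR.1.1⟩, hR.1.2⟩
    have a := hR.1.1
    have b := hR.2.1
    unfold ks at a b
    unfold kd
    linear_combination a - b

theorem num_cov_four {p p' : Evt} (hp : p ∈ Ev h O) (hp' : p' ∈ Ev h O) (hne : ¬ Near p p') :
    (num (q + 2) fun R => cov q α β p R ∧ cov q α β p' R : ℝ) ≤ (M : ℝ) ^ (q + 2) / M ^ 4 := by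
  obtain ⟨e, u⟩ := p
  obtain ⟨e', u'⟩ := p'
  simp only [mem_Ev] at hp hp'
  simp only [Near, not_or] at hne
  obtain ⟨n1, n2, n3⟩ := hne
  have he := hO.sub _ hp.1
  have he' := hO.sub _ hp'.1
  have hu := hp.2.1.trans he
  have hu' := hp'.2.1.trans he'
  have hv : e \ u ⊆ range q := sdiff_subset.trans he
  have hv' : e' \ u' ⊆ range q := sdiff_subset.trans he'
  have z : ∀ R : ℕ → ZMod M, cov q α β ⟨e, u⟩ R ∧ cov q α β ⟨e', u'⟩ R →
      kd u u' R = 0 ∧ kd (e \ u) (e' \ u') R = 0 := by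
    rintro R ⟨⟨a1, a2⟩, b1, b2⟩
    unfold ks at a1 a2 b1 b2
    unfold kd
    exact ⟨by linear_combination a1 - b1, by linear_combination a2 - b2⟩
  obtain ⟨i, hi, hd⟩ := exists_diff he he' (Ne.symm n3)
  have k1 : i ∈ u → i ∈ e := fun h => hp.2.1 h
  have k2 : i ∈ u' → i ∈ e' := fun h => hp'.2.1 h
  by_cases c : i ∈ u ↔ i ∈ u'
  · rw [← num_le_div (num_four hu hv hu hu' hv hv' (Ne.symm n1) hi c
      (by simp only [mem_sdiff]; tauto) α β)]
    exact Nat.cast_le.mpr <| num_mono fun R hR => ⟨⟨z R hR, hR.1.1⟩, hR.1.2⟩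
  · rw [← num_le_div (num_four hu hv hv hv' hu hu' (Ne.symm n2) hi
      (by simp only [mem_sdiff]; tauto) c α β)]
    exact Nat.cast_le.mpr <| num_mono fun R hR => ⟨⟨(z R hR).symm, hR.1.1⟩, hR.1.2⟩

omit [NeZero M] in
open Classical in
theorem card_near {p : Evt} (hp : p ∈ Ev h O) :
    ((Ev h O).filter (Near p)).card ≤ 2 * (q - h).choose h + (2 * h).choose h := by
  obtain ⟨e, u⟩ := p
  simp only [mem_Ev] at hp
  have he := hO.sub _ hp.1
  have hc := hO.card _ hp.1
  have sub : (Ev h O).filter (Near ⟨e, u⟩) ⊆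
      ((powersetCard h (range q \ u)).image fun v => (⟨u ∪ v, u⟩ : Evt)) ∪
      (((powersetCard h (range q \ (e \ u))).image fun v => (⟨v ∪ (e \ u), v⟩ : Evt)) ∪
      ((powersetCard h e).image fun v => (⟨e, v⟩ : Evt))) := by
    rintro ⟨e', u'⟩ hx
    simp only [mem_filter, mem_Ev, Near] at hx
    simp only [mem_union, mem_image, mem_powersetCard]
    obtain ⟨hp', h1 | h1 | h1⟩ := hx
    · subst h1
      refine Or.inl ⟨e' \ u', ⟨sdiff_subset_sdiff (hO.sub _ hp'.1) Subset.rfl, ?_⟩, ?_⟩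
      · rw [card_sdiff_of_subset hp'.2.1, hO.card _ hp'.1]; omega
      · rw [union_sdiff_of_subset hp'.2.1]
    · refine Or.inr (Or.inl ⟨u', ⟨?_, hp'.2.2⟩, ?_⟩)
      · rw [← h1, subset_sdiff]
        exact ⟨hp'.2.1.trans (hO.sub _ hp'.1), disjoint_sdiff⟩
      · rw [← h1, union_sdiff_of_subset hp'.2.1]
    · subst h1
      exact Or.inr (Or.inr ⟨u', hp'.2, rfl⟩)
  refine (card_le_card sub).trans ((card_union_le _ _).trans ?_)
  refine (Nat.add_le_add_left (card_union_le _ _) _).trans ?_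
  have c1 := card_image_le (s := powersetCard h (range q \ u))
    (f := fun v => (⟨u ∪ v, u⟩ : Evt))
  have c2 := card_image_le (s := powersetCard h (range q \ (e \ u)))
    (f := fun v => (⟨v ∪ (e \ u), v⟩ : Evt))
  have c3 := card_image_le (s := powersetCard h e) (f := fun v => (⟨e, v⟩ : Evt))
  rw [card_powersetCard, card_sdiff_of_subset (hp.2.1.trans he), card_range, hp.2.2] at c1
  rw [card_powersetCard, card_sdiff_of_subset (sdiff_subset.trans he), card_range,
    card_sdiff_of_subset hp.2.1, hc, hp.2.2, show 2 * h - h = h by omega] at c2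
  rw [card_powersetCard, hc] at c3
  omega

theorem num_uncovered (hρ : 2 * (q - h).choose h + (2 * h).choose h ≤ M)
    (hμ : 100 * M ^ 2 ≤ (Ev h O).card) :
    50 * (num (q + 2) fun R => ∀ e ∈ Ev h O, ¬ cov q α β e R : ℝ) ≤ (M : ℝ) ^ (q + 2) := by
  classical
  have hM : (0 : ℝ) < M := by exact_mod_cast Nat.pos_of_ne_zero (NeZero.ne M)
  set Z : ℝ := (M : ℝ) ^ (q + 2) with hZ
  have hZ0 : 0 < Z := by positivity
  have hμ' : (100 : ℝ) ≤ (Ev h O).card * (1 / M ^ 2) := by
    rw [mul_one_div, le_div_iff₀ (by positivity)]; exact_mod_cast hμ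
  have key := num_none (nR := q + 2) (Ev h O) (cov q α β) (1 / M ^ 2) 2
    (by linarith) (fun e he => by rw [num_cov hO α β he]; ring) (fun e he => by
      have b : ∀ e' ∈ Ev h O,
          (num (q + 2) fun R => cov q α β e R ∧ cov q α β e' R : ℝ) ≤
          (if e' = e then Z / M ^ 2 else 0) + (if Near e e' then Z / M ^ 3 else 0) +
            Z / M ^ 4 := by
        intro e' he'
        have p3 : 0 ≤ Z / M ^ 3 := by positivity
        have p4 : 0 ≤ Z / M ^ 4 := by positivity
        by_cases h1 : e' = e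
        · subst h1
          rw [if_pos rfl, num_congr (Q := cov q α β e') fun R => and_self_iff,
            num_cov hO α β he]
          split_ifs <;> linarith
        · rw [if_neg h1]
          by_cases h2 : Near e e'
          · rw [if_pos h2]; have := num_cov_three hO α β he he' h1; linarith
          · rw [if_neg h2]; have := num_cov_four hO α β he he' h2; linarith
      refine (sum_le_sum b).trans ?_
      rw [sum_add_distrib, sum_add_distrib, sum_ite_eq' _ e, if_pos he, ← sum_filter, sum_const,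
        sum_const, nsmul_eq_mul, nsmul_eq_mul]
      have c : (((Ev h O).filter (Near e)).card : ℝ) ≤ M := by
        exact_mod_cast (card_near hO he).trans hρ
      have c2 : (((Ev h O).filter (Near e)).card : ℝ) * (Z / M ^ 3) ≤ Z / M ^ 2 := by
        refine (mul_le_mul_of_nonneg_right c (by positivity)).trans (le_of_eq ?_)
        field_simp
      have c3 : (2 + ((Ev h O).card : ℝ) * (1 / M ^ 2)) * (1 / M ^ 2) * Z =
          Z / M ^ 2 + Z / M ^ 2 + (Ev h O).card * (Z / M ^ 4) := by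
        field_simp; ring
      rw [c3]; linarith)
  have h0 : (0 : ℝ) ≤ (num (q + 2) fun R => ∀ e ∈ Ev h O, ¬ cov q α β e R : ℝ) :=
    Nat.cast_nonneg _
  nlinarith

end cover

/-- the index set of potential needed outputs: `e, i, κ` -/
def Nd (O : Finset (Finset ℕ)) (n : ℕ) : Finset (Finset ℕ × ℕ × ℕ) := O ×ˢ range n ×ˢ range 3

def need (q : ℕ) (γ : ℕ → ZMod M) (e : Finset ℕ × ℕ × ℕ) (R : ℕ → ZMod M) : Prop :=
  ks q e.1 R + R (q + 1) + γ e.2.1 + e.2.2 = 0

open Classical in
/-- the number of needed outputs -/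
noncomputable def nneed (q : ℕ) (O : Finset (Finset ℕ)) (n : ℕ) (γ : ℕ → ZMod M)
    (R : ℕ → ZMod M) : ℕ :=
  ((Nd O n).filter fun e => need q γ e R).card

variable {q h : ℕ} {O : Finset (Finset ℕ)}

theorem num_need (hO : OOK q h O) {n : ℕ} (γ : ℕ → ZMod M) {e : Finset ℕ × ℕ × ℕ}
    (he : e ∈ Nd O n) : num (q + 2) (need q γ e) * M = M ^ (q + 2) := by
  obtain ⟨e, i, κ⟩ := e
  simp only [Nd, mem_product, mem_range] at he
  rw [← num_true (M := M), ← num_step (i := q) (by omega) (P := fun _ => True)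
    (φ := fun R => ks q e R + R (q + 1)) (fun _ _ => Iff.rfl)
    (fun R v => by
      simp only
      rw [ks_lin_off (notMem_off (hO.sub _ he.1) le_rfl) R v,
        Function.update_of_ne (by omega)]; ring)
    (-(γ i + (κ : ZMod M)))]
  congr 1
  refine num_congr fun R => ?_
  simp only [need, true_and]
  constructor <;> intro h <;> linear_combination h

theorem num_overflow (hO : OOK q h O) {n Cn : ℕ} (γ : ℕ → ZMod M)
    (hB : 60 * n * O.card ≤ Cn * M) (hB0 : 0 < Cn) :
    20 * num (q + 2) (fun R => Cn < nneed q O n γ R) ≤ M ^ (q + 2) := by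
  have hM : 0 < M := Nat.pos_of_ne_zero (NeZero.ne M)
  have h := num_markov (nR := q + 2) (Nd O n) (need q γ) M (Cn * M)
  rw [sum_mul, sum_congr rfl fun e he => num_need hO γ he, sum_const, smul_eq_mul] at h
  have hc : (Nd O n).card * 20 = 60 * n * O.card := by
    simp [Nd]; ring
  have e : num (q + 2) (fun R => Cn < nneed q O n γ R) =
      num (q + 2) (fun R => Cn * M < nneed q O n γ R * M) :=
    num_congr fun R => (Nat.mul_lt_mul_right hM).symm
  refine Nat.le_of_mul_le_mul_right ?_ (Nat.mul_pos hB0 hM)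
  calc 20 * num (q + 2) (fun R => Cn < nneed q O n γ R) * (Cn * M)
      = 20 * (num (q + 2) (fun R => Cn * M < nneed q O n γ R * M) * (Cn * M)) := by rw [e]; ring
    _ ≤ 20 * ((Nd O n).card * M ^ (q + 2)) := Nat.mul_le_mul_left _ h
    _ = M ^ (q + 2) * ((Nd O n).card * 20) := by ring
    _ ≤ _ := Nat.mul_le_mul_left _ (hc ▸ hB)

/-- every collision in the output `e` has the prescribed sum -/
def clean (q h n : ℕ) (γ : ℕ → ZMod M) (x : ℕ → ℤ) (σ : ℤ) (e : Finset ℕ)
    (R : ℕ → ZMod M) : Prop :=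
  ∀ a < n, ∀ b < n, ∀ u ∈ powersetCard h e, cov q (γ a) (γ b) ⟨e, u⟩ R → x a + x b = σ

/-- the good event for the solution pair `ia, ib` -/
def Good (q h : ℕ) (O : Finset (Finset ℕ)) (n Cn : ℕ) (γ : ℕ → ZMod M) (x : ℕ → ℤ) (ia ib : ℕ)
    (R : ℕ → ZMod M) : Prop :=
  (∃ p ∈ Ev h O, cov q (γ ia) (γ ib) p R ∧ clean q h n γ x (x ia + x ib) p.1 R) ∧
    nneed q O n γ R ≤ Cn

omit [NeZero M] in
theorem cov_total {α β : ZMod M} {p : Evt} {R : ℕ → ZMod M} (hp : p.2 ⊆ p.1)
    (h : cov q α β p R) : α + β = ks q p.1 R + R (q + 1) := by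
  rw [← h.1, ← h.2]
  unfold ks
  linear_combination Hs_split R hp

open Classical in
theorem num_bad (hO : OOK q h O) {n Cn : ℕ} (γ : ℕ → ZMod M) (x : ℕ → ℤ) (ia ib : ℕ)
    (hρ : 2 * (q - h).choose h + (2 * h).choose h ≤ M) (hμ : 100 * M ^ 2 ≤ (Ev h O).card)
    (hB : 60 * n * O.card ≤ Cn * M) (hB0 : 0 < Cn) :
    (num (q + 2) fun R => ¬ Good q h O n Cn γ x ia ib R : ℝ) ≤
      (M : ℝ) ^ (q + 2) * ((if bad0 n γ x ia ib then 1 else 0) + 1 / 50 + 1 / 20 +
        (Ev h O).card * (2 * h).choose h / M ^ 3 * (collp n γ x ia ib).card) := by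
  have hM : (0 : ℝ) < M := by exact_mod_cast Nat.pos_of_ne_zero (NeZero.ne M)
  set Z : ℝ := (M : ℝ) ^ (q + 2) with hZ
  have hZ0 : 0 < Z := by positivity
  have p0 : (0 : ℝ) ≤ (Ev h O).card * (2 * h).choose h / M ^ 3 * (collp n γ x ia ib).card := by
    positivity
  split_ifs with h0
  · have : (num (q + 2) fun R => ¬ Good q h O n Cn γ x ia ib R : ℝ) ≤ Z := by
      rw [hZ]; exact_mod_cast (num_mono fun _ _ => trivial).trans num_true.le
    nlinarith
  have sub : ∀ R, ¬ Good q h O n Cn γ x ia ib R →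
      ((∀ e ∈ Ev h O, ¬ cov q (γ ia) (γ ib) e R) ∨ Cn < nneed q O n γ R) ∨
      ∃ e ∈ Ev h O, ∃ p ∈ collp n γ x ia ib, ∃ S ∈ (powersetCard h e.1).erase e.2,
        (kd S e.2 R = γ p.1 - γ ia ∧ ks q e.2 R = γ ia) ∧ ks (q + 1) (e.1 \ e.2) R = γ ib := by
    intro R hR
    by_contra hc
    simp only [not_or, not_forall, not_not, not_lt] at hc
    obtain ⟨⟨⟨e, he, hcov⟩, h3⟩, h2⟩ := hc
    refine hR ⟨⟨e, he, hcov, fun a ha b hb S hS hc' => ?_⟩, h3⟩
    by_contra hne
    by_cases hSe : S = e.2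
    · subst hSe
      have ea : γ a = γ ia := hc'.1.symm.trans hcov.1
      have eb : γ b = γ ib := hc'.2.symm.trans hcov.2
      apply h0
      by_cases hx : x a = x ia
      · exact Or.inr ⟨b, mem_range.mpr hb, fun h => hne (by rw [hx, h]), eb⟩
      · exact Or.inl ⟨a, mem_range.mpr ha, hx, ea⟩
    · refine h2 ⟨e, he, (a, b), ?_, S, mem_erase.mpr ⟨hSe, hS⟩, ⟨?_, hcov.1⟩, hcov.2⟩
      · simp only [collp, mem_filter, mem_product, mem_range]
        exact ⟨⟨ha, hb⟩, hne, (cov_total (mem_powersetCard.mp hS).1 hc').trans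
          (cov_total (mem_Ev.mp he).2.1 hcov).symm⟩
      · have a1 := hc'.1
        have a2 := hcov.1
        unfold ks at a1 a2
        unfold kd
        linear_combination a1 - a2
  have b1 := num_uncovered hO (γ ia) (γ ib) hρ hμ
  have b3 : 20 * (num (q + 2) (fun R => Cn < nneed q O n γ R) : ℝ) ≤ Z := by
    rw [hZ]; exact_mod_cast num_overflow hO γ hB hB0
  have b2 : (num (q + 2) (fun R => ∃ e ∈ Ev h O, ∃ p ∈ collp n γ x ia ib,
      ∃ S ∈ (powersetCard h e.1).erase e.2,
        (kd S e.2 R = γ p.1 - γ ia ∧ ks q e.2 R = γ ia) ∧ ks (q + 1) (e.1 \ e.2) R = γ ib) : ℝ) ≤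
      Z * ((Ev h O).card * (2 * h).choose h / M ^ 3 * (collp n γ x ia ib).card) := by
    refine le_trans (Nat.cast_le.mpr (num_exists _ _)) ?_
    push_cast
    refine (sum_le_card_nsmul _ _ ((collp n γ x ia ib).card * ((2 * h).choose h * (Z / M ^ 3)))
      fun e he => ?_).trans (le_of_eq (by rw [nsmul_eq_mul]; ring))
    refine le_trans (Nat.cast_le.mpr (num_exists _ _)) ?_
    push_cast
    refine (sum_le_card_nsmul _ _ ((2 * h).choose h * (Z / M ^ 3)) fun p _ => ?_).trans
      (le_of_eq (by rw [nsmul_eq_mul]))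
    refine le_trans (Nat.cast_le.mpr (num_exists _ _)) ?_
    push_cast
    rw [mem_Ev] at he
    have he1 := hO.sub _ he.1
    refine (sum_le_card_nsmul _ _ (Z / M ^ 3) fun S hS => ?_).trans ?_
    · have hS' := mem_erase.mp hS
      exact le_of_eq (num_le_div (num_three (he.2.1.trans he1) (sdiff_subset.trans he1)
        ((mem_powersetCard.mp hS'.2).1.trans he1) (he.2.1.trans he1) hS'.1 _ _ _))
    · rw [nsmul_eq_mul]
      refine mul_le_mul_of_nonneg_right ?_ (by positivity)
      exact_mod_cast card_erase_le.trans (by rw [card_powersetCard, hO.card _ he.1])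
  have := Nat.cast_le (α := ℝ).mpr ((num_mono (nR := q + 2) sub).trans
    ((num_or _ _).trans (Nat.add_le_add_right (num_or _ _) _)))
  push_cast at this
  linarith

theorem good_count (hO : OOK q h O) {n Cn V : ℕ} (x : ℕ → ℤ) {ia ib : ℕ} (hia : ia < n)
    (hib : ib < n) (hM2 : 2 ≤ M) (hV : 0 < V) (hx : ∀ i < n, 4 * |x i| ≤ V)
    (hρ : 2 * (q - h).choose h + (2 * h).choose h ≤ M) (hμ : 100 * M ^ 2 ≤ (Ev h O).card)
    (hB : 60 * n * O.card ≤ Cn * M) (hB0 : 0 < Cn) (hA : 2400 * n ≤ M)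
    (hC : 120 * (Ev h O).card * (2 * h).choose h * n ^ 2 ≤ M ^ 4) :
    2 * (M * V * M ^ (q + 2)) ≤
      3 * ∑ r ∈ range (M * V), num (q + 2) (Good q h O n Cn (gz M V r x) x ia ib) := by
  classical
  have hM : (0 : ℝ) < M := by exact_mod_cast Nat.pos_of_ne_zero (NeZero.ne M)
  have hV' : (0 : ℝ) < V := by exact_mod_cast hV
  set Z : ℝ := (M : ℝ) ^ (q + 2) with hZ
  have hZ0 : 0 < Z := by positivity
  have habs : ∀ a < n, ∀ b < n, |x a + x b - x ia - x ib| ≤ V := by
    intro a ha b hb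
    have := hx a ha
    have := hx b hb
    have := hx ia hia
    have := hx ib hib
    have := abs_le.mp (le_refl |x a|)
    have := abs_le.mp (le_refl |x b|)
    have := abs_le.mp (le_refl |x ia|)
    have := abs_le.mp (le_refl |x ib|)
    rw [abs_le]; constructor <;> linarith
  have c0 : ((range (M * V)).filter fun r => bad0 n (gz M V r x) x ia ib).card ≤ 24 * n * V := by
    have sub : ((range (M * V)).filter fun r => bad0 n (gz M V r x) x ia ib) ⊆
        (((range n).filter fun a => x a ≠ x ia).biUnion fun a => (range (M * V)).filter fun r =>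
          gz M V r x a + gz M V r x ib = gz M V r x ia + gz M V r x ib) ∪
        (((range n).filter fun b => x b ≠ x ib).biUnion fun b => (range (M * V)).filter fun r =>
          gz M V r x ia + gz M V r x b = gz M V r x ia + gz M V r x ib) := by
      intro r hr
      simp only [mem_filter, bad0] at hr
      simp only [mem_union, mem_biUnion, mem_filter]
      obtain ⟨hr, ⟨a, ha, h1, h2⟩ | ⟨b, hb, h1, h2⟩⟩ := hr
      · exact Or.inl ⟨a, ⟨ha, h1⟩, hr, by rw [h2]⟩
      · exact Or.inr ⟨b, ⟨hb, h1⟩, hr, by rw [h2]⟩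
    refine (card_le_card sub).trans ((card_union_le _ _).trans ?_)
    refine (Nat.add_le_add (card_biUnion_le_card_mul _ _ (12 * V) fun a ha => ?_)
      (card_biUnion_le_card_mul _ _ (12 * V) fun b hb => ?_)).trans ?_
    · simp only [mem_filter, mem_range] at ha
      exact gam_coll hM2 hV (fun h => ha.2 (by linarith)) (habs a ha.1 ib hib)
    · simp only [mem_filter, mem_range] at hb
      exact gam_coll hM2 hV (fun h => hb.2 (by linarith)) (habs ia hia b hb.1)
    · have h1 := card_filter_le (range n) fun a => x a ≠ x ia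
      have h2 := card_filter_le (range n) fun b => x b ≠ x ib
      rw [card_range] at h1 h2
      have h3 := Nat.mul_le_mul_right (12 * V) h1
      have h4 := Nat.mul_le_mul_right (12 * V) h2
      calc _ ≤ n * (12 * V) + n * (12 * V) := Nat.add_le_add h3 h4
        _ = _ := by ring
  have c2 : ∑ r ∈ range (M * V), (collp n (gz M V r x) x ia ib).card ≤ n ^ 2 * (12 * V) := by
    simp only [collp, card_filter]
    rw [sum_comm]
    refine (sum_le_card_nsmul _ _ (12 * V) fun p hp => ?_).trans (le_of_eq (by simp [sq]))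
    simp only [mem_product, mem_range] at hp
    by_cases h1 : x p.1 + x p.2 = x ia + x ib
    · simp [h1]
    · simp only [ne_eq, h1, not_false_eq_true, true_and]
      rw [← card_filter]
      exact gam_coll hM2 hV (fun h => h1 (by linarith)) (habs _ hp.1 _ hp.2)
  have tot : ∑ r ∈ range (M * V),
      (num (q + 2) fun R => ¬ Good q h O n Cn (gz M V r x) x ia ib R : ℝ) ≤
      Z * (M * V) / 3 := by
    refine (sum_le_sum fun r _ => num_bad hO (gz M V r x) x ia ib hρ hμ hB hB0).trans ?_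
    rw [← mul_sum, mul_div_assoc Z]
    refine mul_le_mul_of_nonneg_left ?_ hZ0.le
    simp only [sum_add_distrib, ← mul_sum, sum_const, card_range, nsmul_eq_mul, sum_boole]
    have d0 : (((range (M * V)).filter fun r => bad0 n (gz M V r x) x ia ib).card : ℝ) ≤
        M * V / 100 := by
      have h1 : (((range (M * V)).filter fun r => bad0 n (gz M V r x) x ia ib).card : ℝ) ≤
        24 * n * V := by exact_mod_cast c0
      have h2 : (2400 * n : ℝ) ≤ M := by exact_mod_cast hA
      nlinarith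
    have d2 : ((Ev h O).card * (2 * h).choose h / M ^ 3 : ℝ) *
        ∑ r ∈ range (M * V), ((collp n (gz M V r x) x ia ib).card : ℝ) ≤ M * V / 10 := by
      have h1 : ∑ r ∈ range (M * V), ((collp n (gz M V r x) x ia ib).card : ℝ) ≤
        n ^ 2 * (12 * V) := by exact_mod_cast c2
      have h2 : (120 * (Ev h O).card * (2 * h).choose h * n ^ 2 : ℝ) ≤ M ^ 4 := by
        exact_mod_cast hC
      refine (mul_le_mul_of_nonneg_left h1 (by positivity)).trans ?_
      rw [div_mul_eq_mul_div, div_le_div_iff₀ (by positivity) (by norm_num)]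
      nlinarith
    have : (0 : ℝ) < M * V := by positivity
    push_cast
    linarith
  have tot2 : ∑ r ∈ range (M * V),
      (num (q + 2) (Good q h O n Cn (gz M V r x) x ia ib) : ℝ) +
      ∑ r ∈ range (M * V),
      (num (q + 2) fun R => ¬ Good q h O n Cn (gz M V r x) x ia ib R : ℝ) =
      Z * (M * V) := by
    rw [← sum_add_distrib, sum_congr rfl (g := fun _ => Z) fun r _ => by
      rw [hZ]; exact_mod_cast num_not _]
    simp [mul_comm]
  have : (2 * (M * V * Z) : ℝ) ≤ 3 * ∑ r ∈ range (M * V),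
      (num (q + 2) (Good q h O n Cn (gz M V r x) x ia ib) : ℝ) := by linarith
  rw [hZ] at this
  exact_mod_cast this

end Pool.Agent.P.MP_8f87b2_lc.S2
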