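import Pool.Agent.P.MP_8f87b2_lc.PhaseD
import Pool.Agent.P.MP_8f87b2_lc.S2.Prob

/-!
# Parameters, program text and ghost data of the subset algorithm
-/

namespace Pool.Agent.P.MP_8f87b2_lc.S2

open Finset

/-- bit number `R[a]` of `R[x]` -/
abbrev ebit (x a : ℕ) : Expr := eand (eshr (.v x) (.v a)) (.c 1)
/-- one if the values are equal, else zero -/
abbrev eeq (a b : Expr) : Expr := eand (elt a (eadd b (.c 1))) (elt b (eadd a (.c 1)))
/-- twice a variable -/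
abbrev edbl (x : ℕ) : Expr := eadd (.v x) (.v x)

/-! ### The program -/

/-- `R[x] := 2 ^ (e * R[2])` -/
def pPow (x e : ℕ) : Stmt := blk
  [.set 31 (emul (.c e) (.v 2)), .set x (.c 1), forL 30 31 (.set x (edbl x))]

def pSize : Stmt := blk
  [.set 1 (.inp (.c 0)), .set 2 (.c 100),
    .wh (eshr (.v 1) (emul (.c 65702) (.v 2))) (.set 2 (einc 2))]

def pSetup : Stmt := blk
  [pSize, pPow 4 219000, pPow 5 191625, pPow 6 81704, pPow 8 262808, pPow 10 700000,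
    pPow 17 115408,
    .set 3 (emul (.c 219000) (.v 2)), .set 8 (emul (.c 4) (.v 8)),
    .set 9 (eadd (emul (.c 262808) (.v 2)) (.c 2)),
    .set 11 (emul (.c 28000) (.v 2)), .set 12 (emul (.c 4000) (.v 2)),
    .set 13 (emul (.c 16000) (.v 2)), .set 14 (emul (.c 30000) (.v 2)),
    .set 15 (emul (.v 6) (.v 8)),
    .set 16 (esub (emul (emul (.v 10) (.v 10)) (.v 10)) (.c 1)),
    .set 17 (emul (.c 64) (.v 17)), .set 18 (eadd (.v 3) (.c 2)),
    .set 21 (esub (emul (.c 2000) (.v 2)) (.c 1)), .set 23 (emul (.c 2) (.v 6)),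
    .set 24 (emul (.c 131404) (.v 2)), .set 25 (.c 3), .set 26 (esub (.v 4) (.c 1)),
    .set 27 (esub (.v 4) (.v 5))]

/-- value (variable 34) and size (variable 35) of the set with mask `R[x]` -/
def pHv (x : ℕ) : Stmt := blk
  [.set 34 (.c 0), .set 35 (.c 0), forL 37 3 (.ite (ebit x 37)
    (blk [.set 34 (emodM (eadd (.v 34) (.ld 0 (.v 37)))), .set 35 (einc 35)]) .skip)]

def pSubsIn (b m len : ℕ) : Stmt := forL 48 47
  (.ite (elt (.ld b (eadd (edbl 48) (.c 1))) (.v m)) (blk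
    [.st b (edbl len) (eadd (.ld b (edbl 48)) (.v 44)),
      .st b (eadd (edbl len) (.c 1)) (eadd (.ld b (eadd (edbl 48) (.c 1))) (.c 1)),
      .set len (einc len)]) .skip)

/-- list in bank `b` the subsets with at most `R[m]` elements of the set with mask `R[x]` -/
def pSubs (b x m len : ℕ) : Stmt := blk
  [.st b (.c 0) (.c 0), .st b (.c 1) (.c 0), .set len (.c 1), .set 44 (.c 1),
    forL 45 3 (blk
      [.ite (ebit x 45) (blk [.set 47 (.v len), pSubsIn b m len]) .skip, .set 44 (edbl 44)])]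

def pListIn : Stmt := blk
  [.set 55 (einc 55),
    .set 56 (eadd (emodM (eadd (eadd (.v 36) (.ld 6 (.v 53))) (.v 54))) (.v 57)),
    .st 9 (.v 55) (.ld 8 (.v 56)), .st 8 (.v 56) (.v 55), .st 10 (.v 55) (.v 50),
    .st 11 (.v 55) (.v 53)]

def pList : Stmt := blk [.set 55 (.c 0), forL 33 7 (blk
  [.set 50 (.ld 2 (edbl 33)), pHv 50, .set 36 (eadd (.ld 0 (einc 3)) (.v 34)),
    .ite (eeq (.v 35) (.v 12)) (.set 57 (.c 0)) (.set 57 (.v 6)),
    forL 53 1 (forL 54 25 pListIn)])]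

def pRowF : Stmt := blk [.set 41 (.v 36), .set 44 (.c 1), forL 37 3 (blk
  [.st 13 (.v 41) (.v 38), .st 14 (.v 41) (.v 39),
    .ite (ebit 36 37) (blk
      [.set 38 (radd (.v 38) (.ld 13 (esub (.v 41) (.v 44)))),
        .set 39 (radd (.v 39) (.ld 14 (esub (.v 41) (.v 44))))]) .skip,
    .set 41 (eadd (.v 41) (.v 4)), .set 44 (edbl 44)])]

def pRowU : Stmt := blk [.set 41 (.v 36), .set 44 (.c 1), forL 37 3 (blk
  [.st 15 (.v 41) (.v 38),
    .ite (ebit 36 37) (.set 38 (rsub (.v 38) (.ld 15 (esub (.v 41) (.v 44))))) .skip,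
    .set 41 (eadd (.v 41) (.v 4)), .set 44 (edbl 44)])]

/-- fill the three table rows of the set with mask `R[36]` -/
def pRow : Stmt := blk
  [pHv 36,
    .ite (eeq (.v 35) (.v 13)) (blk
      [.set 38 (.ld 12 (emodM (eadd (.ld 0 (.v 3)) (.v 34)))),
        .set 39 (.ld 12 (eadd (emodM (eadd (.ld 0 (einc 3)) (.v 34))) (.v 6)))])
      (blk [.set 38 (.c 0), .set 39 (.c 0)]),
    pRowF, .set 38 (rmul (.v 38) (.v 39)), pRowU]

def pGlob : Stmt := forL 33 20 (blk [.set 36 (.ld 1 (edbl 33)), pRow])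

def pTop : Stmt := forL 49 22 (blk
  [.set 36 (esub (.v 42) (.ld 3 (emul (.c 2) (esub (.v 22) (einc 49))))), pRow])

/-- evaluate the output with mask `R[42]` and test it against entry `R[43]` -/
def pOne : Stmt := blk
  [pSubs 3 42 21 22, pTop,
    .set 52 (eand (rmul (.v 38) (ewt (.inp (einc 43)))) (.v 16)),
    .ite (eand (elt (.c 0) (.v 52)) (elt (.v 52) (.v 10))) (.set 0 (.c 1)) .skip]

def pQuery : Stmt := blk
  [pHv 50, .set 51 (.ld 8 (emodM (esub (.v 23) (eadd (.ld 0 (.v 3)) (.v 34))))),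
    .wh (eand (elt (.c 0) (.v 51)) (elt (.v 46) (.v 17))) (blk
      [.set 46 (einc 46), .set 43 (.ld 11 (.v 51)),
        .ite (ecol 43) .skip (blk [.set 42 (eadd (.v 50) (.ld 10 (.v 51))), pOne]),
        .set 51 (.ld 9 (.v 51))])]

def pEval : Stmt := blk
  [.set 46 (.c 0), forL 33 20 (blk
    [.set 50 (.ld 1 (edbl 33)),
      .ite (eand (eeq (.ld 1 (eadd (edbl 33) (.c 1))) (.v 11)) (elt (.v 50) (.v 5))) pQuery
        .skip])]

def pInst : Stmt := blk [pZero, pAcc, pGlob, pEval]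

def pMain : Stmt := blk
  [pSetup, pWord 19 15, pRead, pSubs 1 26 14 20, pSubs 2 27 12 7, pHash, pList, forL 40 24 pInst]

/-! ### Parameters -/

structure Cx where
  τ : ℕ
  n : ℕ
  x : ℕ → ℤ

namespace Cx

variable (c : Cx)

def q : ℕ := 219000 * c.τ
def q1 : ℕ := 191625 * c.τ
def h : ℕ := 16000 * c.τ
def l1 : ℕ := 28000 * c.τ
def l2 : ℕ := 4000 * c.τ
/-- rows of sets with at most `d` elements are precomputed -/
def d : ℕ := 30000 * c.τ
/-- at most `s1` elements are removed from an output on demand -/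
def s1 : ℕ := 2000 * c.τ - 1
def k : ℕ := 81704 * c.τ
def v : ℕ := 262808 * c.τ + 2
def Q : ℕ := 2 ^ c.q
def M : ℕ := 2 ^ c.k
def V : ℕ := 2 ^ c.v
def T : ℕ := 2 ^ (700000 * c.τ)
def Cn : ℕ := 64 * 2 ^ (115408 * c.τ)
def nR : ℕ := c.q + 2
def nI : ℕ := 131404 * c.τ

instance : NeZero c.M := ⟨by unfold M; positivity⟩

theorem M_pos : 0 < c.M := by unfold M; positivity
theorem Q_pos : 0 < c.Q := by unfold Q; positivity
theorem V_pos : 0 < c.V := by unfold V; positivity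
theorem T_pos : 0 < c.T := by unfold T; positivity

theorem and_M (a : ℕ) : a &&& (c.M - 1) = a % c.M := Nat.and_two_pow_sub_one_eq_mod _ _

theorem MV : c.M * c.V = 2 ^ (c.k + c.v) := by rw [pow_add]; rfl

/-! ### Ghost data -/

/-- the small subsets of the ground set -/
def LG : List (Finset ℕ) := subs c.d (range c.q) c.q
/-- the small subsets of the upper part of the ground set -/
def LU : List (Finset ℕ) := subs c.l2 (Ico c.q1 c.q) c.q
def G : ℕ := c.LU.length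
/-- the number of rows filled for one output -/
def Lb : ℕ := bs (2 * c.h) c.s1
/-- the outputs -/
def O : Finset (Finset ℕ) :=
  (powersetCard c.l1 (range c.q1) ×ˢ powersetCard c.l2 (Ico c.q1 c.q)).image fun p => p.1 ∪ p.2

def γ (r i : ℕ) : ℕ := gam c.M c.V r (c.x i)
def neg (i : ℕ) : ℕ := if c.x i < 0 then 1 else 0

theorem γ_lt (r i : ℕ) : c.γ r i < c.M := gam_lt c.M_pos c.V_pos _ _

/-- the value of a set as the program stores it -/
def Hn (R : ℕ → ℕ) (w : Finset ℕ) : ℕ := Hs R w % c.M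

theorem Hn_lt (R : ℕ → ℕ) (w : Finset ℕ) : c.Hn R w < c.M := Nat.mod_lt _ c.M_pos

def eg (m : ℕ) : ℕ := m / 3 / c.n
def ei (m : ℕ) : ℕ := m / 3 % c.n
def Tg (m : ℕ) : Finset ℕ := c.LU.getD (c.eg m) ∅
/-- the bucket of list entry `m` -/
def vn (R : ℕ → ℕ) (r m : ℕ) : ℕ :=
  (R (c.q + 1) + c.Hn R (c.Tg m) + c.γ r (c.ei m) + m % 3) % c.M +
    if (c.Tg m).card = c.l2 then 0 else c.M

/-- entry `i` lies in the third class of instance `u` -/
def isC (u i : ℕ) : Prop := (c.neg i + u) % 2 = 0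

instance (u i : ℕ) : Decidable (c.isC u i) := by unfold isC; infer_instance

/-- the weight table, accumulated over the first `m` entries -/
def WT (r u m a : ℕ) : ℤ :=
  ∑ i ∈ range m, if ¬ c.isC u i ∧ c.γ r i + side u i * c.M = a then wt c.T (c.x i) else 0

/-- the input of side `j` (zero or one) -/
def Xz (R : ℕ → ℕ) (r u j : ℕ) (w : Finset ℕ) : ℤ :=
  if w.card = c.h then c.WT r u c.n ((R (c.q + j) + c.Hn R w) % c.M + j * c.M) else 0

def Pz (R : ℕ → ℕ) (r u : ℕ) (w : Finset ℕ) : ℤ :=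
  zet 1 (c.Xz R r u 0) c.q w * zet 1 (c.Xz R r u 1) c.q w

def Uz (R : ℕ → ℕ) (r u a : ℕ) (w : Finset ℕ) : ℤ := zet (-1) (c.Pz R r u) a w

/-- the fingerprint test at output `e` for entry `i` -/
def test (R : ℕ → ℕ) (r u : ℕ) (e : Finset ℕ) (i : ℕ) : Prop :=
  0 < (c.Uz R r u c.q e * wt c.T (c.x i)) % c.T ^ 3 ∧
    (c.Uz R r u c.q e * wt c.T (c.x i)) % c.T ^ 3 < c.T

/-- the lower parts of the outputs -/
def isQ (w : Finset ℕ) : Prop := w.card = c.l1 ∧ w ⊆ range c.q1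

instance (w : Finset ℕ) : Decidable (c.isQ w) := by unfold isQ; infer_instance

/-- the bucket looked up at query `w` -/
def qn (R : ℕ → ℕ) (w : Finset ℕ) : ℕ := (2 * c.M - (R c.q + c.Hn R w)) % c.M

def qlen (R : ℕ → ℕ) (r : ℕ) (w : Finset ℕ) : ℕ :=
  (Lst (c.vn R r) (c.G * c.n * 3) (c.qn R w)).length

def qw (R : ℕ → ℕ) (r : ℕ) (w : Finset ℕ) : ℕ := if c.isQ w then c.qlen R r w else 0

/-- the number of list entries met at the first `j` queries -/
def cum (R : ℕ → ℕ) (r j : ℕ) : ℕ := ∑ a ∈ range j, c.qw R r (c.LG.getD a ∅)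

/-- some test succeeds -/
def Found (R : ℕ → ℕ) (r : ℕ) : Prop :=
  ∃ u e i, e ∈ c.O ∧ i < c.n ∧ c.isC u i ∧ c.test R r u e i

/-- a successful test among the entries listed at query `w` -/
def Hit (R : ℕ → ℕ) (r u : ℕ) (w : Finset ℕ) : Prop :=
  ∃ m < c.G * c.n * 3, c.vn R r m = c.qn R w ∧ c.isC u (c.ei m) ∧
    c.test R r u (w ∪ c.Tg m) (c.ei m)

/-- the output is unchanged, or set for a good reason -/
def Out (R : ℕ → ℕ) (r : ℕ) (a b : ℕ) : Prop := b = a ∨ (b = 1 ∧ c.Found R r)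

/-! ### Costs -/

def tHv : ℕ := c.q * 5 + 4
def tSubs (len : ℕ) : ℕ := c.q * (len * 6 + 7) + 6
def tRow : ℕ := c.q * 21 + 20
def tOne : ℕ := c.tSubs c.Lb + (c.Lb * (c.tRow + 3) + 2) + 3
def tInst : ℕ := (2 * c.M * 3 + 2) + (c.n * 6 + 2) + (c.LG.length * (c.tRow + 3) + 2) +
  (c.LG.length * (c.tHv + 8) + c.Cn * (c.tOne + 6) + 3)
def tList : ℕ := c.G * (c.tHv + c.n * 28 + 8) + 3
def tAll : ℕ := 6000000 * c.τ + (4 * (c.k + c.v) + 3) + (c.nR * (4 * c.k + 6) + 2) +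
  c.tSubs c.LG.length + c.tSubs c.G + (c.n * 5 + 2) + c.tList + (c.nI * (c.tInst + 2) + 2)

variable {c}

theorem Out.trans {R : ℕ → ℕ} {r a b d : ℕ} (h₁ : c.Out R r a b) (h₂ : c.Out R r b d) :
    c.Out R r a d := by
  rcases h₂ with rfl | h₂
  exacts [h₁, Or.inr h₂]

theorem Out.one {R : ℕ → ℕ} {r a b : ℕ} (h : c.Out R r a b) (ha : a = 1) : b = 1 := by
  rcases h with rfl | h
  exacts [ha, h.1]

end Cx

/-- the parameter variables hold their values -/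
structure Par (c : Cx) (σ : St) : Prop where
  n : σ.var 1 = c.n
  τ : σ.var 2 = c.τ
  q : σ.var 3 = c.q
  Q : σ.var 4 = c.Q
  Q1 : σ.var 5 = 2 ^ c.q1
  M : σ.var 6 = c.M
  V : σ.var 8 = c.V
  v : σ.var 9 = c.v
  T : σ.var 10 = c.T
  l1 : σ.var 11 = c.l1
  l2 : σ.var 12 = c.l2
  h : σ.var 13 = c.h
  d : σ.var 14 = c.d
  Wd : σ.var 15 = c.M * c.V
  T3 : σ.var 16 = c.T ^ 3 - 1
  Cn : σ.var 17 = c.Cn
  nR : σ.var 18 = c.nR
  s1 : σ.var 21 = c.s1
  M2 : σ.var 23 = 2 * c.M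
  nI : σ.var 24 = c.nI
  three : σ.var 25 = 3
  full : σ.var 26 = bm (range c.q)
  upper : σ.var 27 = bm (Ico c.q1 c.q)

def parVars : List ℕ :=
  [1, 2, 3, 4, 5, 6, 8, 9, 10, 11, 12, 13, 14, 15, 16, 17, 18, 21, 23, 24, 25, 26, 27]

theorem Par.frame {c : Cx} {σ σ' : St} {vs bs : List ℕ} {r : Bool} (h : Par c σ)
    (hF : Frame vs bs r σ σ') (hv : ∀ x ∈ parVars, x ∉ vs) : Par c σ' := by
  have e : ∀ x ∈ parVars, σ'.var x = σ.var x := fun x hx => hF.var x (hv x hx)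
  exact ⟨(e 1 (by decide)).trans h.n, (e 2 (by decide)).trans h.τ, (e 3 (by decide)).trans h.q,
    (e 4 (by decide)).trans h.Q, (e 5 (by decide)).trans h.Q1, (e 6 (by decide)).trans h.M,
    (e 8 (by decide)).trans h.V, (e 9 (by decide)).trans h.v, (e 10 (by decide)).trans h.T,
    (e 11 (by decide)).trans h.l1, (e 12 (by decide)).trans h.l2, (e 13 (by decide)).trans h.h,
    (e 14 (by decide)).trans h.d, (e 15 (by decide)).trans h.Wd, (e 16 (by decide)).trans h.T3,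
    (e 17 (by decide)).trans h.Cn, (e 18 (by decide)).trans h.nR, (e 21 (by decide)).trans h.s1,
    (e 23 (by decide)).trans h.M2, (e 24 (by decide)).trans h.nI,
    (e 25 (by decide)).trans h.three, (e 26 (by decide)).trans h.full,
    (e 27 (by decide)).trans h.upper⟩

/-- size facts relating the parameters and the environment -/
structure Bnd (c : Cx) (E : Env) : Prop where
  τ1 : 100 ≤ c.τ
  n1 : E.n1 = c.n + 1
  inp : ∀ i < c.n, E.inp (i + 1) = (c.x i % E.W).toNat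
  xV : ∀ i < c.n, 4 * |c.x i| ≤ c.V
  big : 2000 * E.Lim < E.W
  lQ : (c.q + 3) * c.Q ≤ E.Lim
  lM : 4 * c.M ≤ E.Lim
  lE : 3 * c.G * c.n + 1 ≤ E.Lim
  ln : c.n + 1 ≤ E.Lim
  ls : 1000000 * c.τ ≤ E.Lim
  lC : c.Cn ≤ E.Lim
  lWd : 2 * (c.M * c.V) < E.W
  dWd : c.M * c.V ∣ E.W
  dT : c.T ^ 3 ∣ E.W

/-- bank `b` holds the masks and sizes of the sets of the list -/
def LstAt (b : ℕ) (L : List (Finset ℕ)) (σ : St) : Prop :=
  ∀ i < L.length, σ.bank b (2 * i) = bm (L.getD i ∅) ∧ σ.bank b (2 * i + 1) = (L.getD i ∅).card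

/-- the buckets hold the first `m` entries -/
def LInv (c : Cx) (R : ℕ → ℕ) (r m : ℕ) (σ : St) : Prop :=
  (∀ v < 2 * c.M, Chain (σ.bank 9) (σ.bank 8 v) (Lst (c.vn R r) m v)) ∧
    ∀ m' < m, σ.bank 10 (m' + 1) = bm (c.Tg m') ∧ σ.bank 11 (m' + 1) = c.ei m'

/-- the precomputed data are in place -/
structure Pre (c : Cx) (R : ℕ → ℕ) (r : ℕ) (σ : St) : Prop where
  par : Par c σ
  n1 : σ.var 20 = c.LG.length
  b0 : σ.bank 0 = R
  hR : ∀ i < c.nR, R i < c.M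
  b1 : LstAt 1 c.LG σ
  b6 : ∀ i < c.n, σ.bank 6 i = c.γ r i
  b7 : ∀ i < c.n, σ.bank 7 i = c.neg i
  lst : LInv c R r (c.G * c.n * 3) σ

theorem Pre.frame {c : Cx} {R : ℕ → ℕ} {r : ℕ} {σ σ' : St} {vs bs : List ℕ} {z : Bool}
    (h : Pre c R r σ) (hF : Frame vs bs z σ σ') (hv : ∀ x ∈ 20 :: parVars, x ∉ vs)
    (hb : ∀ k ∈ [0, 1, 6, 7, 8, 9, 10, 11], k ∉ bs) : Pre c R r σ' := by
  have e : ∀ k ∈ [0, 1, 6, 7, 8, 9, 10, 11], σ'.bank k = σ.bank k :=
    fun k hk => hF.bank k (hb k hk)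
  refine ⟨h.par.frame hF fun x hx => hv x (by simp [hx]),
    (hF.var 20 (hv 20 (by decide))).trans h.n1, (e 0 (by decide)).trans h.b0, h.hR, ?_,
    e 6 (by decide) ▸ h.b6, e 7 (by decide) ▸ h.b7, ?_⟩
  · unfold LstAt
    rw [e 1 (by decide)]
    exact h.b1
  · unfold LInv
    rw [e 8 (by decide), e 9 (by decide), e 10 (by decide), e 11 (by decide)]
    exact h.lst

/-- the weight table of instance `u` is in place -/
structure Acc (c : Cx) (E : Env) (R : ℕ → ℕ) (r u : ℕ) (σ : St) : Prop where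
  pre : Pre c R r σ
  hu : σ.var 40 = u
  hu' : u < c.nI
  b12 : ∀ a < 2 * c.M, (σ.bank 12 a : ZMod E.W) = (c.WT r u c.n a : ℤ)

theorem Acc.frame {c : Cx} {E : Env} {R : ℕ → ℕ} {r u : ℕ} {σ σ' : St} {vs bs : List ℕ}
    {z : Bool} (h : Acc c E R r u σ) (hF : Frame vs bs z σ σ')
    (hv : ∀ x ∈ 40 :: 20 :: parVars, x ∉ vs)
    (hb : ∀ k ∈ [12, 0, 1, 6, 7, 8, 9, 10, 11], k ∉ bs) : Acc c E R r u σ' :=
  ⟨h.pre.frame hF (fun x hx => hv x (List.mem_cons_of_mem _ hx))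
      fun x hx => hb x (List.mem_cons_of_mem _ hx),
    (hF.var 40 (hv 40 (by decide))).trans h.hu, h.hu',
    hF.bank 12 (hb 12 (by decide)) ▸ h.b12⟩

/-- row `w` of the table in bank `b` holds the values of the recursion -/
def RowAt (c : Cx) (E : Env) (b : ℕ) (ε : ℤ) (X : Finset ℕ → ℤ) (σ : St) (w : Finset ℕ) : Prop :=
  ∀ a < c.q, (σ.bank b (a * c.Q + bm w) : ZMod E.W) = (zet ε X a w : ℤ)

/-- the three rows of `w` are filled -/
def RowOK (c : Cx) (E : Env) (R : ℕ → ℕ) (r u : ℕ) (σ : St) (w : Finset ℕ) : Prop :=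
  RowAt c E 13 1 (c.Xz R r u 0) σ w ∧ RowAt c E 14 1 (c.Xz R r u 1) σ w ∧
    RowAt c E 15 (-1) (c.Pz R r u) σ w

/-- filled rows stay filled -/
def Keeps (c : Cx) (E : Env) (R : ℕ → ℕ) (r u : ℕ) (σ σ' : St) : Prop :=
  ∀ w ⊆ range c.q, RowOK c E R r u σ w → RowOK c E R r u σ' w

theorem Keeps.refl (c : Cx) (E : Env) (R : ℕ → ℕ) (r u : ℕ) (σ : St) : Keeps c E R r u σ σ :=
  fun _ _ h => h

theorem Keeps.trans {c : Cx} {E : Env} {R : ℕ → ℕ} {r u : ℕ} {σ σ' σ'' : St}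
    (h₁ : Keeps c E R r u σ σ') (h₂ : Keeps c E R r u σ' σ'') : Keeps c E R r u σ σ'' :=
  fun w hw h => h₂ w hw (h₁ w hw h)

theorem Keeps.of_frame {c : Cx} {E : Env} {R : ℕ → ℕ} {r u : ℕ} {σ σ' : St} {vs bs : List ℕ}
    {z : Bool} (hF : Frame vs bs z σ σ') (hb : ∀ k ∈ [13, 14, 15], k ∉ bs) :
    Keeps c E R r u σ σ' := by
  intro w _ h
  unfold RowOK RowAt
  rw [hF.bank 13 (hb 13 (by decide)), hF.bank 14 (hb 14 (by decide)),
    hF.bank 15 (hb 15 (by decide))]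
  exact h

/-- the tables of instance `u` are in place -/
structure Tab (c : Cx) (E : Env) (R : ℕ → ℕ) (r u : ℕ) (σ : St) : Prop where
  acc : Acc c E R r u σ
  rows : ∀ w ⊆ range c.q, w.card ≤ c.d → RowOK c E R r u σ w

theorem Tab.keep {c : Cx} {E : Env} {R : ℕ → ℕ} {r u : ℕ} {σ σ' : St} {vs bs : List ℕ}
    {z : Bool} (h : Tab c E R r u σ) (hF : Frame vs bs z σ σ')
    (hv : ∀ x ∈ 40 :: 20 :: parVars, x ∉ vs)
    (hb : ∀ k ∈ [12, 0, 1, 6, 7, 8, 9, 10, 11], k ∉ bs) (hK : Keeps c E R r u σ σ') :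
    Tab c E R r u σ' :=
  ⟨h.acc.frame hF hv hb, fun w hw hd => hK w hw (h.rows w hw hd)⟩

/-- the parameters are the ones chosen for the input length -/
structure Sz (c : Cx) : Prop where
  τ1 : 100 ≤ c.τ
  nN : c.n < 2 ^ (65702 * c.τ)
  smin : ∀ i, 100 ≤ i → i < c.τ → 2 ^ (65702 * i) ≤ c.n

end Pool.Agent.P.MP_8f87b2_lc.S2
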