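import Pool.Agent.P.MP_8f87b2_lc.S2.Ctx

/-!
# The simple loops
-/

namespace Pool.Agent.P.MP_8f87b2_lc.S2

open Finset

variable {E : Env} {c : Cx}

theorem pRead_spec (hB : Bnd c E) {σ : St} {t : ℕ} (hP : Par c σ) :
    WP E pRead (fun σ' t' => (∀ i < c.nR, σ'.bank 0 i = bits E.ω (σ.pos + i * c.k) c.k) ∧
      t' ≤ t + (c.nR * (4 * c.k + 6) + 2)) σ t := by
  have hbig := hB.big
  have hls := hB.ls
  have hτ := hB.τ1
  have hnR : c.nR = 219000 * c.τ + 2 := rfl
  have hlM := hB.lM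
  have hM := c.M_pos
  refine wp_for c.nR (4 * c.k + 4)
    (fun m σ' => (∀ i < m, σ'.bank 0 i = bits E.ω (σ.pos + i * c.k) c.k) ∧
      σ'.pos = σ.pos + m * c.k) [32, 30, 31] [0] true (by decide) (by decide) (by decide)
    (by decide) hP.nR (by omega) (by omega) (by simp) ?_ fun σ' t' _ hI ht => ⟨hI.1, by omega⟩
  intro m σ' t' hm hF hi ⟨hI, hpos⟩
  have hP' := hP.frame hF (by decide)
  rw [wp_blk_cons]
  refine (pWord_spec (k := c.k) (by decide) (by decide) (by decide) hP'.M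
    (by change 2 * c.M < E.W; omega)).call [32, 30, 31] [] true (by decide) ?_
  rintro σ₂ t₂ hF₂ ⟨h1, h2, h3⟩
  have h33 : σ₂.var 33 = m := (hF₂.var 33 (by decide)).trans hi
  have hb : σ₂.bank 0 = σ'.bank 0 := hF₂.bank 0 (by decide)
  simp only [wp_blk_cons, wp_st, wp_blk_nil]
  simp [h33, h1, hb, h2, hpos]
  refine ⟨by omega, ⟨fun i hi => ?_, by ring⟩, by omega⟩
  rw [Function.update_apply]
  split_ifs with h
  · rw [h]
  · exact hI i (by omega)

theorem hash_eq (hB : Bnd c E) (r : ℕ) {i : ℕ} :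
    ((r * (c.x i % E.W).toNat % E.W) &&& (c.M * c.V - 1)) >>> c.v = c.γ r i := by
  have hW : 0 < E.W := by have := hB.big; omega
  have hW' : (0 : ℤ) < E.W := by exact_mod_cast hW
  have e : c.M * c.V = 2 ^ (c.k + c.v) := by rw [pow_add]; rfl
  rw [e, Nat.and_two_pow_sub_one_eq_mod, ← e, Nat.mod_mod_of_dvd _ hB.dWd,
    Nat.shiftRight_eq_div_pow]
  unfold Cx.γ gam
  congr 1
  have h0 : (0 : ℤ) < (c.M * c.V : ℕ) := by rw [e]; positivity
  zify
  rw [Int.toNat_of_nonneg (Int.emod_nonneg _ hW'.ne')]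
  have h1 := Int.emod_nonneg (r * c.x i) h0.ne'
  push_cast at h1 h0
  rw [Int.toNat_of_nonneg h1, Int.mul_emod, Int.emod_emod_of_dvd _ (by exact_mod_cast hB.dWd),
    ← Int.mul_emod]

theorem neg_eq (hB : Bnd c E) {i : ℕ} (hi : i < c.n) :
    (if ((c.x i % E.W).toNat + c.V) % E.W < c.V then 1 else 0) = c.neg i := by
  have hM := c.M_pos
  have hV := c.V_pos
  have h1 : 2 * c.V < E.W := by have := hB.lWd; nlinarith
  have h2 := hB.xV i hi
  have hW' : (0 : ℤ) < E.W := by exact_mod_cast (by omega : 0 < E.W)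
  have h3 : ((((c.x i % E.W).toNat + c.V) % E.W : ℕ) : ℤ) = c.x i + c.V := by
    push_cast
    rw [Int.toNat_of_nonneg (Int.emod_nonneg _ hW'.ne'), Int.emod_add_emod]
    have := abs_le.mp (le_refl |c.x i|)
    have := abs_nonneg (c.x i)
    exact Int.emod_eq_of_lt (by omega) (by omega)
  unfold Cx.neg
  split_ifs <;> omega

theorem pHash_spec (hB : Bnd c E) {σ : St} {t : ℕ} (hP : Par c σ) :
    WP E pHash (fun σ' t' => (∀ i < c.n, σ'.bank 6 i = c.γ (σ.var 19) i ∧
      σ'.bank 7 i = c.neg i) ∧ t' ≤ t + (c.n * 5 + 2)) σ t := by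
  have hbig := hB.big
  have hln := hB.ln
  have hn1 := hB.n1
  have hWd : 0 < c.M * c.V := Nat.mul_pos c.M_pos c.V_pos
  refine wp_for c.n 3
    (fun m σ' => ∀ i < m, σ'.bank 6 i = c.γ (σ.var 19) i ∧ σ'.bank 7 i = c.neg i) [34] [6, 7]
    false (by decide) (by decide) (by decide) (by decide) hP.n (by omega) (by omega) (by simp) ?_
    fun σ' t' _ hI ht => ⟨hI, by omega⟩
  intro i σ' t' hi hF h33 hI
  have hP' := hP.frame hF (by decide)
  have h19 : σ'.var 19 = σ.var 19 := hF.var 19 (by decide)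
  simp only [wp_blk_cons, wp_set, wp_st, wp_blk_nil]
  simp only [Expr.safe, Expr.eval, BOp.safe, BOp.eval, St.setv_var, St.setm_var, St.setv_bank,
    St.setm_bank, h33, h19, hP'.Wd, hP'.v, hP'.V, hB.inp i hi, Nat.reduceEqDiff, if_true, if_false,
    hash_eq hB, neg_eq hB hi]
  simp only [true_and, and_true]
  refine ⟨by omega, by omega, by omega, by omega, fun q hq => ?_, by omega⟩
  simp only [Function.update_apply]
  split_ifs with h
  · simp [h]
  · exact hI q (by omega)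

theorem pZero_spec (hB : Bnd c E) {σ : St} {t : ℕ} (hP : Par c σ) :
    WP E pZero (fun σ' t' => (∀ a < 2 * c.M, σ'.bank 12 a = 0) ∧
      t' ≤ t + (2 * c.M * 3 + 2)) σ t := by
  have hbig := hB.big
  have hlM := hB.lM
  have hM := c.M_pos
  refine wp_for (2 * c.M) 1 (fun m σ' => ∀ a < m, σ'.bank 12 a = 0) [] [12]
    false (by decide) (by decide) (by decide) (by decide) hP.M2 (by omega) (by omega) (by simp) ?_
    fun σ' t' _ hI ht => ⟨hI, by omega⟩
  intro i σ' t' hi hF h33 hI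
  simp [h33]
  refine ⟨by omega, by omega, fun a ha => ?_⟩
  rw [Function.update_apply]
  split_ifs with h
  · rfl
  · exact hI a (by omega)

theorem pAcc_spec (hB : Bnd c E) {σ : St} {t : ℕ} (hP : Par c σ) {r u : ℕ}
    (hγ : ∀ i < c.n, σ.bank 6 i = c.γ r i) (hneg : ∀ i < c.n, σ.bank 7 i = c.neg i)
    (h40 : σ.var 40 = u) (hu : u < c.nI) (h12 : ∀ a < 2 * c.M, σ.bank 12 a = 0) :
    WP E pAcc (fun σ' t' => (∀ a < 2 * c.M, (σ'.bank 12 a : ZMod E.W) = (c.WT r u c.n a : ℤ)) ∧
      t' ≤ t + (c.n * 6 + 2)) σ t := by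
  have hbig := hB.big
  have hlM := hB.lM
  have hln := hB.ln
  have hls := hB.ls
  have hnI : c.nI = 131404 * c.τ := rfl
  have hn1 := hB.n1
  have hM := c.M_pos
  refine wp_for c.n 4
    (fun m σ' => ∀ a < 2 * c.M, (σ'.bank 12 a : ZMod E.W) = (c.WT r u m a : ℤ)) [34, 35] [12]
    false (by decide) (by decide) (by decide) (by decide) hP.n (by omega) (by omega)
    (by simp +contextual [h12, Cx.WT]) ?_ fun σ' t' _ hI ht => ⟨hI, by omega⟩
  intro i σ' t' hi hF h33 hI
  have hP' := hP.frame hF (by decide)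
  have h40' : σ'.var 40 = u := (hF.var 40 (by decide)).trans h40
  have h6 : σ'.bank 6 i = c.γ r i := by rw [hF.bank 6 (by decide), hγ i hi]
  have h7 : σ'.bank 7 i = c.neg i := by rw [hF.bank 7 (by decide), hneg i hi]
  have hn : c.neg i ≤ 1 := by unfold Cx.neg; split_ifs <;> omega
  have hγ' := c.γ_lt r i
  have hs : (i >>> (u >>> 1)) % 2 = side u i := by
    simp [side, Nat.shiftRight_eq_div_pow]
  have hs2 : side u i * c.M ≤ c.M := by
    have : side u i ≤ 1 := by unfold side; omega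
    nlinarith
  rw [wp_ite]
  refine ⟨by simp [h33, h40', h7]; omega, fun h => ?_, fun h => ?_⟩
  · have hC : ¬ c.isC u i := by simpa [h33, h40', h7, Cx.isC] using h
    simp only [wp_blk_cons, wp_set, wp_st, wp_blk_nil]
    simp only [Expr.safe, Expr.eval, BOp.safe, BOp.eval, St.setv_var, St.setm_var, St.setv_bank,
      St.setm_bank, h33, h40', h6, hP'.M, hP'.T, hB.inp i hi, Nat.reduceEqDiff, if_true, if_false,
      Nat.and_one_is_mod, hs, true_and, and_true]
    and_intros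
    any_goals omega
    intro a ha
    rw [Function.update_apply, Cx.WT, sum_range_succ, ← Cx.WT]
    split_ifs with h1 h2 h2
    · rw [cast_radd, cast_wt _ _ _ (cast_inp (by omega) _), ← h1, hI a ha]; push_cast; rfl
    · exact absurd ⟨hC, h1.symm⟩ h2
    · exact absurd h2.2.symm h1
    · simpa using hI a ha
  · have hC : c.isC u i := by simpa [h33, h40', h7, Cx.isC] using h
    simp only [wp_skip, St.setv_bank]
    refine ⟨fun a ha => ?_, by omega⟩
    rw [Cx.WT, sum_range_succ, ← Cx.WT, if_neg (by simp [hC])]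
    simpa using hI a ha

end Pool.Agent.P.MP_8f87b2_lc.S2
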