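import Pool.Agent.P.MP_8f87b2_lc.S2.Query
import Pool.Agent.P.MP_8f87b2_lc.S2.Simple

/-!
# One instance, and the loop over the instances
-/

namespace Pool.Agent.P.MP_8f87b2_lc.S2

open Finset

variable {E : Env} {c : Cx}

theorem LG_length_le (c : Cx) : c.LG.length ≤ c.Q := by
  rw [Cx.LG, length_subs _ Subset.rfl, card_range]
  exact bs_le_two_pow _ _

theorem isQ_mem_LG {w : Finset ℕ} (hw : c.isQ w) : w ∈ c.LG := by
  have h1 : w ⊆ range c.q :=
    hw.2.trans (range_subset_range.mpr (by unfold Cx.q1 Cx.q; omega))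
  refine mem_subs.mpr ⟨h1, h1, ?_⟩
  rw [hw.1]; unfold Cx.l1 Cx.d; omega

theorem pEval_spec (hB : Bnd c E) {σ : St} {t : ℕ} {R : ℕ → ℕ} {r u : ℕ}
    (hT : Tab c E R r u σ) :
    WP E pEval (fun σ' t' => c.Out R r (σ.var 0) (σ'.var 0) ∧
      (c.cum R r c.LG.length ≤ c.Cn → ∀ w, c.isQ w → c.Hit R r u w → σ'.var 0 = 1) ∧
      t' ≤ t + (c.LG.length * (c.tHv + 8) + c.Cn * (c.tOne + 6) + 3)) σ t := by
  have hbig := hB.big
  have hlQ := hB.lQ
  have hls := hB.ls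
  have hτ := hB.τ1
  have hQ := c.Q_pos
  have hLG := LG_length_le c
  have hQ3 : 3 * c.Q ≤ E.Lim := le_trans (Nat.mul_le_mul_right _ (by omega)) hlQ
  have hl1 : c.l1 = 28000 * c.τ := rfl
  have hq : c.q = 219000 * c.τ := rfl
  set K := c.tOne + 6 with hK
  unfold pEval
  simp only [wp_blk_cons, wp_set, wp_blk_nil, Expr.safe, Expr.eval]
  refine ⟨by omega, ?_⟩
  refine wp_forT c.LG.length (fun j σ' t' => ∃ cn, σ'.var 46 = cn ∧ cn ≤ c.cum R r j ∧
      cn ≤ c.Cn ∧ Keeps c E R r u σ σ' ∧ c.Out R r (σ.var 0) (σ'.var 0) ∧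
      (c.cum R r c.LG.length ≤ c.Cn → ∀ a < j, c.isQ (c.LG.getD a ∅) →
        c.Hit R r u (c.LG.getD a ∅) → σ'.var 0 = 1) ∧
      t' ≤ t + 2 + j * (c.tHv + 8) + cn * K)
    [0, 22, 34, 35, 36, 37, 38, 39, 41, 42, 43, 44, 45, 46, 47, 48, 49, 50, 51, 52]
    [3, 13, 14, 15] false
    (by decide) (by decide) (by decide) (by decide) (by simp [hT.acc.pre.n1]) (by omega)
    (by omega)
    ⟨0, by simp, by simp, by simp, fun _ _ h => h, Or.inl (by simp), by simp, by simp⟩ ?_ ?_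
  · rintro j σ₁ t₁ hj hF₁ h33 ⟨cn₁, a1, a2, a3, aK, a4, a5, a6⟩
    have hT₁ := hT.keep (hF₁.of_setv (by decide)) (by decide) (by decide) aK
    have hP₁ := hT₁.acc.pre.par
    obtain ⟨e1, e2⟩ := hT₁.acc.pre.b1 j hj
    set w := c.LG.getD j ∅ with hw
    have hwm : w ⊆ range c.q ∧ w ⊆ range c.q ∧ w.card ≤ c.d := mem_subs.mp (getD_mem' ∅ hj)
    have hcard : w.card ≤ c.q := by simpa using card_le_card hwm.1
    have hcum : c.cum R r (j + 1) = c.cum R r j + c.qw R r w := by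
      rw [Cx.cum, sum_range_succ, ← Cx.cum]
    have two : j + j = 2 * j := by omega
    simp only [wp_blk_cons, wp_set, wp_ite, wp_skip, wp_blk_nil, Expr.safe, Expr.eval, BOp.safe,
      BOp.eval, St.setv_var, St.setv_bank, h33, two, e1, e2, hP₁.l1, hP₁.Q1, Nat.reduceEqDiff,
      if_true, if_false, true_and, and_true]
    refine ⟨by omega, by omega, fun h => ?_, fun h => ?_⟩
    · have hc : c.isQ w := by
        refine ⟨?_, bm_lt_iff.mp ?_⟩
        · split_ifs at h <;> first | omega | simp at h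
        · split_ifs at h <;> first | omega | simp at h
      set σ₂ := σ₁.setv 50 (bm w) with hσ₂
      have hF₂ : Frame [50] [] false σ₁ σ₂ := (Frame.refl _ _ _ σ₂).of_setv (by decide)
      have hT₂ := hT₁.keep hF₂ (by decide) (by decide) (Keeps.of_frame hF₂ (by decide))
      refine (pQuery_spec hB hT₂ hc (cn := cn₁) (by simp [hσ₂]) (by simp [hσ₂, a1]) a3).mono ?_
      rintro σ₃ t₃ ⟨cn₃, d1, d2, d3, dK, d4, d5, d6⟩
      have hqw : c.qw R r w = c.qlen R r w := if_pos hc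
      have d4' : c.Out R r (σ₁.var 0) (σ₃.var 0) := by simpa [hσ₂] using d4
      refine ⟨cn₃, d1, by omega, d3, ?_, a4.trans d4', fun h1 a ha haQ hh => ?_, ?_⟩
      · exact (aK.trans (Keeps.of_frame hF₂ (by decide))).trans dK
      · by_cases haj : a = j
        · subst haj
          refine d5 (le_trans ?_ h1) hh
          have m2 : c.cum R r (a + 1) ≤ c.cum R r c.LG.length :=
            sum_le_sum_of_subset (range_subset_range.mpr hj)
          omega
        · exact d4'.one (a5 h1 a (by omega) haQ hh)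
      · rw [← hK] at d6; rw [Nat.succ_mul]; omega
    · have hc : ¬ c.isQ w := by
        rintro ⟨h1, h2⟩
        rw [if_pos (by omega), if_pos (by omega), if_pos (bm_lt h2)] at h
        simp at h
      refine ⟨cn₁, a1, by omega, a3, aK, a4, fun h1 a ha haQ hh => ?_, ?_⟩
      · have : a ≠ j := by rintro rfl; exact hc haQ
        exact a5 h1 a (by omega) haQ hh
      · rw [Nat.succ_mul]; omega
  · rintro σ₁ t₁ - - ⟨cn₁, a1, a2, a3, aK, a4, a5, a6⟩
    refine ⟨a4, fun h1 w hw hh => ?_, ?_⟩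
    · obtain ⟨i, hi, rfl⟩ := exists_getD ∅ (isQ_mem_LG hw)
      exact a5 h1 i hi hw hh
    · have := Nat.mul_le_mul_right K a3
      omega

theorem pInst_spec (hB : Bnd c E) {σ : St} {t : ℕ} {R : ℕ → ℕ} {r u : ℕ}
    (hP : Pre c R r σ) (h40 : σ.var 40 = u) (hu : u < c.nI) :
    WP E pInst (fun σ' t' => c.Out R r (σ.var 0) (σ'.var 0) ∧
      (c.cum R r c.LG.length ≤ c.Cn → ∀ w, c.isQ w → c.Hit R r u w → σ'.var 0 = 1) ∧
      t' ≤ t + c.tInst) σ t := by
  unfold pInst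
  simp only [wp_blk_cons, wp_blk_nil]
  refine (pZero_spec hB hP.par).call [33] [12] false (by decide) ?_
  rintro σ₁ t₁ hF₁ ⟨a1, a2⟩
  have hP₁ := hP.frame hF₁ (by decide) (by decide)
  have e₁ := (hF₁.var 40 (by decide)).trans h40
  refine (pAcc_spec hB hP₁.par hP₁.b6 hP₁.b7 e₁ hu a1).call [33, 34, 35] [12] false
    (by decide) ?_
  rintro σ₂ t₂ hF₂ ⟨b1, b2⟩
  have hP₂ := hP₁.frame hF₂ (by decide) (by decide)
  have e₂ := (hF₂.var 40 (by decide)).trans e₁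
  have hA₂ : Acc c E R r u σ₂ := ⟨hP₂, e₂, hu, b1⟩
  refine (pGlob_spec hB hA₂).call
    [33, 34, 35, 36, 37, 38, 39, 41, 44] [13, 14, 15] false (by decide) ?_
  rintro σ₃ t₃ hF₃ ⟨d1, d2⟩
  have hA₃ := hA₂.frame hF₃ (by decide) (by decide)
  refine (pEval_spec hB ⟨hA₃, d1⟩).mono ?_
  rintro σ₅ t₅ ⟨g1, g2, g3⟩
  refine ⟨?_, g2, by unfold Cx.tInst; omega⟩
  rwa [hF₃.var 0 (by decide), hF₂.var 0 (by decide), hF₁.var 0 (by decide)] at g1

theorem pLoop_spec (hB : Bnd c E) {σ : St} {t : ℕ} {R : ℕ → ℕ} {r : ℕ} (hP : Pre c R r σ) :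
    WP E (forL 40 24 pInst) (fun σ' t' => c.Out R r (σ.var 0) (σ'.var 0) ∧
      (c.cum R r c.LG.length ≤ c.Cn → ∀ u < c.nI, ∀ w, c.isQ w → c.Hit R r u w →
        σ'.var 0 = 1) ∧ t' ≤ t + (c.nI * (c.tInst + 2) + 2)) σ t := by
  have hbig := hB.big
  have hls := hB.ls
  have hs := hB.τ1
  have hnI : c.nI = 131404 * c.τ := rfl
  refine wp_for c.nI c.tInst
    (fun m σ' => c.Out R r (σ.var 0) (σ'.var 0) ∧
      (c.cum R r c.LG.length ≤ c.Cn → ∀ u < m, ∀ w, c.isQ w → c.Hit R r u w → σ'.var 0 = 1))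
    [0, 22, 33, 34, 35, 36, 37, 38, 39, 41, 42, 43, 44, 45, 46, 47, 48, 49, 50, 51, 52]
    [3, 12, 13, 14, 15]
    false (by decide) (by decide) (by decide) (by decide) hP.par.nI (by omega) (by omega)
    ⟨Or.inl (by simp), by simp⟩ ?_ fun σ' t' _ hI ht => ⟨hI.1, hI.2, by omega⟩
  intro u σ₁ t₁ hu hF₁ h40 ⟨a1, a2⟩
  refine (pInst_spec hB (hP.frame hF₁ (by decide) (by decide)) h40 hu).mono ?_
  rintro σ₂ t₂ ⟨b1, b2, b3⟩
  refine ⟨⟨by simpa using a1.trans b1, fun h u' hu' w hw hh => ?_⟩, b3⟩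
  simp only [St.setv_var, Nat.reduceEqDiff, if_false]
  by_cases h1 : u' = u
  · subst h1; exact b2 h w hw hh
  · exact b1.one (a2 h u' (by omega) w hw hh)

end Pool.Agent.P.MP_8f87b2_lc.S2
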