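import Pool.Agent.P.MP_8f87b2_lc.S2.Numeric
import Pool.Agent.P.MP_8f87b2_lc.S2.Bounds

/-!
# The hypotheses of the probability estimate
-/

namespace Pool.Agent.P.MP_8f87b2_lc.S2

open Finset

variable {c : Cx}

theorem cube_le {t : ℕ} (ht : 100 ≤ t) : 2 ^ 60 * t ^ 3 ≤ 2 ^ t := by
  induction t, ht using Nat.le_induction with
  | base => norm_num
  | succ t ht ih =>
    have : (t + 1) ^ 3 ≤ 2 * t ^ 3 := by
      have h1 : 100 * (t * t) ≤ t * (t * t) := Nat.mul_le_mul_right _ ht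
      have h2 : 100 * t ≤ t * t := Nat.mul_le_mul_right _ ht
      nlinarith
    rw [pow_succ 2 t]
    omega

theorem poly_le {t : ℕ} (ht : 100 ≤ t) :
    100 * ((191625 * t + 1) * (27375 * t + 1) * (32000 * t)) ≤ 2 ^ t := by
  refine le_trans ?_ (cube_le ht)
  calc 100 * ((191625 * t + 1) * (27375 * t + 1) * (32000 * t))
      ≤ 100 * ((191626 * t) * (27376 * t) * (32000 * t)) := by gcongr <;> omega
    _ = 100 * 191626 * 27376 * 32000 * t ^ 3 := by ring
    _ ≤ _ := Nat.mul_le_mul_right _ (by norm_num)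

theorem good_hyp (hS : Sz c) (hx : ∀ i < c.n, 4 * |c.x i| ≤ c.V) {ia ib : ℕ} (ha : ia < c.n)
    (hb : ib < c.n) :
    2 * (c.M * c.V * c.M ^ c.nR) ≤ 3 * ∑ r ∈ range (c.M * c.V),
      num c.nR (Good c.q c.h c.O c.n c.Cn (gz c.M c.V r c.x) c.x ia ib) := by
  have hτ := hS.τ1
  have hn := hS.nN.le
  have hch : (2 * c.h).choose c.h ≤ 2 ^ (32000 * c.τ) :=
    (Nat.choose_le_two_pow _ _).trans (p2_le (by unfold Cx.h; omega))
  have hch2 : 2 ^ (32000 * c.τ) ≤ 32000 * c.τ * (2 * c.h).choose c.h := by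
    have := Nat.four_pow_le_two_mul_self_mul_centralBinom c.h (by unfold Cx.h; omega)
    rw [Nat.centralBinom_eq_two_mul_choose, show (4 : ℕ) = 2 ^ 2 from rfl, ← pow_mul] at this
    rwa [show 32000 * c.τ = 2 * c.h by unfold Cx.h; omega]
  refine good_count (O_ok c) c.x ha hb ?_ c.V_pos hx ?_ ?_ ?_ ?_ ?_ ?_
  · exact p2_le (a := 1) (by unfold Cx.k; omega)
  · exact (p2_add (p2_mul (a := 1) (by norm_num) (near_le c))
      (hch.trans (p2_le (by omega)))).trans (p2_le (by unfold Cx.k; omega))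
  · rw [card_Ev (O_ok c)]
    have h1 := Nat.mul_le_mul (O_lower c) hch2
    have h2 := poly_le hτ
    have h3 : c.M ^ 2 * 2 ^ c.τ = 2 ^ (131409 * c.τ) * 2 ^ (32000 * c.τ) := by
      rw [Cx.M, ← pow_mul, ← pow_add, ← pow_add]; congr 1; unfold Cx.k; omega
    have h0 : 0 < (191625 * c.τ + 1) * (27375 * c.τ + 1) * (32000 * c.τ) := by positivity
    refine Nat.le_of_mul_le_mul_right ?_ h0
    calc 100 * c.M ^ 2 * ((191625 * c.τ + 1) * (27375 * c.τ + 1) * (32000 * c.τ))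
        = c.M ^ 2 * (100 * ((191625 * c.τ + 1) * (27375 * c.τ + 1) * (32000 * c.τ))) := by
          ac_rfl
      _ ≤ c.M ^ 2 * 2 ^ c.τ := Nat.mul_le_mul_left _ h2
      _ ≤ _ := by rw [h3]; exact h1.trans (le_of_eq (by ac_rfl))
  · have h1 := p2_mul hn (O_upper c)
    have h2 : c.Cn * c.M = 64 * 2 ^ (65702 * c.τ + 131410 * c.τ) := by
      rw [Cx.Cn, Cx.M, mul_assoc, ← pow_add]; congr 2; unfold Cx.k; omega
    rw [h2, mul_assoc]
    exact Nat.mul_le_mul (by norm_num) h1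
  · unfold Cx.Cn; positivity
  · exact (p2_mul (a := 12) (by norm_num) hn).trans (p2_le (by unfold Cx.k; omega))
  · rw [card_Ev (O_ok c), Cx.M, ← pow_mul, sq]
    exact (p2_mul (p2_mul (p2_mul (a := 7) (by norm_num) (p2_mul (O_upper c) hch)) hch)
      (p2_mul hn hn)).trans (p2_le (by unfold Cx.k; omega))

end Pool.Agent.P.MP_8f87b2_lc.S2
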