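import Pool.Agent.P.MP_8f87b2_lc.S2.Ctx

/-!
# Computing the parameters
-/

namespace Pool.Agent.P.MP_8f87b2_lc.S2

open Finset

variable {E : Env} {c : Cx}

theorem pPow_spec {x e τ : ℕ} (hx : x ∉ [2, 30, 31]) {σ : St} {t : ℕ} (h2 : σ.var 2 = τ)
    (hτ : 1 ≤ τ) (hW : 2 * 2 ^ (e * τ) < E.W) :
    WP E (pPow x e) (fun σ' t' => σ'.var x = 2 ^ (e * τ) ∧ t' ≤ t + 3 * (e * τ) + 4) σ t := by
  simp only [List.mem_cons, List.not_mem_nil, or_false, not_or] at hx
  obtain ⟨-, x30, x31⟩ := hx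
  have h1 : e * τ < 2 ^ (e * τ) := Nat.lt_two_pow_self
  have h3 : e ≤ e * τ := Nat.le_mul_of_pos_right _ hτ
  unfold pPow
  simp only [wp_blk_cons, wp_set, wp_blk_nil, Expr.safe, Expr.eval, BOp.safe, BOp.eval, h2,
    true_and]
  refine ⟨⟨by omega, by omega⟩, by omega, ?_⟩
  refine wp_for (e * τ) 1 (fun k σ' => σ'.var x = 2 ^ k) [x] [] false
    (by simp [Stmt.Within, Stmt.wv, Stmt.wb, Stmt.rd]) (by simpa using fun h => x30 h.symm)
    (by simpa using fun h => x31 h.symm) (by decide)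
    (by simp [show (31 : ℕ) ≠ x from fun h => x31 h.symm]) (by omega) (by omega)
    (by simp [x30]) (fun k σ' t' hk _ _ hI => ?_) fun σ' t' _ hI ht => ⟨hI, by omega⟩
  have h4 : 2 ^ k ≤ 2 ^ (e * τ) := Nat.pow_le_pow_right (by norm_num) hk.le
  simp only [wp_set, Expr.safe, Expr.eval, BOp.safe, BOp.eval, St.setv_var, if_neg x30, if_true,
    true_and, hI, pow_succ]
  exact ⟨by omega, by omega, le_rfl⟩

theorem pSize_spec (hS : Sz c) (hn1 : E.n1 = c.n + 1) (hin : E.inp 0 = c.n)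
    (hW : 2 ^ (3000000 * c.τ) ≤ E.W) {σ : St} {t : ℕ} :
    WP E pSize (fun σ' t' => σ'.var 1 = c.n ∧ σ'.var 2 = c.τ ∧ t' ≤ t + 2 * c.τ) σ t := by
  have h1 : 3000000 * c.τ < E.W := lt_of_lt_of_le Nat.lt_two_pow_self hW
  have hτ := hS.τ1
  clear hW
  unfold pSize
  simp only [wp_blk_cons, wp_set, wp_blk_nil, Expr.safe, Expr.eval, hin]
  refine ⟨by omega, by omega, ?_⟩
  refine wp_while (fun σ' t' => ∃ i, 100 ≤ i ∧ i ≤ c.τ ∧ σ'.var 1 = c.n ∧ σ'.var 2 = i ∧
      t' + 198 = t + 2 * i) (fun σ' => c.τ - σ'.var 2) [2] [] false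
    (by simp [Stmt.Within, Stmt.wv, Stmt.wb, Stmt.rd]) ⟨100, by simp [hτ]⟩ ?_
  rintro σ' t' - ⟨i, h2, h3, v1, v2, ht⟩
  have he : (eshr (.v 1) (emul (.c 65702) (.v 2))).eval E σ' = c.n / 2 ^ (65702 * i) := by
    simp only [Expr.eval, BOp.eval, v1, v2, Nat.shiftRight_eq_div_pow]
  rw [he]
  refine ⟨?_, fun hc => ?_, fun hc => ?_⟩
  · simp only [Expr.safe, Expr.eval, BOp.safe, v2, true_and, and_true]
    omega
  · have hlt : i < c.τ := by
      by_contra h
      obtain rfl : i = c.τ := by omega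
      exact hc (Nat.div_eq_of_lt hS.nN)
    simp only [wp_set, Expr.safe, Expr.eval, BOp.safe, BOp.eval, St.setv_var, Nat.reduceEqDiff,
      if_true, if_false, true_and, v1, v2]
    exact ⟨by omega, ⟨i + 1, by omega, hlt, rfl, by omega⟩, by omega⟩
  · have : i = c.τ := by
      by_contra h
      exact (Nat.div_pos (hS.smin i h2 (by omega)) (by positivity)).ne' hc
    exact ⟨v1, v2.trans this, by omega⟩

theorem setup (hS : Sz c) (hn1 : E.n1 = c.n + 1) (hin : E.inp 0 = c.n)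
    (hW : 2 ^ (3000000 * c.τ) ≤ E.W) {σ : St} {t : ℕ} :
    WP E pSetup (fun σ' t' => Par c σ' ∧ t' ≤ t + 6000000 * c.τ) σ t := by
  have hτ := hS.τ1
  have h1 : 3000000 * c.τ < E.W := lt_of_lt_of_le Nat.lt_two_pow_self hW
  have lt : ∀ a, a + 8 ≤ 3000000 * c.τ → 128 * 2 ^ a < E.W := fun a ha =>
    calc 128 * 2 ^ a = 2 ^ (a + 7) := by rw [pow_add]; omega
      _ < 2 ^ (3000000 * c.τ) := Nat.pow_lt_pow_right (by norm_num) (by omega)
      _ ≤ _ := hW
  have lt2 : ∀ a, a ≤ 2999999 → 2 * 2 ^ (a * c.τ) < E.W := fun a ha => by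
    have h2 := Nat.mul_le_mul_right c.τ ha
    have := lt (a * c.τ) (by omega)
    omega
  have bMV : c.M * c.V < E.W := by
    have := lt (c.k + c.v) (by unfold Cx.k Cx.v; omega)
    rw [c.MV]; omega
  have bT3 : c.T * c.T * c.T < E.W := by
    have := lt (700000 * c.τ + 700000 * c.τ + 700000 * c.τ) (by omega)
    rw [pow_add, pow_add] at this
    unfold Cx.T; omega
  have hT := c.T_pos
  have bT2 : c.T * c.T ≤ c.T * c.T * c.T := Nat.le_mul_of_pos_right _ hT
  have e3 : 0 < c.T * c.T * c.T := by positivity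
  have eV : 4 * 2 ^ (262808 * c.τ) = c.V := by unfold Cx.V Cx.v; rw [pow_add]; omega
  have bV : c.V < E.W := by
    have := lt (262808 * c.τ) (by omega)
    omega
  have bC : c.Cn < E.W := by
    have := lt (115408 * c.τ) (by omega)
    unfold Cx.Cn; omega
  have bM : 2 * c.M < E.W := lt2 81704 (by norm_num)
  have hQ := c.Q_pos
  have hq : c.q1 ≤ c.q := by unfold Cx.q1 Cx.q; omega
  have hQ1 : 2 ^ c.q1 ≤ c.Q := Nat.pow_le_pow_right (by norm_num) hq
  have f1 : c.Q - 1 = bm (range c.q) := by have := bm_range c.q; unfold Cx.Q; omega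
  have f2 : c.Q - 2 ^ c.q1 = bm (Ico c.q1 c.q) := by have := bm_Ico hq; unfold Cx.Q; omega
  have one : 1 ≤ c.τ := by omega
  unfold pSetup
  rw [wp_blk_cons]
  refine (pSize_spec hS hn1 hin hW).mono ?_
  rintro σ₁ t₁ ⟨a1, a2, ht₁⟩
  rw [wp_blk_cons]
  refine (pPow_spec (by decide) a2 one (lt2 _ (by norm_num))).call [31, 4, 30] [] false
    (by decide) ?_
  rintro σ₂ t₂ F₂ ⟨a4, ht₂⟩
  replace a1 := (F₂.var 1 (by decide)).trans a1
  replace a2 := (F₂.var 2 (by decide)).trans a2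
  rw [wp_blk_cons]
  refine (pPow_spec (by decide) a2 one (lt2 _ (by norm_num))).call [31, 5, 30] [] false
    (by decide) ?_
  rintro σ₃ t₃ F₃ ⟨a5, ht₃⟩
  replace a1 := (F₃.var 1 (by decide)).trans a1
  replace a2 := (F₃.var 2 (by decide)).trans a2
  replace a4 := (F₃.var 4 (by decide)).trans a4
  rw [wp_blk_cons]
  refine (pPow_spec (by decide) a2 one (lt2 _ (by norm_num))).call [31, 6, 30] [] false
    (by decide) ?_
  rintro σ₄ t₄ F₄ ⟨a6, ht₄⟩
  replace a1 := (F₄.var 1 (by decide)).trans a1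
  replace a2 := (F₄.var 2 (by decide)).trans a2
  replace a4 := (F₄.var 4 (by decide)).trans a4
  replace a5 := (F₄.var 5 (by decide)).trans a5
  rw [wp_blk_cons]
  refine (pPow_spec (by decide) a2 one (lt2 _ (by norm_num))).call [31, 8, 30] [] false
    (by decide) ?_
  rintro σ₅ t₅ F₅ ⟨a8, ht₅⟩
  replace a1 := (F₅.var 1 (by decide)).trans a1
  replace a2 := (F₅.var 2 (by decide)).trans a2
  replace a4 := (F₅.var 4 (by decide)).trans a4
  replace a5 := (F₅.var 5 (by decide)).trans a5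
  replace a6 := (F₅.var 6 (by decide)).trans a6
  rw [wp_blk_cons]
  refine (pPow_spec (by decide) a2 one (lt2 _ (by norm_num))).call [31, 10, 30] [] false
    (by decide) ?_
  rintro σ₆ t₆ F₆ ⟨a10, ht₆⟩
  replace a1 := (F₆.var 1 (by decide)).trans a1
  replace a2 := (F₆.var 2 (by decide)).trans a2
  replace a4 := (F₆.var 4 (by decide)).trans a4
  replace a5 := (F₆.var 5 (by decide)).trans a5
  replace a6 := (F₆.var 6 (by decide)).trans a6
  replace a8 := (F₆.var 8 (by decide)).trans a8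
  rw [wp_blk_cons]
  refine (pPow_spec (by decide) a2 one (lt2 _ (by norm_num))).call [31, 17, 30] [] false
    (by decide) ?_
  rintro σ₇ t₇ F₇ ⟨a17, ht₇⟩
  replace a1 := (F₇.var 1 (by decide)).trans a1
  replace a2 := (F₇.var 2 (by decide)).trans a2
  replace a4 : σ₇.var 4 = c.Q := (F₇.var 4 (by decide)).trans a4
  replace a5 : σ₇.var 5 = 2 ^ c.q1 := (F₇.var 5 (by decide)).trans a5
  replace a6 : σ₇.var 6 = c.M := (F₇.var 6 (by decide)).trans a6
  replace a8 := (F₇.var 8 (by decide)).trans a8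
  replace a10 : σ₇.var 10 = c.T := (F₇.var 10 (by decide)).trans a10
  have eC : 64 * 2 ^ (115408 * c.τ) = c.Cn := rfl
  simp only [wp_blk_cons, wp_blk_nil, wp_set, Expr.safe, Expr.eval, BOp.safe, BOp.eval,
    St.setv_var, Nat.reduceEqDiff, if_true, if_false, true_and, a2, a4, a5, a6, a8, a10, a17,
    eV, eC]
  clear lt lt2 hW eV eC
  refine ⟨by omega, by omega, by omega, by omega, by omega, by omega, by omega, by omega,
    by omega, by omega, by omega, by omega, by omega, by omega, by omega, by omega, by omega,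
    ?_, by omega⟩
  constructor <;>
    simp only [St.setv_var, Nat.reduceEqDiff, if_true, if_false, a1, a2, a4, a5, a6, a10, f1, f2,
      Cx.q, Cx.v, Cx.l1, Cx.l2, Cx.h, Cx.d, Cx.nR, Cx.s1, Cx.nI, pow_succ, pow_zero, one_mul]

end Pool.Agent.P.MP_8f87b2_lc.S2
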