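import Pool.Agent.P.MP_8f87b2_lc.S2.Eval
import Pool.Agent.P.MP_8f87b2_lc.S2.Setup
import Pool.Agent.P.MP_8f87b2_lc.S2.Bucket
import Pool.Agent.P.MP_8f87b2_lc.Compile

/-!
# The specification of the whole program
-/

namespace Pool.Agent.P.MP_8f87b2_lc.S2

open Finset

variable {E : Env} {c : Cx}

theorem pMain_spec (hS : Sz c) (hB : Bnd c E) (hin : E.inp 0 = c.n)
    (hW : 2 ^ (3000000 * c.τ) ≤ E.W) :
    WP E pMain (fun σ' t' => ∃ R : ℕ → ℕ,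
      (∀ i < c.nR, R i = bits E.ω (c.k + c.v + i * c.k) c.k) ∧
      c.Out R (bits E.ω 0 (c.k + c.v)) 0 (σ'.var 0) ∧
      (c.cum R (bits E.ω 0 (c.k + c.v)) c.LG.length ≤ c.Cn → ∀ u < c.nI, ∀ w, c.isQ w →
        c.Hit R (bits E.ω 0 (c.k + c.v)) u w → σ'.var 0 = 1) ∧
      t' ≤ c.tAll) St.zero 0 := by
  unfold pMain
  simp only [wp_blk_cons, wp_blk_nil]
  refine (setup hS hB.n1 hin hW).call
    [1, 2, 3, 4, 5, 6, 8, 9, 10, 11, 12, 13, 14, 15, 16, 17, 18, 21, 23, 24, 25, 26, 27, 30, 31]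
    [] false (by decide) ?_
  rintro σ₁ t₁ hF₁ ⟨hP₁, a1⟩
  refine (pWord_spec (k := c.k + c.v) (by decide) (by decide) (by decide) (c.MV ▸ hP₁.Wd)
    (c.MV ▸ hB.lWd)).call [19, 30, 31] [] true (by decide) ?_
  rintro σ₂ t₂ hF₂ ⟨b1, b2, b3⟩
  have hP₂ := hP₁.frame hF₂ (by decide)
  have p₁ : σ₁.pos = 0 := hF₁.pos rfl
  rw [p₁] at b1
  rw [p₁, zero_add] at b2
  refine (pRead_spec hB hP₂).call [33, 32, 30, 31] [0] true (by decide) ?_
  rintro σ₃ t₃ hF₃ ⟨d1, d2⟩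
  have hP₃ := hP₂.frame hF₃ (by decide)
  rw [b2] at d1
  have hR : ∀ i < c.nR, σ₃.bank 0 i < c.M := fun i hi => by rw [d1 i hi]; exact bits_lt _ _ _
  refine (pSubs_spec hB (by decide) (by decide) (by decide) hP₃.q Subset.rfl hP₃.full
    hP₃.d).call [20, 44, 45, 47, 48] [1] false (by decide) ?_
  rintro σ₄ t₄ hF₄ ⟨e1, e2, e3⟩
  have hP₄ := hP₃.frame hF₄ (by decide)
  refine (pSubs_spec hB (by decide) (by decide) (by decide) hP₄.q
    (fun a ha => mem_range.2 (mem_Ico.1 ha).2) hP₄.upper hP₄.l2).call [7, 44, 45, 47, 48] [2]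
    false (by decide) ?_
  rintro σ₅ t₅ hF₅ ⟨f1, f2, f3⟩
  have hP₅ := hP₄.frame hF₅ (by decide)
  refine (pHash_spec hB hP₅).call [33, 34] [6, 7] false (by decide) ?_
  rintro σ₆ t₆ hF₆ ⟨h1, h2⟩
  have hP₆ := hP₅.frame hF₆ (by decide)
  have e19 : σ₅.var 19 = bits E.ω 0 (c.k + c.v) := by
    rw [hF₅.var 19 (by decide), hF₄.var 19 (by decide), hF₃.var 19 (by decide), b1]
  rw [e19] at h1
  have e0 : σ₆.bank 0 = σ₃.bank 0 := by
    rw [hF₆.bank 0 (by decide), hF₅.bank 0 (by decide), hF₄.bank 0 (by decide)]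
  have l2 : LstAt 2 c.LU σ₆ := by
    unfold LstAt
    rw [hF₆.bank 2 (by decide)]
    exact f2
  refine (pList_spec hB hP₆ e0 hR (fun i hi => (h1 i hi).1) ((hF₆.var 7 (by decide)).trans f1) l2
    fun v => by
      rw [hF₆.bank 8 (by decide), hF₅.bank 8 (by decide), hF₄.bank 8 (by decide),
        hF₃.bank 8 (by decide), hF₂.bank 8 (by decide), hF₁.bank 8 (by decide)]
      rfl).call [55, 33, 50, 34, 35, 37, 36, 57, 53, 54, 56] [8, 9, 10, 11] false (by decide) ?_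
  rintro σ₇ t₇ hF₇ ⟨k1, k2⟩
  have hPre : Pre c (σ₃.bank 0) (bits E.ω 0 (c.k + c.v)) σ₇ := by
    refine ⟨hP₆.frame hF₇ (by decide), ?_, ?_, hR, ?_, ?_, ?_, k1⟩
    · rw [hF₇.var 20 (by decide), hF₆.var 20 (by decide), hF₅.var 20 (by decide), e1]
      rfl
    · rw [hF₇.bank 0 (by decide), e0]
    · unfold LstAt
      rw [hF₇.bank 1 (by decide), hF₆.bank 1 (by decide), hF₅.bank 1 (by decide)]
      exact e2
    · rw [hF₇.bank 6 (by decide)]
      exact fun i hi => (h1 i hi).1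
    · rw [hF₇.bank 7 (by decide)]
      exact fun i hi => (h1 i hi).2
  refine (pLoop_spec hB hPre).mono ?_
  rintro σ₈ t₈ ⟨m1, m2, m3⟩
  refine ⟨σ₃.bank 0, d1, ?_, m2, ?_⟩
  · rwa [hF₇.var 0 (by decide), hF₆.var 0 (by decide), hF₅.var 0 (by decide),
      hF₄.var 0 (by decide), hF₃.var 0 (by decide), hF₂.var 0 (by decide),
      hF₁.var 0 (by decide)] at m1
  · change t₄ ≤ t₃ + c.tSubs c.LG.length at e3
    change t₅ ≤ t₄ + c.tSubs c.G at f3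
    unfold Cx.tAll
    omega

end Pool.Agent.P.MP_8f87b2_lc.S2
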