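import Pool.Agent.P.MP_8f87b2_lc.S2.Numeric
import Pool.Agent.P.MP_8f87b2_lc.S2.Bounds

/-!
# The running time
-/

namespace Pool.Agent.P.MP_8f87b2_lc.S2

open Finset

variable {c : Cx}

theorem tAll_le (hS : Sz c) : c.tAll ≤ 10 ^ 30 * c.τ ^ 2 * 2 ^ (126208 * c.τ) := by
  have hτ := hS.τ1
  have hn := hS.nN.le
  have q1 := LG_le c
  have q2 : c.Cn * c.Lb ≤ 2 ^ (126208 * c.τ) :=
    (p2_mul (p2_mul (a := 6) (by norm_num) le_rfl) (Lb_le c)).trans (p2_le (by omega))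
  have q3 : c.Cn ≤ 2 ^ (126208 * c.τ) :=
    (p2_mul (a := 6) (by norm_num) le_rfl).trans (p2_le (by omega))
  have q4 : c.M ≤ 2 ^ (126208 * c.τ) := p2_le (by unfold Cx.k; omega)
  have q5 : c.n ≤ 2 ^ (126208 * c.τ) := hn.trans (p2_le (by omega))
  have q6 : c.G ≤ 2 ^ (126208 * c.τ) := (G_le c).trans (p2_le (by omega))
  have q7 : c.G * c.n ≤ 2 ^ (126208 * c.τ) := (p2_mul (G_le c) hn).trans (p2_le (by omega))
  have q0 : 1 ≤ 2 ^ (126208 * c.τ) := Nat.one_le_two_pow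
  generalize 2 ^ (126208 * c.τ) = B at *
  have a0 : B ≤ c.τ * B := Nat.le_mul_of_pos_left _ (by omega)
  have a1 : c.τ * c.LG.length ≤ c.τ * B := Nat.mul_le_mul_left _ q1
  have a2 : c.τ * (c.Cn * c.Lb) ≤ c.τ * B := Nat.mul_le_mul_left _ q2
  have a3 : c.τ * c.Cn ≤ c.τ * B := Nat.mul_le_mul_left _ q3
  have a6 : c.τ * c.G ≤ c.τ * B := Nat.mul_le_mul_left _ q6
  have a7 : c.τ ≤ c.τ * B := Nat.le_mul_of_pos_right _ q0
  have hI : c.tInst + 2 ≤ 10 ^ 9 * (c.τ * B) := by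
    unfold Cx.tInst Cx.tOne Cx.tSubs Cx.tRow Cx.tHv Cx.q
    linarith
  have b0 : c.τ * B ≤ c.τ * (c.τ * B) := Nat.le_mul_of_pos_left _ (by omega)
  have b1 : c.nI * (c.tInst + 2) ≤ 131404 * c.τ * (10 ^ 9 * (c.τ * B)) :=
    Nat.mul_le_mul_left _ hI
  have b2 : c.τ * c.τ ≤ c.τ * (c.τ * B) := Nat.mul_le_mul_left _ a7
  unfold Cx.tAll Cx.tList Cx.tSubs Cx.tHv Cx.nR Cx.q Cx.k Cx.v
  linarith

theorem time_real : ∃ C : ℝ, ∀ c : Cx, Sz c →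
    (c.tAll : ℝ) ≤ C * ((c.n : ℝ) ^ (((1921 / 1000 : ℚ)) : ℝ) + 1) := by
  obtain ⟨Λ, hΛ⟩ : ∃ Λ : ℝ, Λ = 2 ^ (126210 : ℕ) := ⟨_, rfl⟩
  have hΛ1 : 1 ≤ Λ := hΛ ▸ one_le_pow₀ (by norm_num)
  refine ⟨10 ^ 30 * Λ ^ 100, fun c hS => ?_⟩
  rw [show (((1921 / 1000 : ℚ)) : ℝ) = 1921 / 1000 by norm_num]
  have h1 : c.tAll ≤ 10 ^ 30 * 2 ^ (126210 * c.τ) := by
    refine (tAll_le hS).trans ?_
    rw [mul_assoc, sq]
    exact Nat.mul_le_mul_left _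
      ((p2_mul (p2_mul (p2_self _) (p2_self _)) le_rfl).trans (p2_le (by omega)))
  have h2 : (c.tAll : ℝ) ≤ 10 ^ 30 * Λ ^ c.τ := by
    rw [hΛ, ← pow_mul]; exact_mod_cast h1
  have h0 : (0 : ℝ) ≤ (c.n : ℝ) ^ (1921 / 1000 : ℝ) := by positivity
  refine h2.trans ?_
  rw [mul_assoc]
  refine mul_le_mul_of_nonneg_left ?_ (by positivity)
  rcases Nat.lt_or_ge 100 c.τ with h | h
  · obtain ⟨s, hs⟩ : ∃ s, c.τ = s + 1 := ⟨c.τ - 1, by omega⟩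
    have h3 : (2 : ℝ) ^ (65702 * s) ≤ c.n := by exact_mod_cast hS.smin s (by omega) (by omega)
    have h4 : Λ ^ s ≤ (c.n : ℝ) ^ (1921 / 1000 : ℝ) := by
      refine le_trans ?_ (Real.rpow_le_rpow (by positivity) h3 (by norm_num))
      rw [hΛ, ← pow_mul, ← Real.rpow_natCast, ← Real.rpow_natCast, ← Real.rpow_mul (by norm_num)]
      refine Real.rpow_le_rpow_of_exponent_le (by norm_num) ?_
      push_cast
      have : (0 : ℝ) ≤ s := Nat.cast_nonneg _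
      linarith
    rw [hs, pow_succ']
    exact mul_le_mul (le_self_pow₀ hΛ1 (by norm_num)) (by linarith) (by positivity)
      (by positivity)
  · exact (pow_le_pow_right₀ hΛ1 h).trans (le_mul_of_one_le_right (by positivity) (by linarith))

end Pool.Agent.P.MP_8f87b2_lc.S2
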