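import Pool.Agent.P.MP_8f87b2_lc.Final
import Pool.Agent.P.MP_8f87b2_lc.S2.Main
import Pool.Agent.P.MP_8f87b2_lc.S2.Time
import Pool.Agent.P.MP_8f87b2_lc.S2.Complete
import Pool.Agent.P.MP_8f87b2_lc.S2.GoodHyp

/-!
# The final theorem
-/

namespace Pool.Agent.P.MP_8f87b2_lc.S2

open Finset MeasureTheory

theorem decides : DecidesInTime (1921 / 1000) := by
  obtain ⟨C, hC⟩ := time_real
  refine ⟨program pMain, 300000000, ⌈pMain.K * C + 4⌉₊, fun xs hv w hw => ?_⟩
  obtain ⟨c, hn, hx, hS⟩ := exists_Sz xs.length fun i => xs.getD i 0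
  have hs := hS.τ1
  have hsw : 3000000 * c.τ ≤ w := by
    refine le_trans ?_ hw
    rcases Nat.lt_or_ge 100 c.τ with h | h
    · have h1 := hS.smin (c.τ - 1) (by omega) (by omega)
      have h3 := Nat.le_log_of_pow_le (b := 2) (by norm_num) h1
      rw [hn] at h3
      omega
    · omega
  have hW : 2 ^ (3000000 * c.τ) ≤ 2 ^ w := Nat.pow_le_pow_right (by norm_num) hsw
  have hB : ∀ ω, Bnd c (envOf w (2 ^ (1000000 * c.τ)) xs ω) := fun ω =>
    bnd hS rfl hsw rfl (by rw [hn]; rfl) (fun i _ => by simp [envOf, start, hx]) fun i hi => by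
      rw [hn] at hi ⊢
      rw [hx]
      exact hv.2 _ (by simp [hi])
  have hB0 := hB fun _ => false
  have hbig : 2000 * 2 ^ (1000000 * c.τ) < 2 ^ w := hB0.big
  have hln : c.n + 1 ≤ 2 ^ (1000000 * c.τ) := hB0.ln
  have main : ∀ ω, (program pMain).length ≤
      (run w (program pMain) ω xs (pMain.K * c.tAll + 4)).pc ∧
      ∃ R : ℕ → ℕ, (∀ i < c.nR, R i = bits ω (c.k + c.v + i * c.k) c.k) ∧
      c.Out R (bits ω 0 (c.k + c.v)) 0
        ((run w (program pMain) ω xs (pMain.K * c.tAll + 4)).reg 0) ∧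
      (c.cum R (bits ω 0 (c.k + c.v)) c.LG.length ≤ c.Cn → ∀ u < c.nI, ∀ e, c.isQ e →
        c.Hit R (bits ω 0 (c.k + c.v)) u e →
        (run w (program pMain) ω xs (pMain.K * c.tAll + 4)).reg 0 = 1) := by
    intro ω
    obtain ⟨σ', t, hx', R, h1, h2, h3, h4⟩ := pMain_spec hS (hB ω)
      (by simp only [envOf, start, if_true]; rw [← hn]; exact Nat.mod_eq_of_lt (by omega)) hW
    obtain ⟨p1, p2⟩ := program_ok (T := pMain.K * c.tAll + 4) (by decide)
      (by omega) (by omega) hx' (Nat.add_le_add_right (Nat.mul_le_mul_left _ (by omega)) _)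
    rw [p2]
    exact ⟨p1, R, h1, h2, h3⟩
  refine ⟨pMain.K * c.tAll + 4, ?_, fun ω => (main ω).1, ?_⟩
  · have h1 := hC c hS
    rw [hn] at h1
    have h2 : (0 : ℝ) ≤ (xs.length : ℝ) ^ ((1921 / 1000 : ℚ) : ℝ) := by positivity
    have h3 := mul_le_mul_of_nonneg_left h1 (Nat.cast_nonneg (α := ℝ) pMain.K)
    refine le_trans ?_ (mul_le_mul_of_nonneg_right (Nat.le_ceil _) (by linarith))
    rw [Nat.cast_add, Nat.cast_mul, Nat.cast_ofNat]
    linarith
  by_cases hy : IsYes xs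
  · obtain ⟨a, ha, b, hb, i, hi, n1, n2, n3, h0⟩ := (isYes_iff xs).mp hy
    rw [← hn] at ha hb hi
    obtain ⟨u, hu, ia, ha', ib, hb', ic, hc', h0', c1, c2, c3, s1, s2⟩ :=
      exists_split hS ha hb hi n1 n2 n3 (by
        rw [hn] at ha hb
        rw [hx]
        simpa [ha, hb, hv.1.getElem_inj_iff] using n1) (by rw [hx]; exact h0)
    have hg := good_hyp hS hB0.xV ha' hb'
    rw [c.MV] at hg
    refine (tape_bound (M := c.M) (k := c.k) rfl
      (fun r => Good c.q c.h c.O c.n c.Cn (gz c.M c.V r c.x) c.x ia ib) hg).trans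
      (measure_mono fun ω hω => ?_)
    obtain ⟨-, R, h1, -, h3⟩ := main ω
    obtain ⟨k1, e, he, k2⟩ := complete (R := R) (fun i hi => by
      rw [h1 i hi]; simp [words, MP_8f87b2_lc.ext, hi]) hS hB0.xV
      (fun i hi => by rw [h1 i hi]; exact bits_lt _ _ _) ha' hb' hc' h0' c1 c2 c3 s1 s2 hω
    simp [h3 k1 u hu e he k2, hy]
  · have : {ω | (run w (program pMain) ω xs (pMain.K * c.tAll + 4)).reg 0 ≠ 0 ↔ IsYes xs} =
        Set.univ := by
      refine Set.eq_univ_of_forall fun ω => ?_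
      obtain ⟨-, R, -, h2, -⟩ := main ω
      rcases h2 with h2 | h2
      · simp [h2, hy]
      · exfalso
        have := sound hS hB0.xV h2.2
        rw [hn, hx] at this
        exact hy ((isYes_iff xs).mpr this)
    rw [this, measure_univ]
    exact ENNReal.div_le_of_le_mul (by norm_num)

end Pool.Agent.P.MP_8f87b2_lc.S2
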