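import Pool.Agent.P.MP_8f87b2_lc.S2.Ctx

/-!
# Value and size of a set
-/

namespace Pool.Agent.P.MP_8f87b2_lc.S2

open Finset

variable {E : Env} {c : Cx}

theorem pHv_spec (hB : Bnd c E) {x : ℕ} (hx : x ∉ [34, 35, 37]) {σ : St} {t : ℕ} (hP : Par c σ)
    {R : ℕ → ℕ} (hR0 : σ.bank 0 = R) (hR : ∀ i < c.nR, R i < c.M) {w : Finset ℕ}
    (hw : w ⊆ range c.q) (hv : σ.var x = bm w) :
    WP E (pHv x) (fun σ' t' => σ'.var 34 = c.Hn R w ∧ σ'.var 35 = w.card ∧
      t' ≤ t + c.tHv) σ t := by
  have hbig := hB.big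
  have hlM := hB.lM
  have hls := hB.ls
  have hτ := hB.τ1
  have hM := c.M_pos
  have hq : c.q = 219000 * c.τ := rfl
  have hnR : c.nR = c.q + 2 := rfl
  have hT : c.tHv = c.q * 5 + 4 := rfl
  simp only [List.mem_cons, List.not_mem_nil, or_false, not_or] at hx
  obtain ⟨x1, x2, x3⟩ := hx
  unfold pHv
  simp only [wp_blk_cons, wp_set, wp_blk_nil, Expr.safe, Expr.eval]
  refine ⟨by omega, by omega, ?_⟩
  refine wp_for c.q 3
    (fun u σ' => σ'.var 34 = Hs R (w.filter (· < u)) % c.M ∧ σ'.var 35 = (w.filter (· < u)).card)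
    [34, 35] [] false (by simp [Stmt.Within, blk, Stmt.wv, Stmt.wb, Stmt.rd]) (by decide)
    (by decide) (by decide) (by simp [hP.q]) (by omega) (by omega) (by simp [Hs]) ?_ ?_
  · intro u σ₂ t₂ hu hF hiu ⟨h34, h35⟩
    have hx2 : σ₂.var x = bm w := by rw [hF.var x (by simp [x1, x2, x3])]; simp [x1, x2, hv]
    have h6 : σ₂.var 6 = c.M := by rw [hF.var 6 (by decide)]; simp [hP.M]
    have hb : σ₂.bank 0 = R := by rw [hF.bank 0 (by decide)]; simp [hR0]
    have h1 := hR u (by omega)
    have h2 : Hs R (w.filter (· < u)) % c.M < c.M := Nat.mod_lt _ hM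
    have h3 : (w.filter (· < u)).card ≤ u := by
      simpa using card_le_card (t := range u) (s := w.filter (· < u))
        fun a ha => mem_range.2 (mem_filter.1 ha).2
    have hs := bm_shift w u
    rw [wp_ite]
    by_cases hm : u ∈ w
    · have e : w.filter (· < u + 1) = insert u (w.filter (· < u)) := by
        ext a
        simp only [mem_filter, mem_insert]
        constructor
        · rintro ⟨a1, a2⟩
          by_cases h : a = u
          exacts [Or.inl h, Or.inr ⟨a1, by omega⟩]
        · rintro (rfl | ⟨a1, a2⟩)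
          exacts [⟨hm, by omega⟩, ⟨a1, by omega⟩]
      have e0 : u ∉ w.filter (· < u) := by simp
      have e1 : Hs R (w.filter (· < u + 1)) = Hs R (w.filter (· < u)) + R u := by
        rw [e, Hs, sum_insert e0, add_comm, Hs]
      have e2 : (w.filter (· < u + 1)).card = (w.filter (· < u)).card + 1 := by
        rw [e, card_insert_of_notMem e0]
      rw [if_pos hm] at hs
      rw [e1, e2]
      simp only [wp_blk_cons, wp_set, wp_blk_nil]
      simp [hx2, h6, hb, hiu, h34, h35, c.and_M, Nat.and_one_is_mod, hs]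
      omega
    · have e : w.filter (· < u + 1) = w.filter (· < u) := by
        refine filter_congr fun a ha => ?_
        have : a ≠ u := fun h => hm (h ▸ ha)
        omega
      rw [if_neg hm] at hs
      rw [e]
      simp [hx2, hiu, h34, h35, Nat.and_one_is_mod, hs]
      omega
  · intro σ₂ t₂ _ ⟨h34, h35⟩ ht
    rw [filter_true_of_mem fun a ha => mem_range.1 (hw ha)] at h34 h35
    exact ⟨h34, h35, by omega⟩

end Pool.Agent.P.MP_8f87b2_lc.S2
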