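import Pool.Agent.P.MP_8f87b2_lc.S2.Outs

/-!
# Binomial estimates for the chosen parameters
-/

namespace Pool.Agent.P.MP_8f87b2_lc.S2

open Finset

theorem num1 : 219 ^ 219000 ≤ 2 ^ 131410 * (32 ^ 32000 * 187 ^ 187000) := by decide +kernel
theorem num2 : 2 ^ 131409 * (32 ^ 32000 * 187 ^ 187000) ≤ 219 ^ 219000 := by decide +kernel
theorem num3 : 203 ^ 203000 ≤ 2 ^ 80900 * (16 ^ 16000 * 187 ^ 187000) := by decide +kernel
theorem num4 : 73 ^ 219000 ≤ 2 ^ 126208 * (10 ^ 30000 * 63 ^ 189000) := by decide +kernel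
theorem num5 : 16 ^ 32000 ≤ 2 ^ 10794 * (1 ^ 2000 * 15 ^ 30000) := by decide +kernel

theorem pow_up {a b c n k m p : ℕ} (h : a ^ n ≤ 2 ^ p * (b ^ k * c ^ m)) (τ : ℕ) :
    a ^ (n * τ) ≤ 2 ^ (p * τ) * (b ^ (k * τ) * c ^ (m * τ)) := by
  rw [pow_mul, pow_mul, pow_mul, pow_mul, ← mul_pow, ← mul_pow]
  exact Nat.pow_le_pow_left h τ

theorem pow_down {a b c n k m p : ℕ} (h : 2 ^ p * (b ^ k * c ^ m) ≤ a ^ n) (τ : ℕ) :
    2 ^ (p * τ) * (b ^ (k * τ) * c ^ (m * τ)) ≤ a ^ (n * τ) := by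
  rw [pow_mul, pow_mul, pow_mul, pow_mul, ← mul_pow, ← mul_pow]
  exact Nat.pow_le_pow_left h τ

theorem cancel_le {X Y Z P : ℕ} (hP : 0 < P) (h1 : X * P ≤ Z) (h2 : Z ≤ Y * P) : X ≤ Y :=
  Nat.le_of_mul_le_mul_right (h1.trans h2) hP

theorem O_upper (c : Cx) : c.O.card ≤ 2 ^ (131410 * c.τ) := by
  have h1 := choose_mul_le (n := 191625 * c.τ) (m := 28000 * c.τ) 32 187 (by omega)
  have h2 := choose_mul_le (n := 27375 * c.τ) (m := 4000 * c.τ) 32 187 (by omega)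
  have h3 := Nat.mul_le_mul h1 h2
  refine cancel_le (by positivity) ?_ (pow_up num1 c.τ)
  rw [card_O, show 219000 * c.τ = 191625 * c.τ + 27375 * c.τ by ring,
    show 32000 * c.τ = 28000 * c.τ + 4000 * c.τ by ring,
    show 187000 * c.τ = (191625 * c.τ - 28000 * c.τ) + (27375 * c.τ - 4000 * c.τ) by omega,
    pow_add, pow_add, pow_add]
  refine le_trans (le_of_eq ?_) h3
  ac_rfl

theorem O_lower (c : Cx) :
    2 ^ (131409 * c.τ) ≤ (191625 * c.τ + 1) * (27375 * c.τ + 1) * c.O.card := by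
  have h1 := le_choose_mul 32 187 (875 * c.τ)
  have h2 := le_choose_mul 32 187 (125 * c.τ)
  rw [show (32 + 187) * (875 * c.τ) = 191625 * c.τ by ring,
    show 32 * (875 * c.τ) = 28000 * c.τ by ring] at h1
  rw [show (32 + 187) * (125 * c.τ) = 27375 * c.τ by ring,
    show 32 * (125 * c.τ) = 4000 * c.τ by ring] at h2
  have h3 := Nat.mul_le_mul h1 h2
  refine cancel_le (by positivity) (pow_down num2 c.τ) ?_
  rw [card_O, show 219000 * c.τ = 191625 * c.τ + 27375 * c.τ by ring,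
    show 32000 * c.τ = 28000 * c.τ + 4000 * c.τ by ring,
    show 187000 * c.τ = 187 * (875 * c.τ) + 187 * (125 * c.τ) by ring,
    pow_add, pow_add, pow_add]
  refine h3.trans (le_of_eq ?_)
  ac_rfl

theorem near_le (c : Cx) : (c.q - c.h).choose c.h ≤ 2 ^ (80900 * c.τ) := by
  have h1 := choose_mul_le (n := 203000 * c.τ) (m := 16000 * c.τ) 16 187 (by omega)
  rw [show 203000 * c.τ - 16000 * c.τ = 187000 * c.τ by omega] at h1
  rw [show c.q - c.h = 203000 * c.τ by unfold Cx.q Cx.h; omega]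
  exact cancel_le (by positivity) h1 (pow_up num3 c.τ)

theorem LG_le (c : Cx) : c.LG.length ≤ 2 ^ (126208 * c.τ) := by
  have h1 := bs_mul_le (n := 219000 * c.τ) (m := 30000 * c.τ) (b := 10) (c := 63) (by omega)
    (by norm_num)
  rw [show 219000 * c.τ - 30000 * c.τ = 189000 * c.τ by omega] at h1
  rw [Cx.LG, length_subs _ Subset.rfl, card_range]
  exact cancel_le (by positivity) h1 (pow_up num4 c.τ)

theorem Lb_le (c : Cx) : c.Lb ≤ 2 ^ (10794 * c.τ) := by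
  have h1 := bs_mul_le (n := 32000 * c.τ) (m := 2000 * c.τ) (b := 1) (c := 15) (by omega)
    (by norm_num)
  rw [show 32000 * c.τ - 2000 * c.τ = 30000 * c.τ by omega] at h1
  have h2 : c.Lb ≤ bs (32000 * c.τ) (2000 * c.τ) := by
    rw [Cx.Lb, show 2 * c.h = 32000 * c.τ by unfold Cx.h; omega]
    exact sum_le_sum_of_subset (range_subset_range.mpr (by unfold Cx.s1; omega))
  exact h2.trans (cancel_le (by positivity) h1 (pow_up num5 c.τ))

end Pool.Agent.P.MP_8f87b2_lc.S2
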