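import Pool.Agent.P.MP_8f87b2_lc.S2.Ctx

/-!
# Listing the small subsets
-/

namespace Pool.Agent.P.MP_8f87b2_lc.S2

open Finset

variable {E : Env} {c : Cx}

theorem LstAt.snoc {b : ℕ} {L : List (Finset ℕ)} {σ σ' : St} (h : LstAt b L σ) (T : Finset ℕ)
    (e : σ'.bank b = Function.update (Function.update (σ.bank b) (L.length + L.length) (bm T))
      (L.length + L.length + 1) T.card) : LstAt b (L ++ [T]) σ' := by
  intro i hi
  rw [List.length_append, List.length_singleton] at hi
  rw [e]
  rcases Nat.lt_succ_iff_lt_or_eq.1 hi with h1 | rfl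
  · rw [List.getD_append _ _ _ _ h1, Function.update_of_ne (by omega),
      Function.update_of_ne (by omega), Function.update_of_ne (by omega),
      Function.update_of_ne (by omega)]
    exact h i h1
  · rw [List.getD_append_right _ _ _ _ le_rfl, Nat.sub_self, two_mul, Function.update_self,
      Function.update_of_ne (by omega), Function.update_self]
    exact ⟨rfl, rfl⟩

/-- the list after `j` steps of the inner loop -/
def ext (L : List (Finset ℕ)) (m a j : ℕ) : List (Finset ℕ) :=
  L ++ ((L.take j).filter fun T => T.card < m).map (insert a)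

theorem ext_succ {L : List (Finset ℕ)} {m a j : ℕ} (hj : j < L.length) : ext L m a (j + 1) =
    if (L.getD j ∅).card < m then ext L m a j ++ [insert a (L.getD j ∅)] else ext L m a j := by
  unfold ext
  rw [List.getD_eq_getElem _ _ hj, List.take_succ_eq_append_getElem hj, List.filter_append,
    List.map_append]
  split_ifs with h <;> simp [h]

theorem ext_le (L : List (Finset ℕ)) (m a j : ℕ) :
    (ext L m a j).length ≤ (ext L m a L.length).length := by
  unfold ext
  simp only [List.length_append, List.length_map, List.take_length]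
  exact Nat.add_le_add_left ((List.take_sublist j L).filter _).length_le _

theorem pSubsIn_spec {b m len : ℕ} (hm : m ∉ [len, 44, 45, 47, 48]) (hlen : len ∉ [44, 47, 48])
    {σ : St} {t a mm Q : ℕ} {L : List (Finset ℕ)} (hL : ∀ T ∈ L, T ⊆ range a)
    (hQ : (ext L mm a L.length).length ≤ Q) (ha : 2 ^ (a + 1) ≤ Q) (hl : 3 * Q ≤ E.Lim)
    (hW : 2000 * E.Lim < E.W) (h47 : σ.var 47 = L.length) (h1 : σ.var len = L.length)
    (h44 : σ.var 44 = 2 ^ a) (hmm : σ.var m = mm) (h2 : LstAt b L σ) :
    WP E (pSubsIn b m len) (fun σ' t' => σ'.var len = (ext L mm a L.length).length ∧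
      LstAt b (ext L mm a L.length) σ' ∧ t' ≤ t + L.length * 6 + 2) σ t := by
  simp only [List.mem_cons, List.not_mem_nil, or_false, not_or] at hm hlen
  have hLQ : L.length ≤ Q := le_trans (by simp [ext]) hQ
  have hpos : a + 1 < 2 ^ (a + 1) := Nat.lt_two_pow_self
  refine wp_for L.length 4
    (fun j σ' => σ'.var len = (ext L mm a j).length ∧ LstAt b (ext L mm a j) σ') [len] [b] false
    (by simp [Stmt.Within, blk, Stmt.wv, Stmt.wb, Stmt.rd]) (by simp [Ne.symm hlen.2.2])
    (by simp [Ne.symm hlen.2.1]) (by decide) h47 (by omega) (by omega)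
    ⟨by simp [ext, hlen.2.2, h1], by simpa [ext, LstAt] using h2⟩ ?_
    fun σ' t' _ hI ht => ⟨hI.1, hI.2, by omega⟩
  intro j σ' t' hj hF hi ⟨g1, g2⟩
  have v44 : σ'.var 44 = 2 ^ a := by rw [hF.var 44 (by simp [Ne.symm hlen.1]), h44]
  have vm : σ'.var m = mm := by rw [hF.var m (by simp [hm.1, hm.2.2.2.2]), hmm]
  have hg := g2 j (lt_of_lt_of_le hj (by simp [ext]))
  rw [ext, List.getD_append _ _ _ _ hj, two_mul] at hg
  have hT := hL _ (getD_mem' ∅ hj)
  have hb := bm_lt hT
  have hc : (L.getD j ∅).card ≤ a := (card_le_card hT).trans_eq (card_range a)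
  have haT : a ∉ L.getD j ∅ := fun h => by simpa using hT h
  have hle := (ext_le L mm a (j + 1)).trans hQ
  rw [ext_succ hj] at hle ⊢
  rw [pow_succ] at ha hpos
  generalize L.getD j ∅ = T at *
  rw [wp_ite]
  refine ⟨by simp [hi]; omega, fun h => ?_, fun h => ?_⟩
  · have h3 : T.card < mm := by simpa [hi, hg.2, vm] using h
    rw [if_pos h3] at hle ⊢
    rw [List.length_append, List.length_singleton] at hle
    have e1 : ∀ v, Function.update (σ'.bank b) ((ext L mm a j).length + (ext L mm a j).length) v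
        (j + j + 1) = T.card := fun v => by rw [Function.update_of_ne (by omega), hg.2]
    simp only [wp_blk_cons, wp_set, wp_st, wp_blk_nil, Expr.safe, Expr.eval, BOp.safe, BOp.eval,
      St.setm_var, St.setm_bank, St.setv_var, if_true, g1, hi, hg.1, v44, e1, true_and,
      if_neg hlen.2.2]
    refine ⟨by omega, by omega, by omega, by omega, by omega, by omega, by omega,
      ⟨by simp, g2.snoc _ ?_⟩, by omega⟩
    simp [bm_insert haT, card_insert_of_notMem haT]
  · have h3 : ¬ T.card < mm := by simpa [hi, hg.2, vm] using h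
    rw [if_neg h3, wp_skip]
    exact ⟨⟨by simp [hlen.2.2, g1], g2⟩, by omega⟩

theorem pSubs_spec (hB : Bnd c E) {b x m len : ℕ} (hx : x ∉ [len, 44, 45, 47, 48])
    (hm : m ∉ [len, 44, 45, 47, 48]) (hlen : len ∉ [3, 44, 45, 47, 48]) {σ : St} {t : ℕ}
    (h3 : σ.var 3 = c.q) {e : Finset ℕ} (he : e ⊆ range c.q) (hv : σ.var x = bm e) {mm : ℕ}
    (hmm : σ.var m = mm) :
    WP E (pSubs b x m len) (fun σ' t' => σ'.var len = (subs mm e c.q).length ∧
      LstAt b (subs mm e c.q) σ' ∧ t' ≤ t + c.tSubs (subs mm e c.q).length) σ t := by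
  have hbig := hB.big
  have hQ := c.Q_pos
  have hl : 3 * c.Q ≤ E.Lim := le_trans (Nat.mul_le_mul_right _ (by omega)) hB.lQ
  have hq : c.q < c.Q := Nat.lt_two_pow_self
  have hN : (subs mm e c.q).length ≤ c.Q := by
    rw [length_subs mm he]
    exact (bs_le_two_pow _ _).trans (Nat.pow_le_pow_right (by norm_num)
      ((card_le_card he).trans_eq (card_range _)))
  have hx' := hx
  have hm' := hm
  have hlen' := hlen
  simp only [List.mem_cons, List.not_mem_nil, or_false, not_or] at hx' hm' hlen'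
  unfold pSubs
  simp only [wp_blk_cons, wp_set, wp_st, wp_blk_nil, Expr.safe, Expr.eval]
  refine ⟨by omega, by omega, by omega, by omega, by omega, by omega, by omega, by omega, ?_⟩
  refine wp_for c.q ((subs mm e c.q).length * 6 + 5)
    (fun a σ' => σ'.var len = (subs mm e a).length ∧ LstAt b (subs mm e a) σ' ∧ σ'.var 44 = 2 ^ a)
    [len, 44, 47, 48] [b] false
    (by simp [Stmt.Within, blk, pSubsIn, forL, Stmt.wv, Stmt.wb, Stmt.rd])
    (by simp [Ne.symm hlen'.2.2.1]) (by simp [Ne.symm hlen'.1]) (by decide)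
    (by simp [Ne.symm hlen'.1, h3]) (by omega) (by omega)
    ⟨by simp [subs, hlen'], by simp [subs, LstAt], by simp⟩ ?_
    fun σ' t' _ hI ht => ⟨hI.1, hI.2.1, ht.trans_eq (by rw [Cx.tSubs]; ring)⟩
  intro a σ' t' ha hF hi ⟨g1, g2, g3⟩
  have vx : σ'.var x = bm e := by rw [hF.var x (by simp [hx']), ← hv]; simp [hx']
  have vm : σ'.var m = mm := by rw [hF.var m (by simp [hm']), ← hmm]; simp [hm']
  have h2 : 2 ^ (a + 1) ≤ c.Q := Nat.pow_le_pow_right (by norm_num) ha
  have h4 := subs_length_mono mm e ha.le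
  have h5 := subs_length_mono mm e (Nat.succ_le_of_lt ha)
  rw [wp_blk_cons, wp_ite]
  refine ⟨by simp; omega, fun h => ?_, fun h => ?_⟩
  · have h6 : a ∈ e := by simpa [vx, hi, Nat.and_one_is_mod, bm_shift] using h
    have h7 : subs mm e (a + 1) = ext (subs mm e a) mm a (subs mm e a).length := by
      rw [subs, if_pos h6, ext, List.take_length]
    simp only [wp_blk_cons, wp_set, wp_blk_nil, Expr.safe, Expr.eval, true_and]
    refine (pSubsIn_spec (a := a) (mm := mm) (Q := c.Q) (L := subs mm e a) hm (by simp [hlen'])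
      (fun T hT => (mem_subs.1 hT).2.1) (h7 ▸ h5.trans hN) h2 hl hbig (by simp [g1])
      (by simp [hlen', g1]) (by simp [g3]) (by simp [hm', vm]) (by exact g2)).call [len, 48] [b] false
      (by simp [Stmt.Within, blk, pSubsIn, forL, Stmt.wv, Stmt.wb, Stmt.rd]) ?_
    intro σ₂ t₂ hF₂ ⟨k1, k2, k3⟩
    have v44 : σ₂.var 44 = 2 ^ a := by rw [hF₂.var 44 (by simp [Ne.symm hlen'.2.1])]; simp [g3]
    rw [pow_succ] at h2
    rw [h7]
    refine ⟨by simp [v44]; omega, ⟨by simp [hlen', k1], k2, by simp [v44, pow_succ, mul_two]⟩,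
      by omega⟩
  · have h6 : a ∉ e := by simpa [vx, hi, Nat.and_one_is_mod, bm_shift] using h
    rw [pow_succ] at h2
    simp only [wp_skip, wp_blk_cons, wp_set, wp_blk_nil]
    rw [subs, if_neg h6]
    exact ⟨by simp [g3]; omega, ⟨by simp [hlen', g1], g2, by simp [g3, pow_succ, mul_two]⟩,
      by omega⟩

end Pool.Agent.P.MP_8f87b2_lc.S2
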