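import Pool.Agent.P.MP_8f87b2_lc.S2.Row
import Pool.Agent.P.MP_8f87b2_lc.S2.Subs

/-!
# Evaluation of one output
-/

namespace Pool.Agent.P.MP_8f87b2_lc.S2

open Finset

variable {E : Env} {c : Cx}

namespace OneP

theorem Lb_le (hB : Bnd c E) {e : Finset ℕ} (he : e ⊆ range c.q) (hc : e.card = 2 * c.h) :
    3 * c.Lb ≤ E.Lim := by
  have h1 : 2 * c.h ≤ c.q := by simpa [hc] using card_le_card he
  have h2 : c.Lb ≤ c.Q :=
    (bs_le_two_pow _ _).trans (Nat.pow_le_pow_right (by norm_num) h1)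
  have h3 := hB.lQ
  rw [Nat.add_mul] at h3
  omega

/-- the rows needed for the row of a listed set -/
theorem next (hB : Bnd c E) {e : Finset ℕ} (he : e ⊆ range c.q) (hc : e.card = 2 * c.h) {j a : ℕ}
    (hj : j < (subs c.s1 e c.q).length) (ha : a ∈ e \ (subs c.s1 e c.q).getD j ∅) :
    (∃ j' < (subs c.s1 e c.q).length, j < j' ∧
      (e \ (subs c.s1 e c.q).getD j ∅).erase a = e \ (subs c.s1 e c.q).getD j' ∅) ∨
      ((e \ (subs c.s1 e c.q).getD j ∅).erase a).card ≤ c.d := by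
  obtain ⟨h1, h2, h3⟩ := mem_subs.mp (getD_mem' ∅ hj)
  obtain ⟨a1, a2⟩ := mem_sdiff.mp ha
  rcases h3.lt_or_eq with h | h
  · obtain ⟨j', hj', e'⟩ := exists_getD (L := subs c.s1 e c.q)
      (x := insert a ((subs c.s1 e c.q).getD j ∅)) ∅ (mem_subs.mpr ⟨insert_subset a1 h1,
        insert_subset (he a1) h2, (card_insert_le _ _).trans h⟩)
    refine Or.inl ⟨j', hj', lt_of_le_of_ne
      (subs_index_le hj hj' (e' ▸ subset_insert _ _)) ?_, by rw [e', sdiff_insert]⟩
    rintro rfl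
    exact a2 (e' ▸ mem_insert_self _ _)
  · refine Or.inr ?_
    rw [card_erase_of_mem ha, card_sdiff_of_subset h1, h, hc]
    have := hB.τ1
    unfold Cx.h Cx.s1 Cx.d
    omega

end OneP

theorem pTop_spec (hB : Bnd c E) {σ : St} {t : ℕ} {R : ℕ → ℕ} {r u : ℕ} (hT : Tab c E R r u σ)
    {e : Finset ℕ} (he : e ⊆ range c.q) (hc : e.card = 2 * c.h) (h42 : σ.var 42 = bm e)
    (h22 : σ.var 22 = (subs c.s1 e c.q).length) (h3 : LstAt 3 (subs c.s1 e c.q) σ) :
    WP E pTop (fun σ' t' => Keeps c E R r u σ σ' ∧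
      (σ'.var 38 : ZMod E.W) = (c.Uz R r u c.q e : ℤ) ∧
      t' ≤ t + (c.Lb * (c.tRow + 3) + 2)) σ t := by
  have hbig := hB.big
  have hlen : (subs c.s1 e c.q).length = c.Lb := by rw [length_subs _ he, hc, Cx.Lb]
  have hL := OneP.Lb_le hB he hc
  have hpos := subs_length_pos c.s1 e c.q
  have hmem : ∀ j < c.Lb, (subs c.s1 e c.q).getD j ∅ ⊆ e := fun j hj =>
    (mem_subs.mp (getD_mem' ∅ (hlen ▸ hj))).1
  rw [hlen] at h22 hpos
  unfold pTop
  refine wp_for c.Lb (c.tRow + 1)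
    (fun k σ' => Keeps c E R r u σ σ' ∧
      (∀ j < c.Lb, c.Lb ≤ j + k → RowOK c E R r u σ' (e \ (subs c.s1 e c.q).getD j ∅)) ∧
      (0 < k → (σ'.var 38 : ZMod E.W) =
        (c.Uz R r u c.q (e \ (subs c.s1 e c.q).getD (c.Lb - k) ∅) : ℤ)))
    [36, 34, 35, 37, 38, 39, 41, 44] [13, 14, 15] false (by decide) (by decide) (by decide)
    (by decide) h22 (by omega) (by omega)
    ⟨fun _ _ h => h, fun j h1 h2 => by omega, fun h => by omega⟩ ?_ ?_
  · rintro k σ₁ t₁ hk hF h49 ⟨hK, hrows, -⟩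
    have e42 : σ₁.var 42 = bm e := (hF.var 42 (by decide)).trans h42
    have e22 : σ₁.var 22 = c.Lb := (hF.var 22 (by decide)).trans h22
    have hj : c.Lb - (k + 1) < c.Lb := by omega
    have e3 : σ₁.bank 3 (2 * (c.Lb - (k + 1))) =
        bm ((subs c.s1 e c.q).getD (c.Lb - (k + 1)) ∅) := by
      rw [hF.bank 3 (by decide)]
      exact (h3 _ (hlen ▸ hj)).1
    have hsd := bm_sdiff (hmem _ hj)
    simp only [wp_blk_cons, wp_set, wp_blk_nil, Expr.safe, Expr.eval, BOp.safe, BOp.eval, e42,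
      e22, h49, e3, true_and]
    refine ⟨by omega, ?_⟩
    have hA : Acc c E R r u (σ₁.setv 36
        (bm e - bm ((subs c.s1 e c.q).getD (c.Lb - (k + 1)) ∅))) :=
      (hT.acc.frame hF (by decide) (by decide)).frame
        ((Frame.refl [36] [] false _).of_setv (by decide)) (by decide) (by decide)
    refine (pRow_spec hB hA (w := e \ (subs c.s1 e c.q).getD (c.Lb - (k + 1)) ∅)
      (sdiff_subset.trans he) (by rw [St.setv_var, if_pos rfl]; omega) fun a ha => ?_).mono ?_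
    · rcases OneP.next hB he hc (hlen ▸ hj) ha with ⟨j', h1, h2, h4⟩ | h4
      · rw [h4]
        exact hrows j' (hlen ▸ h1) (by omega)
      · exact hK _ ((erase_subset _ _).trans (sdiff_subset.trans he))
          (hT.rows _ ((erase_subset _ _).trans (sdiff_subset.trans he)) h4)
    · rintro σ₂ t₂ ⟨a1, a2, a3, a4⟩
      refine ⟨⟨fun w hw h => a2 w hw (hK w hw h), fun j h1 h2 => ?_, fun _ => ?_⟩, by omega⟩
      · by_cases h : c.Lb ≤ j + k
        · exact a2 _ (sdiff_subset.trans he) (hrows j h1 h)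
        · obtain rfl : j = c.Lb - (k + 1) := by omega
          exact a1
      · rw [St.setv_var, if_neg (by decide)]
        exact a3
  · rintro σ₁ t₁ - ⟨hK, -, h38⟩ ht
    refine ⟨hK, ?_, by simpa only [Nat.add_assoc] using ht⟩
    have := h38 hpos
    rwa [Nat.sub_self, subs_getD_zero, sdiff_empty] at this

theorem pOne_spec (hB : Bnd c E) {σ : St} {t : ℕ} {R : ℕ → ℕ} {r u : ℕ} (hT : Tab c E R r u σ)
    {e : Finset ℕ} (he : e ⊆ range c.q) (hc : e.card = 2 * c.h) {i : ℕ} (hi : i < c.n)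
    (h42 : σ.var 42 = bm e) (h43 : σ.var 43 = i) :
    WP E pOne (fun σ' t' => Keeps c E R r u σ σ' ∧ (c.test R r u e i → σ'.var 0 = 1) ∧
      (¬ c.test R r u e i → σ'.var 0 = σ.var 0) ∧ t' ≤ t + c.tOne) σ t := by
  have hbig := hB.big
  have hln := hB.ln
  have hn1 := hB.n1
  have hP := hT.acc.pre.par
  have hlen : (subs c.s1 e c.q).length = c.Lb := by rw [length_subs _ he, hc, Cx.Lb]
  unfold pOne
  rw [wp_blk_cons]
  refine (pSubs_spec hB (b := 3) (x := 42) (m := 21) (len := 22) (by decide) (by decide)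
    (by decide) hP.q he h42 hP.s1).call [22, 44, 45, 47, 48] [3] false (by decide) ?_
  rintro σ₁ t₁ hF₁ ⟨h22, h3, ht₁⟩
  have hK₁ : Keeps c E R r u σ σ₁ := Keeps.of_frame hF₁ (by decide)
  have hT₁ := hT.keep hF₁ (by decide) (by decide) hK₁
  rw [wp_blk_cons]
  refine (pTop_spec hB hT₁ he hc ((hF₁.var 42 (by decide)).trans h42) h22 h3).call
    [49, 36, 34, 35, 37, 38, 39, 41, 44] [13, 14, 15] false (by decide) ?_
  rintro σ₂ t₂ hF₂ ⟨hK₂, h38, ht₂⟩
  have hP₂ := hT₁.acc.pre.par.frame hF₂ (by decide)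
  have e43 : σ₂.var 43 = i := by rw [hF₂.var 43 (by decide), hF₁.var 43 (by decide), h43]
  have e0 : σ₂.var 0 = σ.var 0 := by rw [hF₂.var 0 (by decide), hF₁.var 0 (by decide)]
  have hand : ∀ a : ℕ, a &&& (c.T ^ 3 - 1) = a % c.T ^ 3 := fun a => by
    rw [Cx.T, ← pow_mul, Nat.and_two_pow_sub_one_eq_mod]
  have hK := hK₁.trans hK₂
  have htm : t₂ + 3 ≤ t + c.tOne := by
    rw [hlen] at ht₁
    unfold Cx.tOne
    omega
  simp only [wp_blk_cons, wp_ite, wp_set, wp_skip, wp_blk_nil, Expr.safe, Expr.eval, BOp.safe,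
    BOp.eval, St.setv_var, e43, e0, hP₂.T, hP₂.T3, hB.inp i hi, hand, Nat.reduceEqDiff, if_true,
    if_false, true_and, and_true]
  generalize hy : _ % c.T ^ 3 = y
  have hy' : (y : ℤ) = (c.Uz R r u c.q e * wt c.T (c.x i)) % c.T ^ 3 := by
    rw [← hy, cast_mod_eq (z := c.Uz R r u c.q e * wt c.T (c.x i)) _ hB.dT]
    · push_cast; rfl
    · rw [cast_rmul, cast_wt _ _ _ (cast_inp (by omega) _), h38]; push_cast; rfl
  have hte : c.test R r u e i ↔ 0 < y ∧ y < c.T := by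
    rw [Cx.test, ← hy']; omega
  rw [hte]
  refine ⟨by omega, by omega,
    fun h => ⟨by omega, hK, fun _ => trivial, fun h' => ?_, by omega⟩,
    fun h => ⟨hK, fun h' => ?_, fun _ => trivial, by omega⟩⟩
  · exfalso; apply h'
    split_ifs at h <;> simp at h; omega
  · rw [if_pos h'.1, if_pos h'.2] at h; simp at h

end Pool.Agent.P.MP_8f87b2_lc.S2
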