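import Pool.Agent.P.MP_8f87b2_lc.S2.Ctx

/-!
# The family of outputs
-/

namespace Pool.Agent.P.MP_8f87b2_lc.S2

open Finset

variable {E : Env} {c : Cx}

theorem mem_O {e : Finset ℕ} : e ∈ c.O ↔
    ∃ w T, c.isQ w ∧ T ⊆ Ico c.q1 c.q ∧ T.card = c.l2 ∧ e = w ∪ T := by
  unfold Cx.O Cx.isQ
  simp only [mem_image, mem_product, mem_powersetCard]
  constructor
  · rintro ⟨p, ⟨⟨h1, h2⟩, h3, h4⟩, rfl⟩
    exact ⟨p.1, p.2, ⟨h2, h1⟩, h3, h4, rfl⟩
  · rintro ⟨w, T, ⟨h2, h1⟩, h3, h4, rfl⟩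
    exact ⟨(w, T), ⟨⟨h1, h2⟩, h3, h4⟩, rfl⟩

theorem disj_parts {w T : Finset ℕ} (hw : w ⊆ range c.q1) (hT : T ⊆ Ico c.q1 c.q) :
    Disjoint w T := by
  rw [disjoint_left]
  intro x h1 h2
  have a1 := mem_range.1 (hw h1)
  have a2 := (mem_Ico.1 (hT h2)).1
  omega

theorem parts_inj {w T w' T' : Finset ℕ} (hw : w ⊆ range c.q1) (hT : T ⊆ Ico c.q1 c.q)
    (hw' : w' ⊆ range c.q1) (hT' : T' ⊆ Ico c.q1 c.q) (h : w ∪ T = w' ∪ T') :
    w = w' ∧ T = T' := by
  have key : ∀ x, x ∈ w ∨ x ∈ T ↔ x ∈ w' ∨ x ∈ T' := fun x => by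
    rw [← mem_union, ← mem_union, h]
  constructor
  · ext x
    constructor
    · intro hx
      rcases (key x).1 (Or.inl hx) with h1 | h1
      · exact h1
      · exact absurd h1 (disjoint_left.1 (disj_parts hw hT') hx)
    · intro hx
      rcases (key x).2 (Or.inl hx) with h1 | h1
      · exact h1
      · exact absurd h1 (disjoint_left.1 (disj_parts hw' hT) hx)
  · ext x
    constructor
    · intro hx
      rcases (key x).1 (Or.inr hx) with h1 | h1
      · exact absurd hx (disjoint_left.1 (disj_parts hw' hT) h1)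
      · exact h1
    · intro hx
      rcases (key x).2 (Or.inr hx) with h1 | h1
      · exact absurd hx (disjoint_left.1 (disj_parts hw hT') h1)
      · exact h1

theorem O_ok (c : Cx) : OOK c.q c.h c.O := by
  constructor
  · intro e he
    obtain ⟨w, T, ⟨_, hw⟩, hT, _, rfl⟩ := mem_O.1 he
    intro x hx
    rw [mem_range]
    rcases mem_union.1 hx with h | h
    · have a1 := mem_range.1 (hw h)
      unfold Cx.q1 at a1
      unfold Cx.q
      omega
    · exact (mem_Ico.1 (hT h)).2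
  · intro e he
    obtain ⟨w, T, ⟨hc, hw⟩, hT, hc', rfl⟩ := mem_O.1 he
    rw [card_union_of_disjoint (disj_parts hw hT), hc, hc']
    unfold Cx.l1 Cx.l2 Cx.h
    omega

theorem card_O (c : Cx) :
    c.O.card = (191625 * c.τ).choose (28000 * c.τ) * (27375 * c.τ).choose (4000 * c.τ) := by
  unfold Cx.O
  rw [card_image_of_injOn, card_product, card_powersetCard, card_powersetCard, card_range,
    Nat.card_Ico]
  · have e : c.q - c.q1 = 27375 * c.τ := by
      unfold Cx.q Cx.q1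
      omega
    rw [e]
    rfl
  · intro p hp p' hp' h
    simp only [coe_product, Set.mem_prod, mem_coe, mem_powersetCard] at hp hp'
    obtain ⟨h1, h2⟩ := parts_inj hp.1.1 hp.2.1 hp'.1.1 hp'.2.1 h
    exact Prod.ext h1 h2

/-- an entry found in a queried bucket completes the query to an output -/
theorem Tg_of_vn {R : ℕ → ℕ} {r m : ℕ} (hm : m < c.G * c.n * 3) (hv : c.vn R r m < c.M) :
    c.ei m < c.n ∧ c.eg m < c.G ∧ c.Tg m ⊆ Ico c.q1 c.q ∧ (c.Tg m).card = c.l2 := by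
  have h3 : m / 3 < c.G * c.n := by omega
  have hn : 0 < c.n := by
    rcases Nat.eq_zero_or_pos c.n with h | h
    · rw [h] at h3
      simp at h3
    · exact h
  have hg : c.eg m < c.G := by
    unfold Cx.eg
    exact (Nat.div_lt_iff_lt_mul hn).2 h3
  refine ⟨Nat.mod_lt _ hn, hg, ?_, ?_⟩
  · exact (mem_subs.1 (getD_mem' (L := c.LU) ∅ hg)).1
  · by_contra hc
    unfold Cx.vn at hv
    rw [if_neg hc] at hv
    omega

end Pool.Agent.P.MP_8f87b2_lc.S2
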