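import Pool.Agent.P.MP_8f87b2_lc.S2.One
import Pool.Agent.P.MP_8f87b2_lc.S2.Outs

/-!
# One query
-/

namespace Pool.Agent.P.MP_8f87b2_lc.S2

open Finset

variable {E : Env} {c : Cx}

theorem pQuery_spec (hB : Bnd c E) {σ : St} {t : ℕ} {R : ℕ → ℕ} {r u cn : ℕ}
    (hT : Tab c E R r u σ) {w : Finset ℕ} (hw : c.isQ w) (h50 : σ.var 50 = bm w)
    (h46 : σ.var 46 = cn) (hcn : cn ≤ c.Cn) :
    WP E pQuery (fun σ' t' => ∃ cn', σ'.var 46 = cn' ∧ cn' ≤ cn + c.qlen R r w ∧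
      cn' ≤ c.Cn ∧ Keeps c E R r u σ σ' ∧ c.Out R r (σ.var 0) (σ'.var 0) ∧
      (cn + c.qlen R r w ≤ c.Cn → c.Hit R r u w → σ'.var 0 = 1) ∧
      t' + cn * (c.tOne + 6) ≤ t + c.tHv + 2 + cn' * (c.tOne + 6)) σ t := by
  have hbig := hB.big
  have hlQ := hB.lQ
  have hlM := hB.lM
  have hlE := hB.lE
  have hln := hB.ln
  have hls := hB.ls
  have hlC := hB.lC
  have hM := c.M_pos
  have hQ := c.Q_pos
  have hP := hT.acc.pre.par
  have hu : u < 131404 * c.τ := hT.acc.hu'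
  have hq : c.q = 219000 * c.τ := rfl
  have hq1 : c.q1 = 191625 * c.τ := rfl
  have hwq : w ⊆ range c.q := hw.2.trans (range_subset_range.mpr (by omega))
  have h1 : R c.q < c.M := hT.acc.pre.hR c.q (by unfold Cx.nR; omega)
  have h2 := c.Hn_lt R w
  have h4 : c.qn R w < c.M := Nat.mod_lt _ hM
  have h5 : 3 * c.G * c.n = c.G * c.n * 3 := by ring
  have h6 : 3 * c.Q ≤ (c.q + 3) * c.Q := Nat.mul_le_mul_right _ (by omega)
  unfold pQuery
  rw [wp_blk_cons]
  refine (pHv_spec hB (x := 50) (by decide) hP hT.acc.pre.b0 hT.acc.pre.hR hwq h50).call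
    [34, 35, 37] [] false (by decide) ?_
  rintro σ₀ t₀ hF₀ ⟨e34, -, ht₀⟩
  have hK₀ : Keeps c E R r u σ σ₀ := Keeps.of_frame hF₀ (by decide)
  have hT₀ := hT.keep hF₀ (by decide) (by decide) hK₀
  have hP₀ := hT₀.acc.pre.par
  simp only [wp_blk_cons, wp_set, wp_blk_nil, Expr.safe, Expr.eval, BOp.safe, BOp.eval,
    e34, hP₀.M, hP₀.M2, hP₀.q, hT₀.acc.pre.b0, c.and_M, ← Cx.qn.eq_1, true_and, and_true]
  refine ⟨by omega, ?_⟩
  set L := Lst (c.vn R r) (c.G * c.n * 3) (c.qn R w) with hL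
  set K := c.tOne + 6 with hK
  have z0 : σ₀.var 0 = σ.var 0 := hF₀.var 0 (by decide)
  have z46 : σ₀.var 46 = cn := (hF₀.var 46 (by decide)).trans h46
  have z50 : σ₀.var 50 = bm w := (hF₀.var 50 (by decide)).trans h50
  refine wp_while (fun σ' t' => ∃ dn rm : List ℕ, L = dn ++ rm ∧
      Chain (σ₀.bank 9) (σ'.var 51) rm ∧ σ'.var 46 = cn + dn.length ∧
      cn + dn.length ≤ c.Cn ∧ Keeps c E R r u σ₀ σ' ∧ c.Out R r (σ.var 0) (σ'.var 0) ∧
      (∀ m, m + 1 ∈ dn → c.isC u (c.ei m) → c.test R r u (w ∪ c.Tg m) (c.ei m) →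
        σ'.var 0 = 1) ∧
      t' ≤ t₀ + 1 + dn.length * K)
    (fun σ' => c.Cn - σ'.var 46)
    [0, 22, 34, 35, 36, 37, 38, 39, 41, 42, 43, 44, 45, 46, 47, 48, 49, 51, 52]
    [3, 13, 14, 15] false (by decide)
    ⟨[], L, rfl, by simpa using hT₀.acc.pre.lst.1 _ (by omega), by simp [z46], by simpa using hcn,
      fun _ _ h => h, Or.inl (by simp [z0]), by simp, by simp⟩ ?_
  rintro σ₁ t₁ hF₁ ⟨dn, rm, hLe, hch, e46, hlt, hkp, hout, hhit, ht⟩
  have hF₁' : Frame [0, 22, 34, 35, 36, 37, 38, 39, 41, 42, 43, 44, 45, 46, 47, 48, 49, 51, 52]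
      [3, 13, 14, 15] false σ₀ σ₁ := hF₁.of_setv (by decide)
  have hT₁ := hT₀.keep hF₁' (by decide) (by decide) hkp
  have hP₁ := hT₁.acc.pre.par
  have hlen : c.qlen R r w = dn.length + rm.length := by
    rw [Cx.qlen, ← hL, hLe, List.length_append]
  refine ⟨by simp [Expr.safe, BOp.safe]; omega, fun hc => ?_, fun hc => ?_⟩
  · have hc' : σ₁.var 51 ≠ 0 ∧ cn + dn.length < c.Cn := by
      have hc₁ : (if 0 < σ₁.var 51 then 1 else 0) &&&
          (if σ₁.var 46 < σ₁.var 17 then 1 else 0) ≠ 0 := hc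
      rw [e46, hP₁.Cn] at hc₁
      split_ifs at hc₁ <;> simp at hc₁; omega
    obtain ⟨a, rm, rfl⟩ : ∃ a rm', rm = a :: rm' := by
      cases rm with
      | nil => exact absurd hch hc'.1
      | cons a rm => exact ⟨a, rm, rfl⟩
    obtain ⟨e51, -, hch'⟩ := hch
    obtain ⟨m, hm, rfl, hv⟩ := mem_Lst.mp (show a ∈ L by simp [hLe])
    obtain ⟨b10, b11⟩ := hT₁.acc.pre.lst.2 m hm
    obtain ⟨hei, -, hTs, hTc⟩ := Tg_of_vn hm (hv ▸ h4)
    have hneg : c.neg (c.ei m) ≤ 1 := by unfold Cx.neg; split_ifs <;> omega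
    have e9 : σ₁.bank 9 = σ₀.bank 9 := hF₁'.bank 9 (by decide)
    have e50 : σ₁.var 50 = bm w := (hF₁'.var 50 (by decide)).trans z50
    have hdj : Disjoint w (c.Tg m) := disj_parts hw.2 hTs
    have hO : w ∪ c.Tg m ∈ c.O := mem_O.mpr ⟨w, _, hw, hTs, hTc, rfl⟩
    have hes := (O_ok c).sub _ hO
    have hec := (O_ok c).card _ hO
    have hbm : bm w + bm (c.Tg m) < c.Q := by rw [← bm_union hdj]; exact bm_lt hes
    have fin : ∀ (σ₂ : St) (t₂ : ℕ), σ₂.var 46 = cn + dn.length + 1 →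
        Keeps c E R r u σ₁ σ₂ → c.Out R r (σ₁.var 0) (σ₂.var 0) →
        (c.isC u (c.ei m) → c.test R r u (w ∪ c.Tg m) (c.ei m) → σ₂.var 0 = 1) →
        t₂ + 1 ≤ t₁ + K →
        (∃ dn' rm' : List ℕ, L = dn' ++ rm' ∧
          Chain (σ₀.bank 9) (σ₀.bank 9 (m + 1)) rm' ∧ σ₂.var 46 = cn + dn'.length ∧
          cn + dn'.length ≤ c.Cn ∧
          Keeps c E R r u σ₀ (σ₂.setv 51 (σ₀.bank 9 (m + 1))) ∧
          c.Out R r (σ.var 0) (σ₂.var 0) ∧
          (∀ m, m + 1 ∈ dn' → c.isC u (c.ei m) → c.test R r u (w ∪ c.Tg m) (c.ei m) →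
            σ₂.var 0 = 1) ∧ t₂ + 1 ≤ t₀ + 1 + dn'.length * K) ∧
          c.Cn - σ₂.var 46 < c.Cn - (cn + dn.length) := by
      intro σ₂ t₂ a1 a0 a2 a3 a4
      have a5 : cn + (dn ++ [m + 1]).length = cn + dn.length + 1 := by
        simp only [List.length_append, List.length_singleton]; ring
      refine ⟨⟨dn ++ [m + 1], rm, by simp [hLe], hch', by rw [a5, a1], by omega,
        hkp.trans a0, hout.trans a2, fun m' hm' b1 b2 => ?_, ?_⟩, by omega⟩
      · rcases List.mem_append.mp hm' with h | h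
        · exact a2.one (hhit m' h b1 b2)
        · obtain rfl : m' = m := by simpa using h
          exact a3 b1 b2
      · simp only [List.length_append, List.length_singleton, Nat.add_mul]; omega
    simp only [wp_blk_cons, wp_set, wp_ite, wp_skip, wp_blk_nil, Expr.safe, Expr.eval, BOp.safe,
      BOp.eval, St.setv_var, St.setv_bank, e51, e46, e9, e50, b10, b11, hT₁.acc.hu,
      hT₁.acc.pre.b7 _ hei, Nat.and_one_is_mod, Nat.reduceEqDiff, if_true, if_false, true_and,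
      and_true]
    refine ⟨by omega, by omega, by omega, fun h => ⟨by omega, ?_⟩, fun h => ⟨by omega, ?_⟩⟩
    · exact fin ((σ₁.setv 46 (cn + dn.length + 1)).setv 43 (c.ei m)) _ (by simp)
        (fun _ _ h => h) (Or.inl (by simp)) (fun h' => absurd h' h) (by omega)
    · set σ₂ := ((σ₁.setv 46 (cn + dn.length + 1)).setv 43 (c.ei m)).setv 42
        (bm w + bm (c.Tg m)) with hσ₂
      have hF₂ : Frame [46, 43, 42] [] false σ₁ σ₂ :=
        (((Frame.refl _ _ _ σ₂).of_setv (by decide)).of_setv (by decide)).of_setv (by decide)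
      have hK₂ : Keeps c E R r u σ₁ σ₂ := Keeps.of_frame hF₂ (by decide)
      refine (pOne_spec hB (hT₁.keep hF₂ (by decide) (by decide) hK₂) hes hec hei
        (by simp [hσ₂, bm_union hdj]) (by simp [hσ₂])).call
        [0, 22, 34, 35, 36, 37, 38, 39, 41, 44, 45, 47, 48, 49, 52] [3, 13, 14, 15] false
        (by decide) ?_
      rintro σ₃ t₃ hF₃ ⟨a0, a1, a2, a3⟩
      have f51 : σ₃.var 51 = m + 1 := by rw [hF₃.var 51 (by decide)]; simp [hσ₂, e51]
      have f46 : σ₃.var 46 = cn + dn.length + 1 := by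
        rw [hF₃.var 46 (by decide)]; simp [hσ₂]
      have f9 : σ₃.bank 9 = σ₀.bank 9 := by rw [hF₃.bank 9 (by decide)]; simp [hσ₂, e9]
      rw [f51, f9]
      refine ⟨by omega, fin σ₃ _ f46 (hK₂.trans a0) ?_ (fun _ => a1) (by omega)⟩
      by_cases hte : c.test R r u (w ∪ c.Tg m) (c.ei m)
      · exact Or.inr ⟨a1 hte, u, _, _, hO, hei, h, hte⟩
      · exact Or.inl ((a2 hte).trans (by simp [hσ₂]))
  · refine ⟨cn + dn.length, e46, by omega, hlt, hK₀.trans hkp, hout,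
      fun h1 ⟨m, hm, b1, b2, b3⟩ => ?_, ?_⟩
    · refine hhit m ?_ b2 b3
      have hmem : m + 1 ∈ dn ++ rm := hLe ▸ mem_Lst.mpr ⟨m, hm, rfl, b1⟩
      cases rm with
      | nil => simpa using hmem
      | cons a rm =>
        exfalso
        simp only [List.length_cons] at hlen
        have hc₁ : (if 0 < σ₁.var 51 then 1 else 0) &&&
            (if σ₁.var 46 < σ₁.var 17 then 1 else 0) = 0 := hc
        rw [e46, hP₁.Cn, if_pos (show 0 < σ₁.var 51 by
          rw [hch.1]; exact Nat.pos_of_ne_zero hch.2.1), if_pos (by omega)] at hc₁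
        simp at hc₁
    · rw [Nat.add_mul]; omega

end Pool.Agent.P.MP_8f87b2_lc.S2
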