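import Pool.Agent.P.MP_8f87b2_lc.S2.Ctx

/-!
# Filling one table row
-/

namespace Pool.Agent.P.MP_8f87b2_lc.S2

open Finset

variable {E : Env} {c : Cx}

/-- the memory `m` holds row `w` -/
def RowM (c : Cx) (E : Env) (ε : ℤ) (X : Finset ℕ → ℤ) (m : ℕ → ℕ) (w : Finset ℕ) : Prop :=
  ∀ a < c.q, (m (a * c.Q + bm w) : ZMod E.W) = (zet ε X a w : ℤ)

/-- the first `k` cells of row `w` are filled and filled rows are kept -/
def RInv (c : Cx) (E : Env) (ε : ℤ) (X : Finset ℕ → ℤ) (w : Finset ℕ) (m₀ m : ℕ → ℕ) (k : ℕ) :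
    Prop :=
  (∀ a < k, (m (a * c.Q + bm w) : ZMod E.W) = (zet ε X a w : ℤ)) ∧
    ∀ w' ⊆ range c.q, RowM c E ε X m₀ w' → RowM c E ε X m w'

theorem RInv.zero (ε : ℤ) (X : Finset ℕ → ℤ) (w : Finset ℕ) (m : ℕ → ℕ) :
    RInv c E ε X w m m 0 :=
  ⟨fun _ h => absurd h (Nat.not_lt_zero _), fun _ _ h => h⟩

theorem RInv.step {ε : ℤ} {X : Finset ℕ → ℤ} {w : Finset ℕ} {m₀ m : ℕ → ℕ} {k v : ℕ}
    (h : RInv c E ε X w m₀ m k) (hw : w ⊆ range c.q) (hv : (v : ZMod E.W) = (zet ε X k w : ℤ)) :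
    RInv c E ε X w m₀ (Function.update m (k * c.Q + bm w) v) (k + 1) := by
  have key : ∀ a w', w' ⊆ range c.q → (¬ (a = k ∧ w' = w) →
      (m (a * c.Q + bm w') : ZMod E.W) = (zet ε X a w' : ℤ)) →
      (Function.update m (k * c.Q + bm w) v (a * c.Q + bm w') : ZMod E.W) =
        (zet ε X a w' : ℤ) := by
    intro a w' hw' h1
    rw [Function.update_apply]
    split_ifs with e
    · obtain ⟨rfl, rfl⟩ := addr_inj hw' hw e
      exact hv
    · exact h1 fun e' => e (by rw [e'.1, e'.2])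
  refine ⟨fun a ha => key a w hw fun e => h.1 a ?_,
    fun w' hw' h' a ha => key a w' hw' fun _ => h.2 w' hw' h' a ha⟩
  by_contra h1
  exact e ⟨by omega, rfl⟩

theorem RInv.read {ε : ℤ} {X : Finset ℕ → ℤ} {w : Finset ℕ} {m₀ m : ℕ → ℕ} {k j : ℕ}
    (h : RInv c E ε X w m₀ m j) (hw : w ⊆ range c.q) (hk : k ∈ w)
    (h0 : RowM c E ε X m₀ (w.erase k)) :
    (m (k * c.Q + bm w - 2 ^ k) : ZMod E.W) = (zet ε X k (w.erase k) : ℤ) := by
  have e : k * c.Q + bm w - 2 ^ k = k * c.Q + bm (w.erase k) := by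
    have := bm_erase hk
    omega
  rw [e]
  exact h.2 _ ((erase_subset _ _).trans hw) h0 k (mem_range.mp (hw hk))

theorem row_bounds (hB : Bnd c E) {w : Finset ℕ} (hw : w ⊆ range c.q) {k : ℕ} (hk : k < c.q) :
    k * c.Q + bm w + c.Q < E.Lim ∧ 2 ^ k + 2 ^ k < E.Lim ∧ E.Lim < E.W ∧ 1 < E.W := by
  have h1 : bm w < c.Q := bm_lt hw
  have h2 := hB.lQ
  have h3 := hB.big
  have h4 : k * c.Q ≤ c.q * c.Q := Nat.mul_le_mul_right _ hk.le
  have h5 : 2 ^ (k + 1) ≤ c.Q := Nat.pow_le_pow_right (by norm_num) hk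
  rw [Nat.add_mul] at h2
  rw [pow_succ] at h5
  omega

theorem q_bound (hB : Bnd c E) : c.q < E.W ∧ 1 < E.W := by
  have h1 := hB.ls
  have h2 := hB.big
  have h3 := hB.τ1
  unfold Cx.q
  omega

theorem pRowF_spec (hB : Bnd c E) {σ : St} {t : ℕ} (hP : Par c σ) (X Y : Finset ℕ → ℤ)
    {w : Finset ℕ} (hw : w ⊆ range c.q) (h36 : σ.var 36 = bm w)
    (h38 : (σ.var 38 : ZMod E.W) = (X w : ℤ)) (h39 : (σ.var 39 : ZMod E.W) = (Y w : ℤ))
    (hX : ∀ a ∈ w, RowAt c E 13 1 X σ (w.erase a))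
    (hY : ∀ a ∈ w, RowAt c E 14 1 Y σ (w.erase a)) :
    WP E pRowF (fun σ' t' => RowAt c E 13 1 X σ' w ∧ RowAt c E 14 1 Y σ' w ∧
      (∀ w' ⊆ range c.q, RowAt c E 13 1 X σ w' → RowAt c E 13 1 X σ' w') ∧
      (∀ w' ⊆ range c.q, RowAt c E 14 1 Y σ w' → RowAt c E 14 1 Y σ' w') ∧
      (σ'.var 38 : ZMod E.W) = (zet 1 X c.q w : ℤ) ∧
      (σ'.var 39 : ZMod E.W) = (zet 1 Y c.q w : ℤ) ∧ t' ≤ t + (c.q * 9 + 4)) σ t := by
  obtain ⟨hq, hW⟩ := q_bound hB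
  unfold pRowF
  simp only [wp_blk_cons, wp_set, wp_blk_nil, Expr.safe, Expr.eval]
  refine ⟨trivial, hW, ?_⟩
  refine wp_for c.q 7 (fun k σ' => σ'.var 41 = k * c.Q + bm w ∧ σ'.var 44 = 2 ^ k ∧
      (σ'.var 38 : ZMod E.W) = (zet 1 X k w : ℤ) ∧ (σ'.var 39 : ZMod E.W) = (zet 1 Y k w : ℤ) ∧
      RInv c E 1 X w (σ.bank 13) (σ'.bank 13) k ∧ RInv c E 1 Y w (σ.bank 14) (σ'.bank 14) k)
    [38, 39, 41, 44] [13, 14] false (by decide) (by decide) (by decide) (by decide)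
    (by simp [hP.q]) hq hW ?_ ?_ ?_
  · refine ⟨by simp [h36], by simp, by simpa [zet] using h38, by simpa [zet] using h39,
      RInv.zero _ _ _ _, RInv.zero _ _ _ _⟩
  · intro k σ' t' hk hF hi ⟨h41, h44, e38, e39, i13, i14⟩
    have g36 : σ'.var 36 = bm w := by rw [hF.var 36 (by decide)]; simp [h36]
    have g4 : σ'.var 4 = c.Q := by rw [hF.var 4 (by decide)]; simp [hP.Q]
    obtain ⟨b1, b2, b3, -⟩ := row_bounds hB hw hk
    have j13 := i13.step hw e38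
    have j14 := i14.step hw e39
    simp only [wp_blk_cons, wp_set, wp_st, wp_ite, wp_skip, wp_blk_nil]
    by_cases hkw : k ∈ w
    · have r13 := j13.read hw hkw (hX k hkw)
      have r14 := j14.read hw hkw (hY k hkw)
      have b4 := bm_erase hkw
      simp [g36, g4, h41, h44, hi, Nat.and_one_is_mod, bm_shift, hkw, zet, e38, e39, r13, r14, j13,
        j14]
      rw [Nat.add_mul, pow_succ]
      omega
    · simp [g36, g4, h41, h44, hi, Nat.and_one_is_mod, bm_shift, hkw, zet, e38, e39, j13, j14]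
      rw [Nat.add_mul, pow_succ]
      omega
  · intro σ' t' _ ⟨_, _, e38, e39, i13, i14⟩ ht
    exact ⟨i13.1, i14.1, i13.2, i14.2, e38, e39, by omega⟩

theorem pRowU_spec (hB : Bnd c E) {σ : St} {t : ℕ} (hP : Par c σ) (X : Finset ℕ → ℤ)
    {w : Finset ℕ} (hw : w ⊆ range c.q) (h36 : σ.var 36 = bm w)
    (h38 : (σ.var 38 : ZMod E.W) = (X w : ℤ))
    (hX : ∀ a ∈ w, RowAt c E 15 (-1) X σ (w.erase a)) :
    WP E pRowU (fun σ' t' => RowAt c E 15 (-1) X σ' w ∧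
      (∀ w' ⊆ range c.q, RowAt c E 15 (-1) X σ w' → RowAt c E 15 (-1) X σ' w') ∧
      (σ'.var 38 : ZMod E.W) = (zet (-1) X c.q w : ℤ) ∧ t' ≤ t + (c.q * 7 + 4)) σ t := by
  obtain ⟨hq, hW⟩ := q_bound hB
  unfold pRowU
  simp only [wp_blk_cons, wp_set, wp_blk_nil, Expr.safe, Expr.eval]
  refine ⟨trivial, hW, ?_⟩
  refine wp_for c.q 5 (fun k σ' => σ'.var 41 = k * c.Q + bm w ∧ σ'.var 44 = 2 ^ k ∧
      (σ'.var 38 : ZMod E.W) = (zet (-1) X k w : ℤ) ∧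
      RInv c E (-1) X w (σ.bank 15) (σ'.bank 15) k)
    [38, 41, 44] [15] false (by decide) (by decide) (by decide) (by decide)
    (by simp [hP.q]) hq hW ?_ ?_ ?_
  · refine ⟨by simp [h36], by simp, by simpa [zet] using h38, RInv.zero _ _ _ _⟩
  · intro k σ' t' hk hF hi ⟨h41, h44, e38, i15⟩
    have g36 : σ'.var 36 = bm w := by rw [hF.var 36 (by decide)]; simp [h36]
    have g4 : σ'.var 4 = c.Q := by rw [hF.var 4 (by decide)]; simp [hP.Q]
    obtain ⟨b1, b2, b3, -⟩ := row_bounds hB hw hk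
    have j15 := i15.step hw e38
    simp only [wp_blk_cons, wp_set, wp_st, wp_ite, wp_skip, wp_blk_nil]
    by_cases hkw : k ∈ w
    · have r15 := j15.read hw hkw (hX k hkw)
      have b4 := bm_erase hkw
      have hc := fun a b => cast_rsub (W := E.W) (by omega) a b
      simp [g36, g4, h41, h44, hi, Nat.and_one_is_mod, bm_shift, hkw, zet, e38, r15, j15, hc,
        -ZMod.natCast_mod]
      simp only [Nat.add_mul, pow_succ, ← sub_eq_add_neg, and_true]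
      omega
    · simp [g36, g4, h41, h44, hi, Nat.and_one_is_mod, bm_shift, hkw, zet, e38, j15]
      rw [Nat.add_mul, pow_succ]
      omega
  · intro σ' t' _ ⟨_, _, e38, i15⟩ ht
    exact ⟨i15.1, i15.2, e38, by omega⟩

end Pool.Agent.P.MP_8f87b2_lc.S2
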