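import Pool.Agent.P.MP_8f87b2_lc.S2.Hv
import Pool.Agent.P.MP_8f87b2_lc.S2.RowFU

/-!
# Filling the rows of one set, and of all small sets
-/

namespace Pool.Agent.P.MP_8f87b2_lc.S2

open Finset

variable {E : Env} {c : Cx}

theorem RowP.rowAt_congr {b : ℕ} {ε : ℤ} {X : Finset ℕ → ℤ} {σ σ' : St} {w : Finset ℕ}
    (h : RowAt c E b ε X σ w) (e : σ'.bank b = σ.bank b) : RowAt c E b ε X σ' w := by
  unfold RowAt
  rw [e]
  exact h

/-- the part of `pRow` after the inputs are loaded -/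
theorem RowP.tail (hB : Bnd c E) {σ : St} {t : ℕ} {R : ℕ → ℕ} {r u : ℕ} (hP : Par c σ)
    {w : Finset ℕ} (hw : w ⊆ range c.q) (h36 : σ.var 36 = bm w)
    (h38 : (σ.var 38 : ZMod E.W) = (c.Xz R r u 0 w : ℤ))
    (h39 : (σ.var 39 : ZMod E.W) = (c.Xz R r u 1 w : ℤ))
    (hrec : ∀ a ∈ w, RowOK c E R r u σ (w.erase a)) :
    WP E (blk [pRowF, .set 38 (rmul (.v 38) (.v 39)), pRowU])
      (fun σ' t' => RowOK c E R r u σ' w ∧ Keeps c E R r u σ σ' ∧
      (σ'.var 38 : ZMod E.W) = (c.Uz R r u c.q w : ℤ) ∧ t' ≤ t + (c.q * 16 + 9)) σ t := by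
  rw [wp_blk_cons]
  refine (pRowF_spec hB hP _ _ hw h36 h38 h39 (fun a ha => (hrec a ha).1)
    fun a ha => (hrec a ha).2.1).call [37, 38, 39, 41, 44] [13, 14] false (by decide) ?_
  rintro σ₁ t₁ hF₁ ⟨a1, a2, a3, a4, a5, a6, a7⟩
  have e15 : σ₁.bank 15 = σ.bank 15 := hF₁.bank 15 (by decide)
  rw [wp_blk_cons, wp_set, wp_blk_cons]
  refine ⟨by simp, ?_⟩
  have hF₂ : Frame [38] [] false σ₁
      (σ₁.setv 38 ((rmul (.v 38) (.v 39)).eval E σ₁)) :=
    ⟨fun x hx => by simp only [List.mem_singleton] at hx; simp [hx], fun _ _ => rfl, fun _ => rfl⟩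
  refine (pRowU_spec hB ((hP.frame hF₁ (by decide)).frame hF₂ (by decide)) (c.Pz R r u) hw
    ((hF₂.var 36 (by decide)).trans ((hF₁.var 36 (by decide)).trans h36)) ?_
    fun a ha => RowP.rowAt_congr (hrec a ha).2.2 e15).call [37, 38, 41, 44] [15] false
    (by decide) ?_
  · simp only [St.setv_var, if_true, Expr.eval, BOp.eval]
    rw [cast_rmul, a5, a6, Cx.Pz]
    push_cast
    rfl
  rintro σ₃ t₃ hF₃ ⟨b1, b2, b3, b4⟩
  have e13 : σ₃.bank 13 = σ₁.bank 13 := hF₃.bank 13 (by decide)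
  have e14 : σ₃.bank 14 = σ₁.bank 14 := hF₃.bank 14 (by decide)
  rw [wp_blk_nil]
  refine ⟨⟨RowP.rowAt_congr a1 e13, RowP.rowAt_congr a2 e14, b1⟩, fun w' hw' h => ?_, b3,
    by omega⟩
  exact ⟨RowP.rowAt_congr (a3 w' hw' h.1) e13, RowP.rowAt_congr (a4 w' hw' h.2.1) e14,
    b2 w' hw' (RowP.rowAt_congr h.2.2 e15)⟩

theorem pRow_spec (hB : Bnd c E) {σ : St} {t : ℕ} {R : ℕ → ℕ} {r u : ℕ} (hA : Acc c E R r u σ)
    {w : Finset ℕ} (hw : w ⊆ range c.q) (h36 : σ.var 36 = bm w)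
    (hrec : ∀ a ∈ w, RowOK c E R r u σ (w.erase a)) :
    WP E pRow (fun σ' t' => RowOK c E R r u σ' w ∧ Keeps c E R r u σ σ' ∧
      (σ'.var 38 : ZMod E.W) = (c.Uz R r u c.q w : ℤ) ∧ t' ≤ t + c.tRow) σ t := by
  have hbig := hB.big
  have hlM := hB.lM
  have hls := hB.ls
  have hτ := hB.τ1
  have hM := c.M_pos
  have hq : c.q = 219000 * c.τ := rfl
  have hh : c.h = 16000 * c.τ := rfl
  have hnR : c.nR = c.q + 2 := rfl
  have hcard : w.card ≤ c.q := by simpa using card_le_card hw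
  have hHn := c.Hn_lt R w
  have r0 := hA.pre.hR c.q (by omega)
  have r1 := hA.pre.hR (c.q + 1) (by omega)
  have m0 : (R c.q + c.Hn R w) % c.M < c.M := Nat.mod_lt _ hM
  have m1 : (R (c.q + 1) + c.Hn R w) % c.M < c.M := Nat.mod_lt _ hM
  unfold pRow
  rw [wp_blk_cons]
  refine (pHv_spec hB (by decide) hA.pre.par hA.pre.b0 hA.pre.hR hw h36).call [34, 35, 37] []
    false (by decide) ?_
  rintro σ₁ t₁ hF₁ ⟨h34, h35, ht₁⟩
  have hA₁ := hA.frame hF₁ (by decide) (by decide)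
  have hP₁ := hA₁.pre.par
  rw [wp_blk_cons]
  have key : WP E (.ite (eeq (.v 35) (.v 13)) (blk
      [.set 38 (.ld 12 (emodM (eadd (.ld 0 (.v 3)) (.v 34)))),
        .set 39 (.ld 12 (eadd (emodM (eadd (.ld 0 (einc 3)) (.v 34))) (.v 6)))])
      (blk [.set 38 (.c 0), .set 39 (.c 0)]))
      (fun σ' t' => (σ'.var 38 : ZMod E.W) = (c.Xz R r u 0 w : ℤ) ∧
        (σ'.var 39 : ZMod E.W) = (c.Xz R r u 1 w : ℤ) ∧ t' ≤ t₁ + 3) σ₁ t₁ := by
    by_cases hc : w.card = c.h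
    · refine wp_iteT ?_ ?_ ?_
      · simp [h35, hP₁.h]; omega
      · simp [h35, hP₁.h, hc]
      · simp only [wp_blk_cons, wp_set, wp_blk_nil]
        have e0 := hA₁.b12 ((R c.q + c.Hn R w) % c.M) (by omega)
        have e1 := hA₁.b12 ((R (c.q + 1) + c.Hn R w) % c.M + c.M) (by omega)
        simp [h34, hP₁.q, hP₁.M, hA₁.pre.b0, c.and_M, Cx.Xz, hc, e0, e1]
        omega
    · refine wp_iteF ?_ ?_ ?_
      · simp [h35, hP₁.h]; omega
      · simp only [Expr.eval, BOp.eval, h35, hP₁.h]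
        split_ifs <;> first | rfl | omega
      · simp only [wp_blk_cons, wp_set, wp_blk_nil]
        simp [Cx.Xz, hc]
        omega
  refine key.call [38, 39] [] false (by decide) ?_
  rintro σ₂ t₂ hF₂ ⟨h38, h39, ht₂⟩
  have hK : Keeps c E R r u σ σ₂ :=
    (Keeps.of_frame hF₁ (by decide)).trans (Keeps.of_frame hF₂ (by decide))
  refine (RowP.tail hB (hP₁.frame hF₂ (by decide)) hw
    ((hF₂.var 36 (by decide)).trans ((hF₁.var 36 (by decide)).trans h36)) h38 h39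
    fun a ha => hK _ ((erase_subset _ _).trans hw) (hrec a ha)).mono ?_
  rintro σ₃ t₃ ⟨a1, a2, a3, a4⟩
  refine ⟨a1, hK.trans a2, a3, ?_⟩
  unfold Cx.tHv at ht₁
  unfold Cx.tRow
  omega

theorem pGlob_spec (hB : Bnd c E) {σ : St} {t : ℕ} {R : ℕ → ℕ} {r u : ℕ}
    (hA : Acc c E R r u σ) :
    WP E pGlob (fun σ' t' => (∀ w ⊆ range c.q, w.card ≤ c.d → RowOK c E R r u σ' w) ∧
      t' ≤ t + (c.LG.length * (c.tRow + 3) + 2)) σ t := by
  have hbig := hB.big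
  have hls := hB.ls
  have hτ := hB.τ1
  have hlen : 3 * c.LG.length ≤ E.Lim := by
    have h1 : c.LG.length ≤ c.Q := by
      unfold Cx.LG
      rw [length_subs _ Subset.rfl, card_range]
      exact bs_le_two_pow _ _
    have h2 := hB.lQ
    nlinarith [Nat.zero_le (c.q * c.Q)]
  have hmem : ∀ i < c.LG.length, c.LG.getD i ∅ ⊆ range c.q ∧ (c.LG.getD i ∅).card ≤ c.d :=
    fun i hi => ⟨(mem_subs.mp (getD_mem' ∅ hi)).1, (mem_subs.mp (getD_mem' ∅ hi)).2.2⟩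
  have hex : ∀ w ⊆ range c.q, w.card ≤ c.d → ∃ i < c.LG.length, c.LG.getD i ∅ = w :=
    fun w hw hd => exists_getD ∅ (mem_subs.mpr ⟨hw, hw, hd⟩)
  refine wp_for c.LG.length (c.tRow + 1)
    (fun m σ' => ∀ i < m, RowOK c E R r u σ' (c.LG.getD i ∅))
    [36, 34, 35, 37, 38, 39, 41, 44] [13, 14, 15] false (by decide) (by decide) (by decide)
    (by decide) hA.pre.n1 (by omega) (by omega) (by simp) ?_ ?_
  · intro m σ₁ t₁ hm hF₁ h33 hI
    have hA₁ := hA.frame hF₁ (by decide) (by decide)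
    rw [wp_blk_cons, wp_set, wp_blk_cons]
    refine ⟨by simp [h33]; omega, ?_⟩
    have hF₂ : Frame [36] [] false σ₁ (σ₁.setv 36 ((Expr.ld 1 (edbl 33)).eval E σ₁)) :=
      ⟨fun x hx => by simp only [List.mem_singleton] at hx; simp [hx], fun _ _ => rfl,
        fun _ => rfl⟩
    refine (pRow_spec hB (hA₁.frame hF₂ (by decide) (by decide)) (hmem m hm).1 ?_ ?_).mono ?_
    · simp only [St.setv_var, if_true, Expr.eval, BOp.eval, h33]
      rw [← two_mul]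
      exact (hA₁.pre.b1 m hm).1
    · intro a ha
      obtain ⟨i, hi, e⟩ := hex ((c.LG.getD m ∅).erase a) ((erase_subset _ _).trans (hmem m hm).1)
        (card_erase_le.trans (hmem m hm).2)
      have h1 : i ≤ m := subs_index_le hi hm (by
        change c.LG.getD i ∅ ⊆ c.LG.getD m ∅
        rw [e]; exact erase_subset _ _)
      have h2 : i ≠ m := by
        rintro rfl
        exact notMem_erase a _ (e ▸ ha)
      exact e ▸ hI i (by omega)
    · rintro σ₃ t₃ ⟨a1, a2, -, a4⟩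
      rw [wp_blk_nil]
      refine ⟨fun i hi => ?_, by omega⟩
      by_cases h : i = m
      · exact h ▸ a1
      · exact a2 _ (hmem i (by omega)).1 (hI i (by omega))
  · intro σ₁ t₁ _ hI ht
    refine ⟨fun w hw hd => ?_, ht.trans (by rw [add_assoc t])⟩
    obtain ⟨i, hi, rfl⟩ := hex w hw hd
    exact hI i hi

end Pool.Agent.P.MP_8f87b2_lc.S2
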