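import Pool.Agent.P.MP_8f87b2_lc.S2.Outs
import Pool.Agent.P.MP_8f87b2_lc.Correct

/-!
# Soundness of the test
-/

namespace Pool.Agent.P.MP_8f87b2_lc.S2

open Finset

variable {E : Env} {c : Cx}

/-- the colliding pairs in the output `e` -/
def Cx.coll (c : Cx) (R : ℕ → ℕ) (r u : ℕ) (e : Finset ℕ) : Finset (Finset ℕ × ℕ × ℕ) :=
  (powersetCard c.h e ×ˢ range c.n ×ˢ range c.n).filter fun p =>
    (¬ c.isC u p.2.1 ∧ c.γ r p.2.1 + side u p.2.1 * c.M = (R c.q + c.Hn R p.1) % c.M) ∧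
    (¬ c.isC u p.2.2 ∧ c.γ r p.2.2 + side u p.2.2 * c.M =
      (R (c.q + 1) + c.Hn R (e \ p.1)) % c.M + c.M)

theorem uz_coll (R : ℕ → ℕ) (r u : ℕ) {e : Finset ℕ} (he : e ⊆ range c.q)
    (hc : e.card = 2 * c.h) :
    c.Uz R r u c.q e = ∑ p ∈ c.coll R r u e, wt c.T (c.x p.2.1) * wt c.T (c.x p.2.2) := by
  have h := zet_root (c.Xz R r u 0) (c.Xz R r u 1) he hc (fun p hp => if_neg hp)
    (fun p hp => if_neg hp)
  refine Eq.trans h ?_
  rw [Cx.coll, sum_filter, sum_product]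
  refine sum_congr rfl fun S hS => ?_
  rw [mem_powersetCard] at hS
  have c2 : (e \ S).card = c.h := by rw [card_sdiff_of_subset hS.1, hS.2]; omega
  rw [Cx.Xz, Cx.Xz, if_pos hS.2, if_pos c2, Cx.WT, Cx.WT, sum_mul_sum, sum_product]
  refine sum_congr rfl fun a _ => sum_congr rfl fun b _ => ?_
  simp only [add_zero, zero_mul, one_mul, ite_zero_mul_ite_zero]

theorem test_iff (hS : Sz c) (hx : ∀ i < c.n, 4 * |c.x i| ≤ c.V) (R : ℕ → ℕ) (r u : ℕ)
    {e : Finset ℕ} (he : e ∈ c.O) {i : ℕ} (hi : i < c.n) :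
    c.test R r u e i ↔ (c.coll R r u e).Nonempty ∧
      ∀ p ∈ c.coll R r u e, c.x p.2.1 + c.x p.2.2 + c.x i = 0 := by
  have h1 := (O_ok c).sub e he
  have h2 := (O_ok c).card e he
  have hn := hS.nN.le
  have hcard : (c.coll R r u e).card ≤ 2 ^ (163404 * c.τ) := by
    refine (card_filter_le _ _).trans ?_
    simp only [card_product, card_powersetCard, card_range]
    rw [show 163404 * c.τ = e.card + (65702 * c.τ + 65702 * c.τ) by
      rw [h2]; unfold Cx.h; omega, pow_add, pow_add]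
    exact Nat.mul_le_mul (Nat.choose_le_two_pow _ _) (Nat.mul_le_mul hn hn)
  refine finger (c.coll R r u e) (fun q => c.x q.2.1) (fun q => c.x q.2.2) (c.x i) c.T
    (2 ^ (163404 * c.τ) : ℕ) c.V (by exact_mod_cast hcard) (fun q hq => ?_)
    (by exact_mod_cast c.V_pos) ?_ _ (by rw [uz_coll R r u h1 h2, sum_mul])
  · simp only [Cx.coll, mem_filter, mem_product, mem_range] at hq
    have := hx _ hq.1.2.1
    have := hx _ hq.1.2.2
    have := hx _ hi
    have := abs_add_three (c.x q.2.1) (c.x q.2.2) (c.x i)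
    have := abs_nonneg (c.x i)
    linarith
  · have h3 : 8 * 2 ^ (163404 * c.τ) * (c.V * c.V) < c.T := by
      have := hS.τ1
      rw [Cx.V, Cx.T, show 8 = 2 ^ 3 from rfl, ← pow_add, ← pow_add, ← pow_add]
      refine Nat.pow_lt_pow_right (by norm_num) ?_
      unfold Cx.v
      omega
    rw [sq]
    exact_mod_cast h3

theorem sound (hS : Sz c) (hx : ∀ i < c.n, 4 * |c.x i| ≤ c.V) {R : ℕ → ℕ} {r : ℕ}
    (h : c.Found R r) : ∃ a < c.n, ∃ b < c.n, ∃ i < c.n, a ≠ b ∧ a ≠ i ∧ b ≠ i ∧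
      c.x a + c.x b + c.x i = 0 := by
  obtain ⟨u, e, i, he, hi, hC, ht⟩ := h
  obtain ⟨⟨q, hq⟩, h0⟩ := (test_iff hS hx R r u he hi).mp ht
  have h1 := h0 q hq
  simp only [Cx.coll, mem_filter, mem_product, mem_range] at hq
  obtain ⟨⟨-, ha, hb⟩, ⟨a1, a2⟩, b1, b2⟩ := hq
  refine ⟨_, ha, _, hb, i, hi, fun e => ?_, fun e => a1 (e ▸ hC), fun e => b1 (e ▸ hC), h1⟩
  rw [e] at a2
  have := Nat.mod_lt (R c.q + c.Hn R q.1) c.M_pos
  omega

theorem exists_inst (hS : Sz c) {a b i : ℕ} (ha : a < c.n) (hb : b < c.n)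
    (hab : a ≠ b) (h1 : c.neg a ≠ c.neg i) (h2 : c.neg b ≠ c.neg i) :
    ∃ u < c.nI, ¬ c.isC u a ∧ ¬ c.isC u b ∧ c.isC u i ∧ side u a ≠ side u b := by
  have hn := hS.nN
  obtain ⟨t, ht, hd⟩ := exists_bit (K := 65702 * c.τ) (ha.trans hn) (hb.trans hn) hab
  have b1 : ∀ j, c.neg j ≤ 1 := fun j => by unfold Cx.neg; split_ifs <;> omega
  have := b1 a
  have := b1 b
  have := b1 i
  refine ⟨2 * t + c.neg i, by unfold Cx.nI; omega, by unfold Cx.isC; omega,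
    by unfold Cx.isC; omega, by unfold Cx.isC; omega, ?_⟩
  unfold side
  rwa [show (2 * t + c.neg i) / 2 = t by omega]

/-- every solution is split by some instance -/
theorem exists_split (hS : Sz c) {a b i : ℕ} (ha : a < c.n) (hb : b < c.n) (hi : i < c.n)
    (hab : a ≠ b) (hai : a ≠ i) (hbi : b ≠ i) (hx : c.x a ≠ c.x b)
    (h0 : c.x a + c.x b + c.x i = 0) :
    ∃ u < c.nI, ∃ ia < c.n, ∃ ib < c.n, ∃ ic < c.n, c.x ia + c.x ib + c.x ic = 0 ∧
      ¬ c.isC u ia ∧ ¬ c.isC u ib ∧ c.isC u ic ∧ side u ia = 0 ∧ side u ib = 1 := by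
  have key : ∀ a b i, a < c.n → b < c.n → i < c.n → a ≠ b → c.neg a ≠ c.neg i →
      c.neg b ≠ c.neg i → c.x a + c.x b + c.x i = 0 →
      ∃ u < c.nI, ∃ ia < c.n, ∃ ib < c.n, ∃ ic < c.n, c.x ia + c.x ib + c.x ic = 0 ∧
      ¬ c.isC u ia ∧ ¬ c.isC u ib ∧ c.isC u ic ∧ side u ia = 0 ∧ side u ib = 1 := by
    intro a b i ha hb hi hab h1 h2 h0
    obtain ⟨u, hu, c1, c2, c3, c4⟩ := exists_inst hS ha hb hab h1 h2
    rcases side_le u a with h | h
    · exact ⟨u, hu, a, ha, b, hb, i, hi, h0, c1, c2, c3, h, by have := side_le u b; omega⟩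
    · exact ⟨u, hu, b, hb, a, ha, i, hi, by linarith, c2, c1, c3,
        by have := side_le u b; omega, h⟩
  by_cases h1 : c.neg a = c.neg b
  · refine key a b i ha hb hi hab ?_ ?_ h0 <;>
      (unfold Cx.neg at h1 ⊢; split_ifs at h1 ⊢ <;> omega)
  · by_cases h2 : c.neg a = c.neg i
    · exact key a i b ha hi hb hai h1 (h2 ▸ h1) (by linarith)
    · refine key b i a hb hi ha hbi (Ne.symm h1) (Ne.symm h2) (by linarith)

end Pool.Agent.P.MP_8f87b2_lc.S2
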